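import Pool.Agent.H.MP_b989b4_co.Base
set_option linter.unusedSectionVars false

namespace Pool.Agent.H.MP_b989b4_co
open Finset Function
variable {ι : Type*} [Fintype ι] [DecidableEq ι]

def ES (s : Finset ι) (n : ℕ) (x : ι → ℤ) : ℤ :=
  ∑ S ∈ s.powerset, if S.card = n then ∏ i ∈ S, x i else 0

lemma ES_zero (s : Finset ι) (x : ι → ℤ) : ES s 0 x = 1 := by
  unfold ES
  rw [sum_eq_single ∅]
  · simp
  · intro S _ h; rw [if_neg (by simpa using h)]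
  · simp

lemma ES_insert {s : Finset ι} {a : ι} (h : a ∉ s) (n : ℕ) (x : ι → ℤ) :
    ES (insert a s) (n + 1) x = ES s (n + 1) x + x a * ES s n x := by
  unfold ES
  rw [sum_powerset_insert h, mul_sum]
  congr 1
  refine sum_congr rfl fun S hS => ?_
  have : a ∉ S := fun h' => h (mem_powerset.1 hS h')
  rw [card_insert_of_notMem this, prod_insert this]
  simp

lemma ES_one (s : Finset ι) (x : ι → ℤ) : ES s 1 x = ∑ i ∈ s, x i := by
  induction s using Finset.induction_on with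
  | empty => simp [ES]
  | insert a s h ih => rw [ES_insert h, ih, ES_zero, sum_insert h]; ring

lemma ES_two (s : Finset ι) (x : ι → ℤ) :
    2 * ES s 2 x = (∑ i ∈ s, x i) ^ 2 - ∑ i ∈ s, x i ^ 2 := by
  induction s using Finset.induction_on with
  | empty => simp [ES]
  | insert a s h ih => rw [ES_insert h, ES_one, sum_insert h, sum_insert h]; linarith

def SA (x : ι → ℤ) : ℤ := ES univ 2 x

lemma two_SA (x : ι → ℤ) : 2 * SA x = (∑ i, x i) ^ 2 - ∑ i, x i ^ 2 := ES_two _ _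

lemma sum_card (φ : ℕ → ℤ) (h : ∀ n, 3 ≤ n → φ n = 0) (x : ι → ℤ) :
    ∑ S : Finset ι, φ S.card * ∏ i ∈ S, x i = φ 0 + φ 1 * (∑ i, x i) + φ 2 * SA x := by
  rw [← ES_one univ x, ← mul_one (φ 0), ← ES_zero univ x]
  unfold SA ES
  rw [powerset_univ, mul_sum, mul_sum, mul_sum, ← sum_add_distrib, ← sum_add_distrib]
  refine sum_congr rfl fun S _ => ?_
  rcases hc : S.card with _ | _ | _ | n
  · simp
  · simp
  · simp
  · simp [h (n + 1 + 1 + 1) (by omega)]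

def CC (σ : ι ≃ ι) (x y : ι → ℤ) : ℤ := ∑ i, x i * y (σ i)

lemma CC_symm (σ : ι ≃ ι) (x y : ι → ℤ) : CC σ.symm y x = CC σ x y := by
  unfold CC
  rw [← σ.sum_comp]
  simp [mul_comm]

def Q (σ τ : ι ≃ ι) (t e u v : ℤ) (x y : ι → ℤ) : ℤ :=
  PP t e u v (∑ i, x i) (∑ i, y i) (SA x) (SA y) (CC σ x y) (CC τ x y)

lemma Q_uv (σ τ : ι ≃ ι) (t e u v : ℤ) (x y : ι → ℤ) :
    Q σ τ t e u v x y = Q τ σ t e v u x y := by
  unfold Q PP; ring

lemma Q_xy (σ τ : ι ≃ ι) (t e u v : ℤ) (x y : ι → ℤ) :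
    Q σ τ t e u v x y = Q σ.symm τ.symm t e u v y x := by
  unfold Q PP; rw [CC_symm, CC_symm]; ring

section upd
variable {x y : ι → ℤ} {i : ι}

lemma S_upd (h : x i = 0) (c : ℤ) : ∑ j, update x i c j = (∑ j, x j) + c := by
  rw [sum_update_of_mem (mem_univ i), ← sum_sdiff (subset_univ {i})]; simp [h]; ring

lemma sq_upd (h : x i = 0) (c : ℤ) : ∑ j, update x i c j ^ 2 = (∑ j, x j ^ 2) + c ^ 2 := by
  have := S_upd (x := fun j => x j ^ 2) (i := i) (by simp [h]) (c ^ 2)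
  rw [← this]
  refine sum_congr rfl fun j _ => ?_
  by_cases hj : j = i
  · subst hj; simp
  · simp [update_of_ne hj]

lemma A_upd (h : x i = 0) (c : ℤ) : SA (update x i c) = SA x + c * ∑ j, x j := by
  have h1 := two_SA (update x i c)
  rw [S_upd h, sq_upd h] at h1
  have h2 := two_SA x
  nlinarith

lemma C_upd (σ : ι ≃ ι) (h : x i = 0) (c : ℤ) (y : ι → ℤ) :
    CC σ (update x i c) y = CC σ x y + c * y (σ i) := by
  unfold CC
  have := S_upd (x := fun j => x j * y (σ j)) (i := i) (by simp [h]) (c * y (σ i))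
  rw [← this]
  refine sum_congr rfl fun j _ => ?_
  by_cases hj : j = i
  · subst hj; simp
  · simp [update_of_ne hj]

lemma C_upd' (σ : ι ≃ ι) (h : y i = 0) (c : ℤ) (x : ι → ℤ) :
    CC σ x (update y i c) = CC σ x y + c * x (σ.symm i) := by
  rw [← CC_symm, C_upd _ h, CC_symm]

lemma upd_nonneg (hx : ∀ j, 0 ≤ x j) (i : ι) {c : ℤ} (hc : 0 ≤ c) : ∀ j, 0 ≤ update x i c j := by
  intro j
  by_cases hj : j = i
  · subst hj; simpa
  · rw [update_of_ne hj]; exact hx j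

lemma upd_ite (h : y i = 0) (c : ℤ) (j : ι) :
    update y i c j = y j + (if j = i then 1 else 0) * c := by
  by_cases hj : j = i
  · subst hj; simp [h]
  · simp [hj]
end upd

section ineq
variable {x y : ι → ℤ} {σ τ : ι ≃ ι}

lemma S_nn (hx : ∀ j, 0 ≤ x j) : 0 ≤ ∑ j, x j := sum_nonneg fun j _ => hx j

lemma A_nn (hx : ∀ j, 0 ≤ x j) : 0 ≤ SA x := by
  refine sum_nonneg fun S _ => ?_
  split_ifs
  · exact prod_nonneg fun j _ => hx j
  · exact le_rfl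

lemma C_nn (σ : ι ≃ ι) (hx : ∀ j, 0 ≤ x j) (hy : ∀ j, 0 ≤ y j) : 0 ≤ CC σ x y :=
  sum_nonneg fun j _ => mul_nonneg (hx j) (hy _)

lemma hX (x : ι → ℤ) : 2 * SA x ≤ (∑ j, x j) ^ 2 := by
  have := two_SA x
  have h : 0 ≤ ∑ j, x j ^ 2 := sum_nonneg fun j _ => sq_nonneg _
  linarith

lemma loc1 (hy : ∀ j, 0 ≤ y j) {j k : ι} (h : j ≠ k) : y j + y k ≤ ∑ i, y i :=
  add_le_sum (fun i _ => hy i) (mem_univ j) (mem_univ k) h

lemma loc2 (hy : ∀ j, 0 ≤ y j) {j k : ι} (h : j ≠ k) : y j * y k ≤ SA y := by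
  have := single_le_sum (s := (univ : Finset ι).powerset)
    (f := fun S => if S.card = 2 then ∏ i ∈ S, y i else 0)
    (fun S _ => by
      split_ifs
      · exact prod_nonneg fun j _ => hy j
      · exact le_rfl) (mem_powerset.2 (subset_univ {j, k}))
  rw [if_pos (card_pair h), prod_pair h] at this
  exact this

lemma loc3 (y : ι → ℤ) {j k : ι} (h : j ≠ k) :
    y j ^ 2 + y k ^ 2 + 2 * SA y ≤ (∑ i, y i) ^ 2 := by
  have h1 := add_le_sum (f := fun i => y i ^ 2) (fun i _ => sq_nonneg _) (mem_univ j) (mem_univ k) h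
  have := two_SA y
  linarith

lemma hN (hst : ∀ i, σ i ≠ τ i) (hx : ∀ j, 0 ≤ x j) (hy : ∀ j, 0 ≤ y j) :
    CC σ x y + CC τ x y ≤ (∑ j, x j) * ∑ j, y j := by
  unfold CC
  rw [← sum_add_distrib, sum_mul]
  refine sum_le_sum fun i _ => ?_
  rw [← mul_add]
  exact mul_le_mul_of_nonneg_left (loc1 hy (hst i)) (hx i)

lemma hN1 (σ : ι ≃ ι) (hx : ∀ j, 0 ≤ x j) (hy : ∀ j, 0 ≤ y j) :
    CC σ x y ≤ (∑ j, x j) * ∑ j, y j := by
  unfold CC
  rw [sum_mul]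
  exact sum_le_sum fun i _ =>
    mul_le_mul_of_nonneg_left (single_le_sum (fun i _ => hy i) (mem_univ _)) (hx i)

lemma K_id (σ : ι ≃ ι) (x y : ι → ℤ) (a b : ℤ) :
    ∑ i, (a * y (σ i) - b * x i) ^ 2 =
      a ^ 2 * (∑ i, y i ^ 2) + b ^ 2 * (∑ i, x i ^ 2) - 2 * a * b * CC σ x y := by
  unfold CC
  rw [← σ.sum_comp (fun i => y i ^ 2), mul_sum, mul_sum, mul_sum, ← sum_add_distrib,
    ← sum_sub_distrib]
  exact sum_congr rfl fun i _ => by ring

lemma hK2 (σ : ι ≃ ι) (x y : ι → ℤ) (i : ι) :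
    ((∑ j, x j) * y (σ i) - (∑ j, y j) * x i) ^ 2 +
      2 * ((∑ j, x j) * (∑ j, y j) * CC σ x y + SA x * (∑ j, y j) ^ 2 + SA y * (∑ j, x j) ^ 2) ≤
      2 * ((∑ j, x j) ^ 2 * (∑ j, y j) ^ 2) := by
  have h1 := single_le_sum (s := univ)
    (f := fun i => ((∑ j, x j) * y (σ i) - (∑ j, y j) * x i) ^ 2) (fun _ _ => sq_nonneg _)
    (mem_univ i)
  rw [K_id] at h1
  have h2 := two_SA x
  have h3 := two_SA y
  have e2 : ∑ j, x j ^ 2 = (∑ j, x j) ^ 2 - 2 * SA x := by linarith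
  have e3 : ∑ j, y j ^ 2 = (∑ j, y j) ^ 2 - 2 * SA y := by linarith
  rw [e2, e3] at h1
  linarith

lemma hK (σ : ι ≃ ι) (x y : ι → ℤ) :
    (∑ j, x j) * (∑ j, y j) * CC σ x y + SA x * (∑ j, y j) ^ 2 + SA y * (∑ j, x j) ^ 2 ≤
      (∑ j, x j) ^ 2 * (∑ j, y j) ^ 2 := by
  have h1 : 0 ≤ ∑ i, ((∑ j, x j) * y (σ i) - (∑ j, y j) * x i) ^ 2 :=
    sum_nonneg fun _ _ => sq_nonneg _
  rw [K_id] at h1
  have h2 := two_SA x
  have h3 := two_SA y
  have e2 : ∑ j, x j ^ 2 = (∑ j, x j) ^ 2 - 2 * SA x := by linarith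
  have e3 : ∑ j, y j ^ 2 = (∑ j, y j) ^ 2 - 2 * SA y := by linarith
  rw [e2, e3] at h1
  linarith

lemma L_aux {a b A B C : ℤ} (ha : 0 ≤ a) (hb : 0 ≤ b) (hA : 0 ≤ A) (hB : 0 ≤ B) (hC : 0 ≤ C)
    (hX : 2 * A ≤ a ^ 2) (hY : 2 * B ≤ b ^ 2) (hN : C ≤ a * b)
    (hK : a * b * C + A * b ^ 2 + B * a ^ 2 ≤ a ^ 2 * b ^ 2) :
    C * (a + b) + A * b + B * a ≤ a * b * (a + b) := by
  rcases ha.eq_or_lt with rfl | ha'
  · have : C = 0 := by nlinarith
    have : A = 0 := by nlinarith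
    subst_vars; simp
  rcases hb.eq_or_lt with rfl | hb'
  · have : C = 0 := by nlinarith
    have : B = 0 := by nlinarith
    subst_vars; simp
  have hab := mul_pos ha' hb'
  refine le_of_mul_le_mul_left ?_ hab
  nlinarith [mul_le_mul_of_nonneg_right hK (add_nonneg ha hb), mul_nonneg hA (pow_nonneg hb 3),
    mul_nonneg hB (pow_nonneg ha 3)]

lemma hL (σ : ι ≃ ι) (hx : ∀ j, 0 ≤ x j) (hy : ∀ j, 0 ≤ y j) :
    CC σ x y * ((∑ j, x j) + ∑ j, y j) + SA x * (∑ j, y j) + SA y * (∑ j, x j) ≤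
      (∑ j, x j) * (∑ j, y j) * ((∑ j, x j) + ∑ j, y j) :=
  L_aux (S_nn hx) (S_nn hy) (A_nn hx) (A_nn hy) (C_nn σ hx hy) (hX x) (hX y) (hN1 σ hx hy)
    (hK σ x y)

lemma hJ (hst : ∀ i, σ i ≠ τ i) (hx : ∀ j, 0 ≤ x j) (hy : ∀ j, 0 ≤ y j) :
    CC σ x y ^ 2 + CC τ x y ^ 2 ≤ 4 * SA x * SA y +
      ((∑ j, x j) ^ 2 - 2 * SA x) * ((∑ j, y j) ^ 2 - 2 * SA y) := by
  have e1 : CC σ x y ^ 2 + CC τ x y ^ 2 =
      ∑ i, ∑ j, x i * x j * (y (σ i) * y (σ j) + y (τ i) * y (τ j)) := by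
    unfold CC
    rw [sq, sq, sum_mul_sum, sum_mul_sum, ← sum_add_distrib]
    refine sum_congr rfl fun i _ => ?_
    rw [← sum_add_distrib]
    exact sum_congr rfl fun j _ => by ring
  have e2 : ∑ i, ∑ j, x i * x j * (2 * SA y + (if i = j then 1 else 0) *
      ((∑ j, y j) ^ 2 - 4 * SA y)) =
      (∑ j, x j) ^ 2 * (2 * SA y) + (∑ j, x j ^ 2) * ((∑ j, y j) ^ 2 - 4 * SA y) := by
    rw [sq (∑ j, x j), sum_mul_sum, sum_mul, sum_mul, ← sum_add_distrib]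
    refine sum_congr rfl fun i _ => ?_
    simp only [mul_add, sum_add_distrib, sum_mul]
    congr 1
    rw [sum_eq_single i]
    · simp [sq]
    · intro j _ h; simp [h.symm]
    · simp
  have e3 : ∑ i, ∑ j, x i * x j * (y (σ i) * y (σ j) + y (τ i) * y (τ j)) ≤
      ∑ i, ∑ j, x i * x j * (2 * SA y + (if i = j then 1 else 0) *
      ((∑ j, y j) ^ 2 - 4 * SA y)) := by
    refine sum_le_sum fun i _ => sum_le_sum fun j _ =>
      mul_le_mul_of_nonneg_left ?_ (mul_nonneg (hx i) (hx j))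
    by_cases h : i = j
    · subst h
      have := loc3 y (hst i)
      rw [if_pos rfl]; nlinarith
    · have h1 := loc2 hy (σ.injective.ne h)
      have h2 := loc2 hy (τ.injective.ne h)
      rw [if_neg h]; linarith
  have h2 := two_SA x
  have e4 : ∑ j, x j ^ 2 = (∑ j, x j) ^ 2 - 2 * SA x := by linarith
  rw [e2, e4, ← e1] at e3
  nlinarith
end ineq

end Pool.Agent.H.MP_b989b4_co
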