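import Mathlib

namespace Pool.Agent.H.MP_b989b4_co

def PP (t e u v a b A B Cu Cv : ℤ) : ℤ :=
  t*e*(a*b+(a+b)*(u+v)+u*v)+t*(a*b*(u+v)+(a+b)*(u*v))+
  e*(a*b*(u+v)-u*Cu-v*Cv+(a+b)*(u*v)+A*(b+(u+v))+B*(a+(u+v)))+a*b*(u*v)+A*(b*(u+v)+u*v)+B*(a*(u+v)+u*v)

def RR (F : ℤ → ℤ → ℤ) : Prop := F 1 1 * F 0 0 ≤ F 1 0 * F 0 1

lemma RR.of_aff {F : ℤ → ℤ → ℤ} {p00 p10 p01 p11 k : ℤ}
    (h : ∀ i j, F i j = p00 + i * p10 + j * p01 + i * j * p11) (hk : 0 < k)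
    (H : 0 ≤ k * (p10 * p01 - p11 * p00)) : RR F := by
  have := (mul_nonneg_iff_of_pos_left hk).1 H
  unfold RR; rw [h, h, h, h]; nlinarith

lemma RR.iff_aff {F : ℤ → ℤ → ℤ} {p00 p10 p01 p11 : ℤ}
    (h : ∀ i j, F i j = p00 + i * p10 + j * p01 + i * j * p11) :
    RR F ↔ p11 * p00 ≤ p10 * p01 := by
  unfold RR; rw [h, h, h, h]; constructor <;> intro H <;> nlinarith

lemma RR.symm {F : ℤ → ℤ → ℤ} (h : RR F) : RR (fun i j => F j i) := by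
  unfold RR at *; rw [mul_comm (F 0 1)]; exact h

lemma RR.congr {F G : ℤ → ℤ → ℤ} (h : RR F) (e : ∀ i j, G i j = F i j) : RR G := by
  unfold RR at *; rw [e, e, e, e]; exact h

end Pool.Agent.H.MP_b989b4_co
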