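import Pool.Agent.H.MP_b989b4_co.Base
set_option linter.unusedVariables false

namespace Pool.Agent.H.MP_b989b4_co

lemma box_ex_aux (a b A B C : ℤ) (ha : 0 ≤ a) (hb : 0 ≤ b) (hA : 0 ≤ A) (hB : 0 ≤ B) (hC : 0 ≤ C)
    (g1 : 0 ≤ a * b - C) (g2 : 0 ≤ 4 * a - C) (g3 : 0 ≤ 4 * b - C) (g4 : 0 ≤ a * a - a - 2 * A)
    (g5 : 0 ≤ b * b - b - 2 * B) :
    0 ≤ 3*a*a*b*b-3*A*b*b-3*B*a*a+3*A*B+3*B*B+3*B*a*b-2*B*C-2*a*b*C+
      (2*a*b*(a+b)-2*A*b+2*B*b-C*(a+b))+(a*a+b*b+a*b-A-B) := by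
  have hh : (0:ℤ) ≤ 1 := by norm_num
  rcases le_total 4 a with k1 | k1 <;> rcases le_total 4 b with k2 | k2 <;>
    rw [← sub_nonneg] at k1 k2
  · linarith only [(mul_nonneg (sq_nonneg (a-b)) hC), (mul_nonneg g3 g4), (mul_nonneg g4 hC), (mul_nonneg (mul_nonneg g4 hb) hb), (mul_nonneg g2 (sq_nonneg (b-4))), (mul_nonneg g1 hB), (mul_nonneg (mul_nonneg g3 ha) hb), (mul_nonneg g5 (sq_nonneg (a-4))), (mul_nonneg (mul_nonneg k2 (sq_nonneg (a-4))) hb), (mul_nonneg g3 hB), (mul_nonneg (mul_nonneg k2 hC) ha), (mul_nonneg g3 (sq_nonneg (a-4))), (mul_nonneg hB hB), (mul_nonneg (mul_nonneg g5 k1) ha), (mul_nonneg g4 g5), (mul_nonneg (mul_nonneg g3 k1) ha), (mul_nonneg (mul_nonneg g3 ha) ha), (mul_nonneg (sq_nonneg (b-4)) hC), (mul_nonneg (mul_nonneg (sq_nonneg (b-4)) ha) ha), (mul_nonneg g2 g3), (mul_nonneg (mul_nonneg (mul_nonneg k2 ha) ha) hb), (mul_nonneg (mul_nonneg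 hB ha) hb), (sq_nonneg (a*b-2*B)), (mul_nonneg g1 hC), (mul_nonneg g2 g5), (mul_nonneg g4 (sq_nonneg (b-4))), (mul_nonneg (mul_nonneg g3 k1) hb)]
  · linarith only [(mul_nonneg (mul_nonneg g3 k1) hb), (mul_nonneg g3 g4), (mul_nonneg g4 hC), (mul_nonneg (mul_nonneg g4 hb) hb), (mul_nonneg (mul_nonneg k2 (sq_nonneg (a-b))) hb), (mul_nonneg (mul_nonneg (mul_nonneg k1 k2) ha) hb), (mul_nonneg g3 (sq_nonneg (a-4))), (mul_nonneg (mul_nonneg g5 k1) hb), (mul_nonneg g5 g5), (mul_nonneg (mul_nonneg hB hb) hb), (mul_nonneg (mul_nonneg g5 k2) hb), (mul_nonneg (mul_nonneg k1 (sq_nonneg (b-4))) hb), (mul_nonneg g1 g5), (mul_nonneg (mul_nonneg (mul_nonneg k1 hb) hb) hb), (mul_nonneg g4 g5), (mul_nonneg (sq_nonneg (a-b)) hC), (mul_nonneg g3 hB), (mul_nonneg (mul_nonneg g3 ha) hb), (mul_nonneg (sq_nonneg (a-b)) (sq_nonneg (b-4))), (mul_nonneg g2 g3), (mul_nonneg (mul_nonneg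 (sq_nonneg (b-4)) hb) hb), (mul_nonneg hB hB), (mul_nonneg g5 (sq_nonneg (a-b))), (mul_nonneg (mul_nonneg g1 ha) hb), (mul_nonneg g1 hC), (mul_nonneg (mul_nonneg g2 hb) hb), (mul_nonneg g4 (sq_nonneg (b-4))), (mul_nonneg (sq_nonneg (b-4)) hC), (mul_nonneg (mul_nonneg g5 k2) ha), (mul_nonneg (mul_nonneg k2 (sq_nonneg (b-4))) ha), (mul_nonneg g5 (sq_nonneg (a-4)))]
  · linarith only [(mul_nonneg hA hB), (mul_nonneg (mul_nonneg k2 hA) hb), (mul_nonneg (mul_nonneg (mul_nonneg k2 ha) ha) hb), (mul_nonneg (mul_nonneg k2 hA) hh), (mul_nonneg g1 hB), (mul_nonneg (mul_nonneg (mul_nonneg ha ha) hb) hb), (mul_nonneg (mul_nonneg k1 hB) ha), (mul_nonneg (mul_nonneg g5 ha) ha), (mul_nonneg g3 hB), (mul_nonneg (mul_nonneg k2 hB) hh), (mul_nonneg (mul_nonneg (mul_nonneg k1 ha) ha) hb), (mul_nonneg (mul_nonneg k2 hB) ha), (mul_nonneg (mul_nonneg k2 hC) ha), (mul_nonneg (mul_nonneg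 g4 hb) hb), (mul_nonneg (sq_nonneg (a-b)) hC), (mul_nonneg (mul_nonneg g1 ha) ha), (mul_nonneg (mul_nonneg (sq_nonneg (a-4)) ha) hb), (mul_nonneg (mul_nonneg k2 hC) hb), (mul_nonneg (mul_nonneg g2 hb) hb), (mul_nonneg (mul_nonneg g1 ha) hb), (mul_nonneg (mul_nonneg (sq_nonneg (a-4)) ha) ha), (mul_nonneg (mul_nonneg (mul_nonneg k2 ha) ha) ha), (mul_nonneg (mul_nonneg (mul_nonneg k1 ha) ha) ha), (sq_nonneg (a*a-4*B)), (mul_nonneg (mul_nonneg (sq_nonneg (a-4)) hb) hb)]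
  · linarith only [(mul_nonneg g5 (sq_nonneg (b-4))), (mul_nonneg g3 g4), (mul_nonneg g4 hC), (mul_nonneg (mul_nonneg (mul_nonneg k1 ha) ha) hb), (mul_nonneg (mul_nonneg g5 ha) hb), (mul_nonneg g1 hB), (mul_nonneg g2 (sq_nonneg (a-b))), (mul_nonneg g4 g5), (mul_nonneg (mul_nonneg g4 hb) hb), (mul_nonneg g3 hB), (mul_nonneg (mul_nonneg k2 (sq_nonneg (a-4))) hb), (mul_nonneg (mul_nonneg k1 hB) ha), (mul_nonneg hB hB), (mul_nonneg (sq_nonneg (a-b)) (sq_nonneg (b-4))), (mul_nonneg (mul_nonneg k1 (sq_nonneg (a-b))) ha), (mul_nonneg (sq_nonneg (a-4)) hC), (mul_nonneg (mul_nonneg (mul_nonneg ha hb) hb) hb), (mul_nonneg (mul_nonneg g3 ha) ha), (mul_nonneg (mul_nonneg k2 (sq_nonneg (a-b))) hb), (mul_nonneg g2 g3), (mul_nonneg g1 hC), (mul_nonneg g1 (sq_nonneg (b-4))), (mul_nonneg (mul_nonneg (sq_nonneg (a-4)) ha) ha), (mul_nonneg (mul_nonneg g5 k2) ha), (mul_nonneg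 (sq_nonneg (a-b)) hC), (mul_nonneg (mul_nonneg g1 ha) hb), (mul_nonneg (mul_nonneg (sq_nonneg (a-b)) ha) hb), (mul_nonneg (mul_nonneg hB hb) hb), (mul_nonneg g3 g3), (mul_nonneg (mul_nonneg (mul_nonneg k1 k2) ha) hb), (mul_nonneg (mul_nonneg k2 (sq_nonneg (a-4))) ha), (mul_nonneg g5 g5), (mul_nonneg g4 (sq_nonneg (b-4))), (mul_nonneg (mul_nonneg (sq_nonneg (a-4)) ha) hb)]

lemma box_ex (t a b A B Cu Cv y1 y2 : ℤ) (ht : 0 ≤ t) (ha : 0 ≤ a) (hb : 0 ≤ b) (hA : 0 ≤ A)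
    (hB : 0 ≤ B) (hCu : 0 ≤ Cu) (hCv : 0 ≤ Cv) (hy1 : 0 ≤ y1) (hy2 : 0 ≤ y2)
    (g1 : Cu + Cv ≤ a * b) (g2 : Cu + Cv ≤ 4 * a) (g3 : Cu + Cv ≤ 4 * b) (g4 : 2 * A ≤ a * a - a)
    (g5 : 2 * B ≤ b * b - b) :
    RR (fun i j => PP t i 1 1 (a + j) b (A + a * j) B (Cu + j * y1) (Cv + j * y2)) := by
  have h0 := box_ex_aux a b A B (Cu + Cv) ha hb hA hB (by positivity) (by linarith) (by linarith)
    (by linarith) (by linarith) (by linarith)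
  have h1 : 0 ≤ (y1 + y2) * (A + 2 * A * b + B + 2 * B * a + a * b) := by positivity
  have h2 : 0 ≤ t * (2 * B + 6 * B * b + a + a * b + a * b ^ 2 + b + 2 * b ^ 2 +
      (1 + 2 * b) * (a * b - (Cu + Cv))) := by
    have := sub_nonneg.2 g1
    positivity
  have h3 : 0 ≤ t * (y1 + y2) * (a + 2 * a * b + b) := by positivity
  have h4 : 0 ≤ t ^ 2 * (1 + 2 * b + 3 * b ^ 2) := by positivity
  have h5 := add_nonneg (add_nonneg (add_nonneg (add_nonneg h0 h1) h2) h3) h4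
  unfold RR
  refine le_of_sub_nonneg (h5.trans_eq ?_)
  unfold PP; ring

lemma box_te_aux (a r p q dl : ℤ) (hr : 0 ≤ r) (hp : 0 ≤ p) (hq : 0 ≤ q) (h1 : 0 ≤ a - p)
    (h2 : 0 ≤ a + r - q) (h3 : 0 ≤ dl - 2 * r) (h4 : 0 ≤ dl - r - p - q) (h6 : 1 ≤ dl)
    (h7 : 2 * (p + q) - p * q ≤ dl) :
    0 ≤ -3*(a*a+(a+r)*(a+r))+2*a*(a+r)+2*(a+(a+r))+2*dl*(2*a*(a+r)+(a+(a+r)))-
      p*(3*(a+r)*(a+r)+2*(a+r)+1)-q*(3*a*a+2*a+1) := by
  have hh : (0:ℤ) ≤ 1 := by norm_num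
  have ha : 0 ≤ a := by linarith
  have hdl : 0 ≤ dl := by linarith
  rcases le_or_gt 4 dl with h5 | h5
  · rw [← sub_nonneg] at h5
    linarith only [(mul_nonneg (mul_nonneg hdl hh) hp), (mul_nonneg (mul_nonneg h1 ha) hr), (mul_nonneg (mul_nonneg h4 ha) hr), (mul_nonneg (mul_nonneg h4 ha) ha), (mul_nonneg (mul_nonneg h5 ha) hr), (mul_nonneg (mul_nonneg h5 hh) hr), (mul_nonneg (mul_nonneg h4 ha) hh), (mul_nonneg (mul_nonneg ha hq) hr), (mul_nonneg (mul_nonneg h5 ha) ha), (mul_nonneg (mul_nonneg h1 hr) hr), (mul_nonneg (mul_nonneg h5 hh) hp), (mul_nonneg (mul_nonneg h2 hh) hh), (mul_nonneg (mul_nonneg h5 hp) hr), (mul_nonneg (mul_nonneg h1 hdl) hr), (mul_nonneg (mul_nonneg h3 hh) hr), (mul_nonneg (mul_nonneg h1 hdl) hh), (mul_nonneg (mul_nonneg hh hh) hq)]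
  · have hr1 : r ≤ 1 := by omega
    have hp3 : p ≤ 3 := by omega
    have hq3 : q ≤ 3 := by omega
    interval_cases dl <;> interval_cases r <;> interval_cases p <;> interval_cases q <;>
      first | omega | nlinarith [mul_nonneg ha ha, mul_nonneg ha h1, mul_nonneg ha h2]

lemma box_te (a b A B Cu Cv p q dl : ℤ) (hA : 2 * A = a ^ 2 - 2 * a + p)
    (hB : 2 * B = b ^ 2 - 2 * b + q) (hC : Cu + Cv = 2 * (a + b) - dl)
    (hp : 0 ≤ p) (hq : 0 ≤ q) (h1 : p ≤ a) (h2 : q ≤ b) (h3 : 2 * (a - b) ≤ dl)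
    (h3' : 2 * (b - a) ≤ dl) (h4 : a - b + p + q ≤ dl) (h4' : b - a + p + q ≤ dl) (h6 : 1 ≤ dl)
    (h7 : 2 * (p + q) - p * q ≤ dl) :
    RR (fun i j => PP i j 1 1 a b A B Cu Cv) := by
  have key : 0 ≤ -3*(a*a+b*b)+2*a*b+2*(a+b)+2*dl*(2*a*b+(a+b))-
      p*(3*b*b+2*b+1)-q*(3*a*a+2*a+1) := by
    rcases le_total a b with h | h
    · have := box_te_aux a (b - a) p q dl (by linarith) hp hq (by linarith) (by linarith)
        (by linarith) (by linarith) h6 h7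
      exact this.trans_eq (by ring)
    · have := box_te_aux b (a - b) q p dl (by linarith) hq hp (by linarith) (by linarith)
        (by linarith) (by linarith) h6 (by linarith)
      exact this.trans_eq (by ring)
  have e1 : p = 2 * A - a ^ 2 + 2 * a := by linarith
  have e2 : q = 2 * B - b ^ 2 + 2 * b := by linarith
  have e3 : dl = 2 * (a + b) - Cu - Cv := by linarith
  rw [e1, e2, e3] at key
  unfold RR
  refine le_of_sub_nonneg ((mul_nonneg_iff_of_pos_left (c := 2) (by norm_num)).1 (key.trans_eq ?_))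
  unfold PP; ring

end Pool.Agent.H.MP_b989b4_co
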