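import Pool.Agent.H.MP_b989b4_co.Base
set_option linter.unusedVariables false

namespace Pool.Agent.H.MP_b989b4_co

lemma r_tu (e v a b A B Cu Cv : ℤ)
    (he : 0 ≤ e)    (hv : 0 ≤ v)    (ha : 0 ≤ a)    (hb : 0 ≤ b)    (hA : 0 ≤ A)    (hB : 0 ≤ B)    (hCu : 0 ≤ Cu)    (hCv : 0 ≤ Cv)
    (hX : 2 * A ≤ a ^ 2)
    (hY : 2 * B ≤ b ^ 2)
    (hKu : a * b * Cu + A * b ^ 2 + B * a ^ 2 ≤ a ^ 2 * b ^ 2)
    (hLu : Cu * (a + b) + A * b + B * a ≤ a * b * (a + b))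
    : RR (fun i j => (PP (i) (e) (j) (v) (a) (b) (A) (B) (Cu) (Cv))) := by
  have g0 : 0 ≤ (- A*b^2 - B*a^2 - Cu*a*b + Cv*a*b + a^2*b^2) := by
    linarith only [(sub_nonneg.2 hKu), (mul_nonneg (mul_nonneg hCv ha) hb)]
  have g1 : 0 ≤ (- A*b - B*a + Cv*a + Cv*b + a*b^2 + a^2*b) := by
    linarith only [(mul_nonneg (sub_nonneg.2 hX) hb), (mul_nonneg (sub_nonneg.2 hY) ha), (mul_nonneg hCv ha), (mul_nonneg hCv hb), (mul_nonneg (mul_nonneg ha hb) hb), (mul_nonneg (mul_nonneg ha ha) hb)]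
  have g2 : 0 ≤ (- A*b^2 - B*a^2 - Cu*a*b + a^2*b^2) := by
    linarith only [(sub_nonneg.2 hKu)]
  have g3 : 0 ≤ (- A*b - B*a - Cu*a - Cu*b + Cv*a + Cv*b + a*b^2 + a^2*b) := by
    linarith only [(sub_nonneg.2 hLu), (mul_nonneg hCv ha), (mul_nonneg hCv hb)]
  have g4 : 0 ≤ (- A - B + Cv + a*b + a^2 + b^2) := by
    linarith only [(sub_nonneg.2 hX), (sub_nonneg.2 hY), hCv, (mul_nonneg ha hb), (mul_nonneg ha ha), (mul_nonneg hb hb)]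
  have g5 : 0 ≤ (- A*b^2 - B*a^2 + a^2*b^2) := by
    linarith only [(mul_nonneg (mul_nonneg (sub_nonneg.2 hX) hb) hb), (mul_nonneg (mul_nonneg (sub_nonneg.2 hY) ha) ha)]
  have pos := (Int.add_nonneg (Int.add_nonneg (Int.add_nonneg (Int.add_nonneg (Int.add_nonneg (Int.mul_nonneg (by positivity : (0:ℤ) ≤ (e*v)) g0)
      (Int.mul_nonneg (by positivity : (0:ℤ) ≤ (e*v^2)) g1))
      (Int.mul_nonneg (by positivity : (0:ℤ) ≤ (e^2)) g2))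
      (Int.mul_nonneg (by positivity : (0:ℤ) ≤ (e^2*v)) g3))
      (Int.mul_nonneg (by positivity : (0:ℤ) ≤ (e^2*v^2)) g4))
      (Int.mul_nonneg (by positivity : (0:ℤ) ≤ (v^2)) g5))
  have key : (0:ℤ) ≤ 1 * ((a*b*e + a*b*v + a*e*v + b*e*v) * (A*b + A*e + A*v + B*a + B*e + B*v - Cu*e + a*b*e + a*b*v + a*e*v + b*e*v) - (a*b + a*e + a*v + b*e + b*v + e*v) * (A*b*e + A*b*v + A*e*v + B*a*e + B*a*v + B*e*v - Cv*e*v + a*b*e*v)) := pos.trans_eq (by ring)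
  exact RR.of_aff (fun i j => by unfold PP; ring) (by norm_num) key

lemma r_eu (t v a b A B Cu Cv : ℤ)
    (ht : 0 ≤ t)    (hv : 0 ≤ v)    (ha : 0 ≤ a)    (hb : 0 ≤ b)    (hA : 0 ≤ A)    (hB : 0 ≤ B)    (hCu : 0 ≤ Cu)    (hCv : 0 ≤ Cv)
    (hN : Cu + Cv ≤ a * b)
    (hKv : a * b * Cv + A * b ^ 2 + B * a ^ 2 ≤ a ^ 2 * b ^ 2)
    : RR (fun i j => (PP (t) (i) (j) (v) (a) (b) (A) (B) (Cu) (Cv))) := by
  have g0 : (0:ℤ) ≤ (2*A*B*a*b + A^2*b^2 + B^2*a^2) := by positivity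
  have g1 : (0:ℤ) ≤ (2*A*a*b^2 + 2*B*a^2*b) := by positivity
  have g2 : 0 ≤ (2*A*a*b + A*b^2 + 2*B*a*b + B*a^2 + Cu*a*b - Cv*a*b + a^2*b^2) := by
    linarith only [(mul_nonneg (mul_nonneg hA ha) hb), (mul_nonneg (mul_nonneg hA hb) hb), (mul_nonneg (mul_nonneg hB ha) hb), (mul_nonneg (mul_nonneg hB ha) ha), (mul_nonneg (mul_nonneg hCu ha) hb), (mul_nonneg (mul_nonneg (sub_nonneg.2 hN) ha) hb)]
  have g3 : 0 ≤ (2*A*a + A*b + B*a + 2*B*b - Cv*a - Cv*b + a*b^2 + a^2*b) := by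
    linarith only [(mul_nonneg hA ha), (mul_nonneg hA hb), (mul_nonneg hB ha), (mul_nonneg hB hb), (mul_nonneg hCu ha), (mul_nonneg hCu hb), (mul_nonneg (sub_nonneg.2 hN) ha), (mul_nonneg (sub_nonneg.2 hN) hb)]
  have g4 : (0:ℤ) ≤ (a^2*b^2) := by positivity
  have g5 : (0:ℤ) ≤ (a*b^2 + a^2*b) := by positivity
  have g6 : (0:ℤ) ≤ (a*b + a^2 + b^2) := by positivity
  have g7 : 0 ≤ (A*B*a + A*B*b + A*Cu*b - A*Cv*b + A*a*b^2 + A^2*b + B*Cu*a - B*Cv*a + B*a^2*b + B^2*a) := by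
    linarith only [(mul_nonneg (mul_nonneg hA hB) ha), (mul_nonneg (mul_nonneg hA hB) hb), (mul_nonneg (mul_nonneg hA hCu) hb), (mul_nonneg (mul_nonneg (sub_nonneg.2 hN) hA) hb), (mul_nonneg (mul_nonneg hA hA) hb), (mul_nonneg (mul_nonneg hB hCu) ha), (mul_nonneg (mul_nonneg (sub_nonneg.2 hN) hB) ha), (mul_nonneg (mul_nonneg hB hB) ha)]
  have g8 : 0 ≤ (2*A*B - A*Cv + A*a*b - A*b^2 + A^2 - B*Cv + B*a*b - B*a^2 + B^2 - Cv*a*b + a^2*b^2) := by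
    linarith only [(mul_nonneg hA hB), (mul_nonneg hA hCu), (mul_nonneg (sub_nonneg.2 hN) hA), (sub_nonneg.2 hKv), (mul_nonneg hA hA), (mul_nonneg hB hCu), (mul_nonneg (sub_nonneg.2 hN) hB), (mul_nonneg hB hB)]
  have pos := (Int.add_nonneg (Int.add_nonneg (Int.add_nonneg (Int.add_nonneg (Int.add_nonneg (Int.add_nonneg (Int.add_nonneg (Int.add_nonneg (Int.mul_nonneg (by positivity : (0:ℤ) ≤ (1)) g0)
      (Int.mul_nonneg (by positivity : (0:ℤ) ≤ (t)) g1))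
      (Int.mul_nonneg (by positivity : (0:ℤ) ≤ (t*v)) g2))
      (Int.mul_nonneg (by positivity : (0:ℤ) ≤ (t*v^2)) g3))
      (Int.mul_nonneg (by positivity : (0:ℤ) ≤ (t^2)) g4))
      (Int.mul_nonneg (by positivity : (0:ℤ) ≤ (t^2*v)) g5))
      (Int.mul_nonneg (by positivity : (0:ℤ) ≤ (t^2*v^2)) g6))
      (Int.mul_nonneg (by positivity : (0:ℤ) ≤ (v)) g7))
      (Int.mul_nonneg (by positivity : (0:ℤ) ≤ (v^2)) g8))
  have key : (0:ℤ) ≤ 1 * ((A*b + A*v + B*a + B*v - Cv*v + a*b*t + a*b*v + a*t*v + b*t*v) * (A*b + A*v + B*a + B*v + a*b*t + a*b*v + a*t*v + b*t*v) - (A + B - Cu + a*b + a*t + a*v + b*t + b*v + t*v) * (A*b*v + B*a*v + a*b*t*v)) := pos.trans_eq (by ring)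
  exact RR.of_aff (fun i j => by unfold PP; ring) (by norm_num) key

lemma r_uv (t e a b A B Cu Cv : ℤ)
    (ht : 0 ≤ t)    (he : 0 ≤ e)    (ha : 0 ≤ a)    (hb : 0 ≤ b)    (hA : 0 ≤ A)    (hB : 0 ≤ B)    (hCu : 0 ≤ Cu)    (hCv : 0 ≤ Cv)
    (hN : Cu + Cv ≤ a * b)
    (hJ : Cu ^ 2 + Cv ^ 2 ≤ 4 * A * B + (a ^ 2 - 2 * A) * (b ^ 2 - 2 * B))
    : RR (fun i j => (PP (t) (e) (i) (j) (a) (b) (A) (B) (Cu) (Cv))) := by
  have g0 : (0:ℤ) ≤ (2*A*B*a*b + A^2*b^2 + B^2*a^2) := by positivity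
  have g1 : 0 ≤ (A*B*a + A*B*b - A*Cu*b - A*Cv*b + A*a*b^2 + A^2*b - B*Cu*a - B*Cv*a + B*a^2*b + B^2*a) := by
    linarith only [(mul_nonneg (mul_nonneg hA hB) ha), (mul_nonneg (mul_nonneg hA hB) hb), (mul_nonneg (mul_nonneg (sub_nonneg.2 hN) hA) hb), (mul_nonneg (mul_nonneg hA hA) hb), (mul_nonneg (mul_nonneg (sub_nonneg.2 hN) hB) ha), (mul_nonneg (mul_nonneg hB hB) ha)]
  have g2 : 0 ≤ (2*A*a*b + A*b^2 + 2*B*a*b + B*a^2 - Cu*a*b - Cv*a*b + a^2*b^2) := by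
    linarith only [(mul_nonneg (mul_nonneg hA ha) hb), (mul_nonneg (mul_nonneg hA hb) hb), (mul_nonneg (mul_nonneg hB ha) hb), (mul_nonneg (mul_nonneg hB ha) ha), (mul_nonneg (mul_nonneg (sub_nonneg.2 hN) ha) hb)]
  have g3 : (0:ℤ) ≤ (a*b^2 + a^2*b) := by positivity
  have g4 : 0 ≤ (2*A*B - A*Cu - A*Cv + A*a*b - A*b^2 + A^2 - B*Cu - B*Cv + B*a*b - B*a^2 + B^2 + Cu*Cv - Cu*a*b - Cv*a*b + a^2*b^2) := by
    linarith only [(sub_nonneg.2 hJ), (mul_nonneg (sub_nonneg.2 hN) hA), (sq_nonneg (A - B)), (mul_nonneg (sub_nonneg.2 hN) hB), (sq_nonneg (- Cu - Cv + a*b))]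
  have g5 : 0 ≤ (2*A*a + A*b + B*a + 2*B*b - Cu*a - Cu*b - Cv*a - Cv*b + a*b^2 + a^2*b) := by
    linarith only [(mul_nonneg hA ha), (mul_nonneg hA hb), (mul_nonneg hB ha), (mul_nonneg hB hb), (mul_nonneg (sub_nonneg.2 hN) ha), (mul_nonneg (sub_nonneg.2 hN) hb)]
  have g6 : (0:ℤ) ≤ (a*b + a^2 + b^2) := by positivity
  have g7 : (0:ℤ) ≤ (2*A*a*b^2 + 2*B*a^2*b) := by positivity
  have g8 : (0:ℤ) ≤ (a^2*b^2) := by positivity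
  have pos := (Int.add_nonneg (Int.add_nonneg (Int.add_nonneg (Int.add_nonneg (Int.add_nonneg (Int.add_nonneg (Int.add_nonneg (Int.add_nonneg (Int.mul_nonneg (by positivity : (0:ℤ) ≤ (1)) g0)
      (Int.mul_nonneg (by positivity : (0:ℤ) ≤ (e)) g1))
      (Int.mul_nonneg (by positivity : (0:ℤ) ≤ (e*t)) g2))
      (Int.mul_nonneg (by positivity : (0:ℤ) ≤ (e*t^2)) g3))
      (Int.mul_nonneg (by positivity : (0:ℤ) ≤ (e^2)) g4))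
      (Int.mul_nonneg (by positivity : (0:ℤ) ≤ (e^2*t)) g5))
      (Int.mul_nonneg (by positivity : (0:ℤ) ≤ (e^2*t^2)) g6))
      (Int.mul_nonneg (by positivity : (0:ℤ) ≤ (t)) g7))
      (Int.mul_nonneg (by positivity : (0:ℤ) ≤ (t^2)) g8))
  have key : (0:ℤ) ≤ 1 * ((A*b + A*e + B*a + B*e - Cu*e + a*b*e + a*b*t + a*e*t + b*e*t) * (A*b + A*e + B*a + B*e - Cv*e + a*b*e + a*b*t + a*e*t + b*e*t) - (A + B + a*b + a*e + a*t + b*e + b*t + e*t) * (A*b*e + B*a*e + a*b*e*t)) := pos.trans_eq (by ring)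
  exact RR.of_aff (fun i j => by unfold PP; ring) (by norm_num) key

lemma r_te0 (v a b A B Cu Cv : ℤ)
    (hv : 0 ≤ v)    (ha : 0 ≤ a)    (hb : 0 ≤ b)    (hA : 0 ≤ A)    (hB : 0 ≤ B)    (hCu : 0 ≤ Cu)    (hCv : 0 ≤ Cv)
    (hKv : a * b * Cv + A * b ^ 2 + B * a ^ 2 ≤ a ^ 2 * b ^ 2)
    : RR (fun i j => (PP (i) (j) (0) (v) (a) (b) (A) (B) (Cu) (Cv))) := by
  have g0 : 0 ≤ (- A*b^2 - B*a^2 - Cv*a*b + a^2*b^2) := by
    linarith only [(sub_nonneg.2 hKv)]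
  have pos := (Int.mul_nonneg (by positivity : (0:ℤ) ≤ (v^2)) g0)
  have key : (0:ℤ) ≤ 1 * ((a*b*v) * (A*b + A*v + B*a + B*v - Cv*v + a*b*v) - (a*b + a*v + b*v) * (A*b*v + B*a*v)) := pos.trans_eq (by ring)
  exact RR.of_aff (fun i j => by unfold PP; ring) (by norm_num) key

lemma r_te_u (v a b A B Cu Cv : ℤ)
    (hv : 0 ≤ v)    (ha : 0 ≤ a)    (hb : 0 ≤ b)    (hA : 0 ≤ A)    (hB : 0 ≤ B)    (hCu : 0 ≤ Cu)    (hCv : 0 ≤ Cv)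
    (hX : 2 * A ≤ a ^ 2)
    (hY : 2 * B ≤ b ^ 2)
    (hKu : a * b * Cu + A * b ^ 2 + B * a ^ 2 ≤ a ^ 2 * b ^ 2)
    (hLu : Cu * (a + b) + A * b + B * a ≤ a * b * (a + b))
    : RR (fun i j => ((PP (i) (j) (1) (v) (a) (b) (A) (B) (Cu) (Cv)) - (PP (i) (j) (0) (v) (a) (b) (A) (B) (Cu) (Cv)))) := by
  have g0 : 0 ≤ (- A*b^2 - B*a^2 - Cu*a*b + a^2*b^2) := by
    linarith only [(sub_nonneg.2 hKu)]
  have g1 : 0 ≤ (- A*b - B*a - Cu*a - Cu*b + a*b^2 + a^2*b) := by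
    linarith only [(sub_nonneg.2 hLu)]
  have g2 : 0 ≤ (- A - B + a*b + a^2 + b^2) := by
    linarith only [(sub_nonneg.2 hX), (sub_nonneg.2 hY), (mul_nonneg ha hb), (mul_nonneg ha ha), (mul_nonneg hb hb)]
  have pos := (Int.add_nonneg (Int.add_nonneg (Int.mul_nonneg (by positivity : (0:ℤ) ≤ (1)) g0)
      (Int.mul_nonneg (by positivity : (0:ℤ) ≤ (v)) g1))
      (Int.mul_nonneg (by positivity : (0:ℤ) ≤ (v^2)) g2))
  have key : (0:ℤ) ≤ 1 * ((a*b + a*v + b*v) * (A + B - Cu + a*b + a*v + b*v) - (a + b + v) * (A*b + A*v + B*a + B*v + a*b*v)) := pos.trans_eq (by ring)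
  exact RR.of_aff (fun i j => by unfold PP; ring) (by norm_num) key

lemma r_te_x (u v a b A B Cu Cv y1 y2 : ℤ)
    (hu : 0 ≤ u)    (hv : 0 ≤ v)    (ha : 0 ≤ a)    (hb : 0 ≤ b)    (hA : 0 ≤ A)    (hB : 0 ≤ B)    (hCu : 0 ≤ Cu)    (hCv : 0 ≤ Cv)    (hy1 : 0 ≤ y1)    (hy2 : 0 ≤ y2)
    (ly1 : y1 + y2 ≤ b)
    (ly2 : y1 * y2 ≤ B)
    (ly3 : y1 ^ 2 + y2 ^ 2 + 2 * B ≤ b ^ 2)
    : RR (fun i j => ((PP (i) (j) (u) (v) (1 + a) (b) (A + a) (B) (Cu + y1) (Cv + y2)) - (PP (i) (j) (u) (v) (a) (b) (A) (B) (Cu) (Cv)))) := by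
  have g0 : 0 ≤ (- 2*B - 2*b*y1 - 2*b*y2 + 2*b^2 + 2*y1*y2) := by
    linarith only [(sub_nonneg.2 ly3), (sq_nonneg (b - y1 - y2))]
  have g1 : 0 ≤ (2*b - 2*y2) := by
    linarith only [(sub_nonneg.2 ly1), hy1]
  have g2 : 0 ≤ (- 2*B - 2*b*y1 + 2*b^2 - y2^2) := by
    linarith only [(sub_nonneg.2 ly3), (sq_nonneg (b - y1))]
  have g3 : 0 ≤ (2*b - 2*y1) := by
    linarith only [(sub_nonneg.2 ly1), hy2]
  have g4 : (0:ℤ) ≤ (2) := by positivity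
  have g5 : 0 ≤ (- 2*B - 2*b*y2 + 2*b^2 - y1^2) := by
    linarith only [(sub_nonneg.2 ly3), (sq_nonneg (b - y2))]
  have pos := (Int.add_nonneg (Int.add_nonneg (Int.add_nonneg (Int.add_nonneg (Int.add_nonneg (Int.add_nonneg (Int.mul_nonneg (by norm_num : (0:ℤ) ≤ 1) (sq_nonneg (u*y2 - v*y1)))
      (Int.mul_nonneg (by positivity : (0:ℤ) ≤ (u*v)) g0))
      (Int.mul_nonneg (by positivity : (0:ℤ) ≤ (u*v^2)) g1))
      (Int.mul_nonneg (by positivity : (0:ℤ) ≤ (u^2)) g2))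
      (Int.mul_nonneg (by positivity : (0:ℤ) ≤ (u^2*v)) g3))
      (Int.mul_nonneg (by positivity : (0:ℤ) ≤ (u^2*v^2)) g4))
      (Int.mul_nonneg (by positivity : (0:ℤ) ≤ (v^2)) g5))
  have key : (0:ℤ) ≤ 2 * ((b*u + b*v + u*v) * (B + a*b + a*u + a*v + b*u + b*v + u*v - u*y1 - v*y2) - (b + u + v) * (B*u + B*v + a*b*u + a*b*v + a*u*v + b*u*v)) := pos.trans_eq (by ring)
  exact RR.of_aff (fun i j => by unfold PP; ring) (by norm_num) key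

lemma r_ex_t (u v a b A B Cu Cv y1 y2 : ℤ)
    (hu : 0 ≤ u)    (hv : 0 ≤ v)    (ha : 0 ≤ a)    (hb : 0 ≤ b)    (hA : 0 ≤ A)    (hB : 0 ≤ B)    (hCu : 0 ≤ Cu)    (hCv : 0 ≤ Cv)    (hy1 : 0 ≤ y1)    (hy2 : 0 ≤ y2)
    : RR (fun i j => ((PP (1) (i) (u) (v) (a + j) (b) (A + a*j) (B) (Cu + j*y1) (Cv + j*y2)) - (PP (0) (i) (u) (v) (a + j) (b) (A + a*j) (B) (Cu + j*y1) (Cv + j*y2)))) := by
  have g0 : (0:ℤ) ≤ (b^2) := by positivity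
  have g1 : (0:ℤ) ≤ (b) := by positivity
  have g2 : (0:ℤ) ≤ (1) := by positivity
  have pos := (Int.add_nonneg (Int.add_nonneg (Int.add_nonneg (Int.add_nonneg (Int.add_nonneg (Int.mul_nonneg (by positivity : (0:ℤ) ≤ (u*v)) g0)
      (Int.mul_nonneg (by positivity : (0:ℤ) ≤ (u*v^2)) g1))
      (Int.mul_nonneg (by positivity : (0:ℤ) ≤ (u^2)) g0))
      (Int.mul_nonneg (by positivity : (0:ℤ) ≤ (u^2*v)) g1))
      (Int.mul_nonneg (by positivity : (0:ℤ) ≤ (u^2*v^2)) g2))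
      (Int.mul_nonneg (by positivity : (0:ℤ) ≤ (v^2)) g0))
  have key : (0:ℤ) ≤ 1 * ((a*b + a*u + a*v + b*u + b*v + u*v) * (b*u + b*v + u*v) - (b + u + v) * (a*b*u + a*b*v + a*u*v + b*u*v)) := pos.trans_eq (by ring)
  exact RR.of_aff (fun i j => by unfold PP; ring) (by norm_num) key

lemma r_ex_u (t v a b A B Cu Cv y1 y2 : ℤ)
    (ht : 0 ≤ t)    (hv : 0 ≤ v)    (ha : 0 ≤ a)    (hb : 0 ≤ b)    (hA : 0 ≤ A)    (hB : 0 ≤ B)    (hCu : 0 ≤ Cu)    (hCv : 0 ≤ Cv)    (hy1 : 0 ≤ y1)    (hy2 : 0 ≤ y2)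
    (hX : 2 * A ≤ a ^ 2)
    (hY : 2 * B ≤ b ^ 2)
    (hN : Cu + Cv ≤ a * b)
    (hKu : a * b * Cu + A * b ^ 2 + B * a ^ 2 ≤ a ^ 2 * b ^ 2)
    (hLu : Cu * (a + b) + A * b + B * a ≤ a * b * (a + b))
    : RR (fun i j => ((PP (t) (i) (1) (v) (a + j) (b) (A + a*j) (B) (Cu + j*y1) (Cv + j*y2)) - (PP (t) (i) (0) (v) (a + j) (b) (A + a*j) (B) (Cu + j*y1) (Cv + j*y2)))) := by
  have g0 : 0 ≤ (A*B + A*b*y1 - A*b^2 - B*Cu + B*a*b + B*a*y1 - B*a^2 + B^2 - Cu*a*b + a^2*b^2) := by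
    linarith only [(mul_nonneg hA hB), (mul_nonneg (mul_nonneg hA hb) hy1), (sub_nonneg.2 hKu), (mul_nonneg (sub_nonneg.2 hN) hB), (mul_nonneg hB hCv), (mul_nonneg (mul_nonneg hB ha) hy1), (mul_nonneg hB hB)]
  have g1 : 0 ≤ (2*B*b - Cu*b + a*b*y1 + a*b^2) := by
    linarith only [(mul_nonneg hB hb), (mul_nonneg (sub_nonneg.2 hN) hb), (mul_nonneg hCv hb), (mul_nonneg (mul_nonneg ha hb) hy1)]
  have g2 : 0 ≤ (B - Cu + a*b + a*y1 + b*y1 + b^2) := by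
    linarith only [hB, (sub_nonneg.2 hN), hCv, (mul_nonneg ha hy1), (mul_nonneg hb hy1), (mul_nonneg hb hb)]
  have g3 : (0:ℤ) ≤ (a + b) := by positivity
  have g4 : (0:ℤ) ≤ (b^2) := by positivity
  have g5 : (0:ℤ) ≤ (b) := by positivity
  have g6 : (0:ℤ) ≤ (1) := by positivity
  have g7 : 0 ≤ (- A*b + A*y1 + B*b + B*y1 - Cu*a - Cu*b + a*b*y1 + a*b^2 + a^2*b) := by
    linarith only [(sub_nonneg.2 hLu), (mul_nonneg hA hy1), (mul_nonneg hB ha), (mul_nonneg hB hb), (mul_nonneg hB hy1), (mul_nonneg (mul_nonneg ha hb) hy1)]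
  have g8 : 0 ≤ (- A - B + a*b + a^2 + b^2) := by
    linarith only [(sub_nonneg.2 hX), (sub_nonneg.2 hY), (mul_nonneg ha hb), (mul_nonneg ha ha), (mul_nonneg hb hb)]
  have pos := (Int.add_nonneg (Int.add_nonneg (Int.add_nonneg (Int.add_nonneg (Int.add_nonneg (Int.add_nonneg (Int.add_nonneg (Int.add_nonneg (Int.mul_nonneg (by positivity : (0:ℤ) ≤ (1)) g0)
      (Int.mul_nonneg (by positivity : (0:ℤ) ≤ (t)) g1))
      (Int.mul_nonneg (by positivity : (0:ℤ) ≤ (t*v)) g2))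
      (Int.mul_nonneg (by positivity : (0:ℤ) ≤ (t*v^2)) g3))
      (Int.mul_nonneg (by positivity : (0:ℤ) ≤ (t^2)) g4))
      (Int.mul_nonneg (by positivity : (0:ℤ) ≤ (t^2*v)) g5))
      (Int.mul_nonneg (by positivity : (0:ℤ) ≤ (t^2*v^2)) g6))
      (Int.mul_nonneg (by positivity : (0:ℤ) ≤ (v)) g7))
      (Int.mul_nonneg (by positivity : (0:ℤ) ≤ (v^2)) g8))
  have key : (0:ℤ) ≤ 1 * ((A + B - Cu + a*b + a*t + a*v + b*t + b*v + t*v) * (B + a*b + a*v + b*t + b*v + t*v) - (a + b + t + v - y1) * (A*b + A*v + B*a + B*v + a*b*t + a*b*v + a*t*v + b*t*v)) := pos.trans_eq (by ring)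
  exact RR.of_aff (fun i j => by unfold PP; ring) (by norm_num) key

lemma r_ex0 (t v a b A B Cu Cv y1 y2 : ℤ)
    (ht : 0 ≤ t)    (hv : 0 ≤ v)    (ha : 0 ≤ a)    (hb : 0 ≤ b)    (hA : 0 ≤ A)    (hB : 0 ≤ B)    (hCu : 0 ≤ Cu)    (hCv : 0 ≤ Cv)    (hy1 : 0 ≤ y1)    (hy2 : 0 ≤ y2)
    (hN : Cu + Cv ≤ a * b)
    (hKv : a * b * Cv + A * b ^ 2 + B * a ^ 2 ≤ a ^ 2 * b ^ 2)
    : RR (fun i j => (PP (t) (i) (0) (v) (a + j) (b) (A + a*j) (B) (Cu + j*y1) (Cv + j*y2))) := by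
  have g0 : 0 ≤ (2*B*b - Cv*b + a*b*y2 + a*b^2) := by
    linarith only [(mul_nonneg hB hb), (mul_nonneg hCu hb), (mul_nonneg (sub_nonneg.2 hN) hb), (mul_nonneg (mul_nonneg ha hb) hy2)]
  have g1 : (0:ℤ) ≤ (b^2) := by positivity
  have g2 : 0 ≤ (A*B + A*b*y2 - A*b^2 - B*Cv + B*a*b + B*a*y2 - B*a^2 + B^2 - Cv*a*b + a^2*b^2) := by
    linarith only [(mul_nonneg hA hB), (mul_nonneg (mul_nonneg hA hb) hy2), (sub_nonneg.2 hKv), (mul_nonneg hB hCu), (mul_nonneg (sub_nonneg.2 hN) hB), (mul_nonneg (mul_nonneg hB ha) hy2), (mul_nonneg hB hB)]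
  have pos := (Int.add_nonneg (Int.add_nonneg (Int.mul_nonneg (by positivity : (0:ℤ) ≤ (t*v^2)) g0)
      (Int.mul_nonneg (by positivity : (0:ℤ) ≤ (t^2*v^2)) g1))
      (Int.mul_nonneg (by positivity : (0:ℤ) ≤ (v^2)) g2))
  have key : (0:ℤ) ≤ 1 * ((A*b + A*v + B*a + B*v - Cv*v + a*b*t + a*b*v + a*t*v + b*t*v) * (B*v + a*b*v + b*t*v) - (B + a*b + a*v + b*t + b*v + t*v - v*y2) * (A*b*v + B*a*v + a*b*t*v)) := pos.trans_eq (by ring)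
  exact RR.of_aff (fun i j => by unfold PP; ring) (by norm_num) key

lemma r_ex_x (t u v a b A B Cu Cv y1 y2 z1 z2 : ℤ)
    (ht : 0 ≤ t)    (hu : 0 ≤ u)    (hv : 0 ≤ v)    (ha : 0 ≤ a)    (hb : 0 ≤ b)    (hA : 0 ≤ A)    (hB : 0 ≤ B)    (hCu : 0 ≤ Cu)    (hCv : 0 ≤ Cv)    (hy1 : 0 ≤ y1)    (hy2 : 0 ≤ y2)    (hz1 : 0 ≤ z1)    (hz2 : 0 ≤ z2)
    (lz1 : z1 + z2 ≤ b)
    (lz2 : z1 * z2 ≤ B)
    (lz3 : z1 ^ 2 + z2 ^ 2 + 2 * B ≤ b ^ 2)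
    : RR (fun i j => ((PP (t) (i) (u) (v) (1 + a + j) (b) (A + a + a*j + j) (B) (Cu + j*y1 + z1) (Cv + j*y2 + z2)) - (PP (t) (i) (u) (v) (a + j) (b) (A + a*j) (B) (Cu + j*y1) (Cv + j*y2)))) := by
  have g0 : 0 ≤ (- 2*B - 2*b*z1 - 2*b*z2 + 2*b^2 + 2*z1*z2) := by
    linarith only [(sub_nonneg.2 lz3), (sq_nonneg (b - z1 - z2))]
  have g1 : 0 ≤ (2*b - 2*z2) := by
    linarith only [(sub_nonneg.2 lz1), hz1]
  have g2 : 0 ≤ (- 2*B - 2*b*z1 + 2*b^2 - z2^2) := by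
    linarith only [(sub_nonneg.2 lz3), (sq_nonneg (b - z1))]
  have g3 : 0 ≤ (2*b - 2*z1) := by
    linarith only [(sub_nonneg.2 lz1), hz2]
  have g4 : (0:ℤ) ≤ (2) := by positivity
  have g5 : 0 ≤ (- 2*B - 2*b*z2 + 2*b^2 - z1^2) := by
    linarith only [(sub_nonneg.2 lz3), (sq_nonneg (b - z2))]
  have pos := (Int.add_nonneg (Int.add_nonneg (Int.add_nonneg (Int.add_nonneg (Int.add_nonneg (Int.add_nonneg (Int.mul_nonneg (by norm_num : (0:ℤ) ≤ 1) (sq_nonneg (u*z2 - v*z1)))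
      (Int.mul_nonneg (by positivity : (0:ℤ) ≤ (u*v)) g0))
      (Int.mul_nonneg (by positivity : (0:ℤ) ≤ (u*v^2)) g1))
      (Int.mul_nonneg (by positivity : (0:ℤ) ≤ (u^2)) g2))
      (Int.mul_nonneg (by positivity : (0:ℤ) ≤ (u^2*v)) g3))
      (Int.mul_nonneg (by positivity : (0:ℤ) ≤ (u^2*v^2)) g4))
      (Int.mul_nonneg (by positivity : (0:ℤ) ≤ (v^2)) g5))
  have key : (0:ℤ) ≤ 2 * ((B + a*b + a*u + a*v + b*t + b*u + b*v + t*u + t*v + u*v - u*z1 - v*z2) * (b*u + b*v + u*v) - (b + u + v) * (B*u + B*v + a*b*u + a*b*v + a*u*v + b*t*u + b*t*v + b*u*v + t*u*v)) := pos.trans_eq (by ring)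
  exact RR.of_aff (fun i j => by unfold PP; ring) (by norm_num) key

lemma r_ex_y (t u v a b A B Cu Cv y1 y2 z1 z2 du dv : ℤ)
    (ht : 0 ≤ t)    (hu : 0 ≤ u)    (hv : 0 ≤ v)    (ha : 0 ≤ a)    (hb : 0 ≤ b)    (hA : 0 ≤ A)    (hB : 0 ≤ B)    (hCu : 0 ≤ Cu)    (hCv : 0 ≤ Cv)    (hy1 : 0 ≤ y1)    (hy2 : 0 ≤ y2)    (hz1 : 0 ≤ z1)    (hz2 : 0 ≤ z2)    (hdu : 0 ≤ du)    (hdv : 0 ≤ dv)
    (lz1 : z1 + z2 ≤ a)
    (lz2 : z1 * z2 ≤ A)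
    (lz3 : z1 ^ 2 + z2 ^ 2 + 2 * A ≤ a ^ 2)
    : RR (fun i j => ((PP (t) (i) (u) (v) (a + j) (1 + b) (A + a*j) (B + b) (Cu + du*j + j*y1 + z1) (Cv + dv*j + j*y2 + z2)) - (PP (t) (i) (u) (v) (a + j) (b) (A + a*j) (B) (Cu + j*y1) (Cv + j*y2)))) := by
  have g0 : (0:ℤ) ≤ (2*a) := by positivity
  have g1 : (0:ℤ) ≤ (2) := by positivity
  have g2 : (0:ℤ) ≤ (2*A + 2*a*b) := by positivity
  have g3 : (0:ℤ) ≤ (2*a + 2*b) := by positivity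
  have g4 : 0 ≤ (2*a + 4*b - 2*z1 - 2*z2) := by
    linarith only [(sub_nonneg.2 lz1), hb]
  have g5 : 0 ≤ (2*a + 4*b - 2*z1) := by
    linarith only [(sub_nonneg.2 lz1), hb, hz2]
  have g6 : 0 ≤ (2*a + 4*b - 2*z2) := by
    linarith only [(sub_nonneg.2 lz1), hb, hz1]
  have g7 : 0 ≤ (- 2*A + 2*a*b - 2*a*z1 - 2*a*z2 + 2*a^2 - 2*b*z1 - 2*b*z2 + 2*b^2 + 2*z1*z2) := by
    linarith only [(sub_nonneg.2 lz3), (mul_nonneg (sub_nonneg.2 lz1) hb), (mul_nonneg hb hb), (sq_nonneg (a - z1 - z2))]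
  have g8 : 0 ≤ (2*a + 2*b - 2*z2) := by
    linarith only [(sub_nonneg.2 lz1), hb, hz1]
  have g9 : 0 ≤ (- 2*A + 2*a*b - 2*a*z1 + 2*a^2 - 2*b*z1 + 2*b^2 - z2^2) := by
    linarith only [(sub_nonneg.2 lz3), (mul_nonneg (sub_nonneg.2 lz1) hb), (mul_nonneg hb hz2), (mul_nonneg hb hb), (sq_nonneg (a - z1))]
  have g10 : 0 ≤ (2*a + 2*b - 2*z1) := by
    linarith only [(sub_nonneg.2 lz1), hb, hz2]
  have g11 : 0 ≤ (- 2*A + 2*a*b - 2*a*z2 + 2*a^2 - 2*b*z2 + 2*b^2 - z1^2) := by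
    linarith only [(sub_nonneg.2 lz3), (mul_nonneg (sub_nonneg.2 lz1) hb), (mul_nonneg hb hz1), (mul_nonneg hb hb), (sq_nonneg (a - z2))]
  have pos := (Int.add_nonneg (Int.add_nonneg (Int.add_nonneg (Int.add_nonneg (Int.add_nonneg (Int.add_nonneg (Int.add_nonneg (Int.add_nonneg (Int.add_nonneg (Int.add_nonneg (Int.add_nonneg (Int.add_nonneg (Int.add_nonneg (Int.add_nonneg (Int.add_nonneg (Int.add_nonneg (Int.add_nonneg (Int.add_nonneg (Int.add_nonneg (Int.add_nonneg (Int.add_nonneg (Int.add_nonneg (Int.add_nonneg (Int.add_nonneg (Int.add_nonneg (Int.add_nonneg (Int.mul_nonneg (by norm_num : (0:ℤ) ≤ 1) (sq_nonneg (u*z2 - v*z1)))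
      (Int.mul_nonneg (by positivity : (0:ℤ) ≤ (du*t*u*v)) g0))
      (Int.mul_nonneg (by positivity : (0:ℤ) ≤ (du*t*u^2)) g0))
      (Int.mul_nonneg (by positivity : (0:ℤ) ≤ (du*t*u^2*v)) g1))
      (Int.mul_nonneg (by positivity : (0:ℤ) ≤ (du*u*v)) g2))
      (Int.mul_nonneg (by positivity : (0:ℤ) ≤ (du*u^2)) g2))
      (Int.mul_nonneg (by positivity : (0:ℤ) ≤ (du*u^2*v)) g3))
      (Int.mul_nonneg (by positivity : (0:ℤ) ≤ (dv*t*u*v)) g0))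
      (Int.mul_nonneg (by positivity : (0:ℤ) ≤ (dv*t*u*v^2)) g1))
      (Int.mul_nonneg (by positivity : (0:ℤ) ≤ (dv*t*v^2)) g0))
      (Int.mul_nonneg (by positivity : (0:ℤ) ≤ (dv*u*v)) g2))
      (Int.mul_nonneg (by positivity : (0:ℤ) ≤ (dv*u*v^2)) g3))
      (Int.mul_nonneg (by positivity : (0:ℤ) ≤ (dv*v^2)) g2))
      (Int.mul_nonneg (by positivity : (0:ℤ) ≤ (t*u*v)) g4))
      (Int.mul_nonneg (by positivity : (0:ℤ) ≤ (t*u*v^2)) g1))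
      (Int.mul_nonneg (by positivity : (0:ℤ) ≤ (t*u^2)) g5))
      (Int.mul_nonneg (by positivity : (0:ℤ) ≤ (t*u^2*v)) g1))
      (Int.mul_nonneg (by positivity : (0:ℤ) ≤ (t*v^2)) g6))
      (Int.mul_nonneg (by positivity : (0:ℤ) ≤ (t^2*u*v)) g1))
      (Int.mul_nonneg (by positivity : (0:ℤ) ≤ (t^2*u^2)) g1))
      (Int.mul_nonneg (by positivity : (0:ℤ) ≤ (t^2*v^2)) g1))
      (Int.mul_nonneg (by positivity : (0:ℤ) ≤ (u*v)) g7))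
      (Int.mul_nonneg (by positivity : (0:ℤ) ≤ (u*v^2)) g8))
      (Int.mul_nonneg (by positivity : (0:ℤ) ≤ (u^2)) g9))
      (Int.mul_nonneg (by positivity : (0:ℤ) ≤ (u^2*v)) g10))
      (Int.mul_nonneg (by positivity : (0:ℤ) ≤ (u^2*v^2)) g1))
      (Int.mul_nonneg (by positivity : (0:ℤ) ≤ (v^2)) g11))
  have key : (0:ℤ) ≤ 2 * ((A + a*b + a*t + a*u + a*v + b*u + b*v + t*u + t*v + u*v - u*z1 - v*z2) * (a*u + a*v + b*u + b*v + t*u + t*v + u*v) - (a + b - du*u - dv*v + t + u + v) * (A*u + A*v + a*b*u + a*b*v + a*t*u + a*t*v + a*u*v + b*u*v + t*u*v)) := pos.trans_eq (by ring)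
  exact RR.of_aff (fun i j => by unfold PP; ring) (by norm_num) key

end Pool.Agent.H.MP_b989b4_co
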