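import Pool.Agent.H.MP_b989b4_co.Base
set_option linter.unusedVariables false

namespace Pool.Agent.H.MP_b989b4_co

lemma r_tx (e u v a b A B Cu Cv y1 y2 : ℤ)
    (he : 0 ≤ e)    (hu : 0 ≤ u)    (hv : 0 ≤ v)    (ha : 0 ≤ a)    (hb : 0 ≤ b)    (hA : 0 ≤ A)    (hB : 0 ≤ B)    (hCu : 0 ≤ Cu)    (hCv : 0 ≤ Cv)    (hy1 : 0 ≤ y1)    (hy2 : 0 ≤ y2)
    (hX : 2 * A ≤ a ^ 2)
    (ly1 : y1 + y2 ≤ b)
    (ly2 : y1 * y2 ≤ B)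
    (ly3 : y1 ^ 2 + y2 ^ 2 + 2 * B ≤ b ^ 2)
    : RR (fun i j => (PP (i) (e) (u) (v) (a + j) (b) (A + a*j) (B) (Cu + j*y1) (Cv + j*y2))) := by
  have g0 : 0 ≤ (- 4*A*b^2 + 4*a^2*b^2) := by
    linarith only [(mul_nonneg (mul_nonneg (sub_nonneg.2 hX) hb) hb), (mul_nonneg (mul_nonneg (mul_nonneg ha ha) hb) hb)]
  have g1 : 0 ≤ (- 12*A*b + 2*Cu*b + 2*Cv*b - 2*a*b*y1 - 2*a*b*y2 + 6*a*b^2 + 12*a^2*b) := by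
    linarith only [(mul_nonneg (sub_nonneg.2 hX) hb), (mul_nonneg (sub_nonneg.2 ly2) ha), (mul_nonneg hCu hb), (mul_nonneg hCv hb), (mul_nonneg (sub_nonneg.2 ly3) ha), (mul_nonneg (mul_nonneg ha hb) hb), (mul_nonneg (sq_nonneg (b - y1 - y2)) ha), (mul_nonneg (mul_nonneg ha ha) hb)]
  have g2 : 0 ≤ (- 4*A - 2*B + 2*Cv + 6*a*b - 2*a*y2 + 4*a^2 - 2*b*y2 + 2*b^2) := by
    linarith only [(sub_nonneg.2 hX), (sub_nonneg.2 ly3), hCv, (mul_nonneg ha hy2), (mul_nonneg ha hy1), (mul_nonneg (sub_nonneg.2 ly1) ha), (mul_nonneg ha ha), (mul_nonneg hy1 hy1), (sq_nonneg (b - y2))]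
  have g3 : 0 ≤ (- 4*A*b + 2*Cu*b - 2*a*b*y1 + 2*a*b^2 + 4*a^2*b) := by
    linarith only [(mul_nonneg (sub_nonneg.2 hX) hb), (mul_nonneg (mul_nonneg ha hy1) hy2), (mul_nonneg hCu hb), (mul_nonneg (sq_nonneg (b - y1)) ha), (mul_nonneg (mul_nonneg (sub_nonneg.2 ly1) ha) hy1), (mul_nonneg (mul_nonneg ha ha) hb)]
  have g4 : 0 ≤ (- 4*A - 2*B + 2*Cu + 6*a*b - 2*a*y1 + 4*a^2 - 2*b*y1 + 2*b^2) := by
    linarith only [(sub_nonneg.2 hX), (sub_nonneg.2 ly3), hCu, (mul_nonneg ha hy1), (mul_nonneg (sub_nonneg.2 ly1) ha), (mul_nonneg ha hy2), (mul_nonneg ha ha), (sq_nonneg (b - y1)), (mul_nonneg hy2 hy2)]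
  have g5 : (0:ℤ) ≤ (2*a + 2*b) := by positivity
  have g6 : 0 ≤ (- 4*A*b + 2*Cv*b - 2*a*b*y2 + 2*a*b^2 + 4*a^2*b) := by
    linarith only [(mul_nonneg (sub_nonneg.2 hX) hb), (mul_nonneg (mul_nonneg ha hy1) hy2), (mul_nonneg hCv hb), (mul_nonneg (mul_nonneg (sub_nonneg.2 ly1) ha) hy2), (mul_nonneg (sq_nonneg (b - y2)) ha), (mul_nonneg (mul_nonneg ha ha) hb)]
  have g7 : 0 ≤ (- 2*A*b^2 + 2*a^2*b^2) := by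
    linarith only [(mul_nonneg (mul_nonneg (sub_nonneg.2 hX) hb) hb), (mul_nonneg (mul_nonneg (mul_nonneg ha ha) hb) hb)]
  have g8 : 0 ≤ (- 4*A - 2*B + 2*Cu + 2*Cv + 6*a*b - 2*a*y1 - 2*a*y2 + 4*a^2 - 2*b*y1 - 2*b*y2 + 2*b^2 + 2*y1*y2) := by
    linarith only [(sub_nonneg.2 hX), (sub_nonneg.2 ly3), hCu, hCv, (mul_nonneg ha hy2), (mul_nonneg (sub_nonneg.2 ly1) ha), (mul_nonneg ha hy1), (mul_nonneg ha ha), (sq_nonneg (b - y1 - y2))]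
  have g9 : 0 ≤ (2*a + 2*b - 2*y2) := by
    linarith only [ha, (sub_nonneg.2 ly1), hy1]
  have g10 : 0 ≤ (- 2*A - 2*B + 2*Cu + 2*a*b - 2*a*y1 + 2*a^2 - 2*b*y1 + 2*b^2 - y2^2) := by
    linarith only [(sub_nonneg.2 hX), (sub_nonneg.2 ly3), hCu, (mul_nonneg (sub_nonneg.2 ly1) ha), (mul_nonneg ha hy2), (mul_nonneg ha ha), (sq_nonneg (b - y1))]
  have g11 : 0 ≤ (2*a + 2*b - 2*y1) := by
    linarith only [ha, (sub_nonneg.2 ly1), hy2]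
  have g12 : (0:ℤ) ≤ (2) := by positivity
  have g13 : 0 ≤ (- 2*A - 2*B + 2*Cv + 2*a*b - 2*a*y2 + 2*a^2 - 2*b*y2 + 2*b^2 - y1^2) := by
    linarith only [(sub_nonneg.2 hX), (sub_nonneg.2 ly3), hCv, (mul_nonneg (sub_nonneg.2 ly1) ha), (mul_nonneg ha hy1), (mul_nonneg ha ha), (sq_nonneg (b - y2))]
  have g14 : 0 ≤ (- 4*A*b + 2*a*b^2 + 4*a^2*b) := by
    linarith only [(mul_nonneg (sub_nonneg.2 hX) hb), (mul_nonneg (mul_nonneg ha hb) hb), (mul_nonneg (mul_nonneg ha ha) hb)]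
  have g15 : 0 ≤ (- 2*A - 2*B + 2*a*b + 2*a^2 + 2*b^2) := by
    linarith only [(sub_nonneg.2 hX), (sub_nonneg.2 ly3), (mul_nonneg ha hb), (mul_nonneg ha ha), (mul_nonneg hb hb), (mul_nonneg hy1 hy1), (mul_nonneg hy2 hy2)]
  have pos := (Int.add_nonneg (Int.add_nonneg (Int.add_nonneg (Int.add_nonneg (Int.add_nonneg (Int.add_nonneg (Int.add_nonneg (Int.add_nonneg (Int.add_nonneg (Int.add_nonneg (Int.add_nonneg (Int.add_nonneg (Int.add_nonneg (Int.add_nonneg (Int.add_nonneg (Int.add_nonneg (Int.add_nonneg (Int.add_nonneg (Int.add_nonneg (Int.add_nonneg (Int.add_nonneg (Int.add_nonneg (Int.add_nonneg (Int.mul_nonneg (by norm_num : (0:ℤ) ≤ 1) (sq_nonneg (e*u*y2 - e*v*y1)))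
      (Int.mul_nonneg (by positivity : (0:ℤ) ≤ (e*u)) g0))
      (Int.mul_nonneg (by positivity : (0:ℤ) ≤ (e*u*v)) g1))
      (Int.mul_nonneg (by positivity : (0:ℤ) ≤ (e*u*v^2)) g2))
      (Int.mul_nonneg (by positivity : (0:ℤ) ≤ (e*u^2)) g3))
      (Int.mul_nonneg (by positivity : (0:ℤ) ≤ (e*u^2*v)) g4))
      (Int.mul_nonneg (by positivity : (0:ℤ) ≤ (e*u^2*v^2)) g5))
      (Int.mul_nonneg (by positivity : (0:ℤ) ≤ (e*v)) g0))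
      (Int.mul_nonneg (by positivity : (0:ℤ) ≤ (e*v^2)) g6))
      (Int.mul_nonneg (by positivity : (0:ℤ) ≤ (e^2)) g7))
      (Int.mul_nonneg (by positivity : (0:ℤ) ≤ (e^2*u)) g3))
      (Int.mul_nonneg (by positivity : (0:ℤ) ≤ (e^2*u*v)) g8))
      (Int.mul_nonneg (by positivity : (0:ℤ) ≤ (e^2*u*v^2)) g9))
      (Int.mul_nonneg (by positivity : (0:ℤ) ≤ (e^2*u^2)) g10))
      (Int.mul_nonneg (by positivity : (0:ℤ) ≤ (e^2*u^2*v)) g11))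
      (Int.mul_nonneg (by positivity : (0:ℤ) ≤ (e^2*u^2*v^2)) g12))
      (Int.mul_nonneg (by positivity : (0:ℤ) ≤ (e^2*v)) g6))
      (Int.mul_nonneg (by positivity : (0:ℤ) ≤ (e^2*v^2)) g13))
      (Int.mul_nonneg (by positivity : (0:ℤ) ≤ (u*v)) g0))
      (Int.mul_nonneg (by positivity : (0:ℤ) ≤ (u*v^2)) g14))
      (Int.mul_nonneg (by positivity : (0:ℤ) ≤ (u^2)) g7))
      (Int.mul_nonneg (by positivity : (0:ℤ) ≤ (u^2*v)) g14))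
      (Int.mul_nonneg (by positivity : (0:ℤ) ≤ (u^2*v^2)) g15))
      (Int.mul_nonneg (by positivity : (0:ℤ) ≤ (v^2)) g7))
  have key : (0:ℤ) ≤ 2 * ((a*b*e + a*b*u + a*b*v + a*e*u + a*e*v + a*u*v + b*e*u + b*e*v + b*u*v + e*u*v) * (B*e + B*u + B*v + a*b*e + a*b*u + a*b*v + a*e*u + a*e*v + a*u*v + b*e*u + b*e*v + b*u*v + e*u*v - e*u*y1 - e*v*y2) - (b*e + b*u + b*v + e*u + e*v + u*v) * (A*b*e + A*b*u + A*b*v + A*e*u + A*e*v + A*u*v + B*a*e + B*a*u + B*a*v + B*e*u + B*e*v + B*u*v - Cu*e*u - Cv*e*v + a*b*e*u + a*b*e*v + a*b*u*v + a*e*u*v + b*e*u*v)) := pos.trans_eq (by ring)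
  exact RR.of_aff (fun i j => by unfold PP; ring) (by norm_num) key

lemma r_ux (t e v z a1 y2 b1 A1 B1 C1 Cv y1 : ℤ)
    (ht : 0 ≤ t)    (he : 0 ≤ e)    (hv : 0 ≤ v)    (hz : 0 ≤ z)    (ha1 : 0 ≤ a1)    (hy2 : 0 ≤ y2)    (hb1 : 0 ≤ b1)    (hA1 : 0 ≤ A1)    (hB1 : 0 ≤ B1)    (hC1 : 0 ≤ C1)    (hCv : 0 ≤ Cv)    (hy1 : 0 ≤ y1)
    (hX : 2 * A1 ≤ a1 ^ 2)
    (hY : 2 * B1 ≤ b1 ^ 2)
    (hN : C1 ≤ a1 * b1)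
    (hK : a1 * b1 * C1 + A1 * b1 ^ 2 + B1 * a1 ^ 2 ≤ a1 ^ 2 * b1 ^ 2)
    (hL : C1 * (a1 + b1) + A1 * b1 + B1 * a1 ≤ a1 * b1 * (a1 + b1))
    (ly : y1 ≤ b1)
    (hK2 : ((z + a1) * y2 - (y2 + b1) * z) ^ 2 + 2 * ((z + a1) * (y2 + b1) * (z * y2 + C1) + (z * a1 + A1) * (y2 + b1) ^ 2 + (y2 * b1 + B1) * (z + a1) ^ 2) ≤ 2 * ((z + a1) ^ 2 * (y2 + b1) ^ 2))
    : RR (fun i j => (PP (t) (e) (i) (v) (a1 + j + z) (b1 + y2) (A1 + a1*j + a1*z + j*z) (B1 + b1*y2) (C1 + j*y1 + y2*z) (Cv + j*y2))) := by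
  have g0 : 0 ≤ (4*B1*b1 + 4*B1*y2 - 2*C1*b1 - 2*C1*y2 + 2*Cv*b1 + 2*Cv*y2 + 2*a1*b1*y1 + 2*a1*b1*y2 + 2*a1*b1^2 + 2*a1*y1*y2 + 2*b1*y1*z + 4*b1*y2*z + 4*b1*y2^2 + 4*b1^2*y2 + 4*b1^2*z + 2*y1*y2*z) := by
    linarith only [(mul_nonneg hB1 hb1), (mul_nonneg hB1 hy2), (mul_nonneg (sub_nonneg.2 hN) hb1), (mul_nonneg (sub_nonneg.2 hN) hy2), (mul_nonneg hCv hb1), (mul_nonneg hCv hy2), (mul_nonneg (mul_nonneg ha1 hb1) hy1), (mul_nonneg (mul_nonneg ha1 hy1) hy2), (mul_nonneg (mul_nonneg hb1 hy1) hz), (mul_nonneg (mul_nonneg hb1 hy2) hz), (mul_nonneg (mul_nonneg hb1 hy2) hy2), (mul_nonneg (mul_nonneg hb1 hb1) hy2), (mul_nonneg (mul_nonneg hb1 hb1) hz), (mul_nonneg (mul_nonneg hy1 hy2) hz)]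
  have g1 : (0:ℤ) ≤ (2*B1 + 2*Cv + 2*a1*b1 + 4*b1*y2 + 2*b1*z + 2*b1^2) := by positivity
  have g2 : (0:ℤ) ≤ (4*b1*y2 + 2*b1^2 + 2*y2^2) := by positivity
  have g3 : (0:ℤ) ≤ (2*b1 + 2*y2) := by positivity
  have g4 : 0 ≤ (2*A1*B1 + 2*A1*b1*y1 - 4*A1*b1*y2 - 2*A1*b1^2 + 2*A1*y1*y2 - 4*A1*y2^2 - 2*B1*C1 + 2*B1*Cv + 2*B1*a1*b1 + 2*B1*a1*y1 - 2*B1*a1*z - 2*B1*a1^2 + 4*B1*b1*y2 + 4*B1*b1*z + 2*B1*y1*z - 2*B1*z^2 + 2*B1^2 - 2*C1*a1*b1 - 2*C1*a1*y2 - 2*C1*b1*y2 - 2*C1*b1*z - 2*C1*y2*z + 2*Cv*a1*b1 + 2*Cv*a1*y2 + 2*Cv*b1*y2 + 2*Cv*b1*z + 2*Cv*y2*z + 2*a1*b1*y1*y2 + 2*a1*b1*y1*z + 2*a1*b1^2*y2 + 2*a1*b1^2*z + 2*a1*y1*y2*z + 2*a1^2*b1*y2 + 2*a1^2*b1^2 + 2*a1^2*y2^2 + 2*b1*y1*y2*z + 4*b1^2*y2*z + 2*b1^2*y2^2 + 2*b1^2*z^2) := by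
    linarith only [(mul_nonneg hA1 hB1), (mul_nonneg (mul_nonneg hA1 hb1) hy1), (mul_nonneg (mul_nonneg hB1 ha1) hz), (mul_nonneg (mul_nonneg hA1 hy1) hy2), (mul_nonneg (mul_nonneg (sub_nonneg.2 hX) hy2) hy2), (mul_nonneg (sub_nonneg.2 hN) hB1), (mul_nonneg hB1 hCv), (mul_nonneg (mul_nonneg hB1 ha1) hy1), (sub_nonneg.2 hK2), (mul_nonneg (mul_nonneg hB1 hb1) hy2), (mul_nonneg (mul_nonneg hB1 hb1) hz), (mul_nonneg (mul_nonneg hB1 hy1) hz), (mul_nonneg hB1 hB1), (mul_nonneg (mul_nonneg (sub_nonneg.2 hN) hb1) hy2), (mul_nonneg (mul_nonneg hCv ha1) hb1), (mul_nonneg (mul_nonneg hCv ha1) hy2), (mul_nonneg (mul_nonneg hCv hb1) hy2), (mul_nonneg (mul_nonneg hCv hb1) hz), (mul_nonneg (mul_nonneg hCv hy2) hz), (mul_nonneg (mul_nonneg (mul_nonneg ha1 hb1) hy1) hy2), (mul_nonneg (mul_nonneg (mul_nonneg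 ha1 hb1) hy1) hz), (mul_nonneg (mul_nonneg (mul_nonneg ha1 hy1) hy2) hz), (mul_nonneg (mul_nonneg (mul_nonneg hb1 hy1) hy2) hz), (mul_nonneg (mul_nonneg (mul_nonneg hb1 hb1) hy2) hz), (mul_nonneg (mul_nonneg (mul_nonneg hb1 hb1) hy2) hy2), (mul_nonneg (mul_nonneg (mul_nonneg hb1 hb1) hz) hz)]
  have g5 : 0 ≤ (- 2*A1*b1 - 4*A1*y2 + 2*B1*b1 + 2*Cv*a1 + 2*Cv*b1 + 2*Cv*y2 + 2*Cv*z + 2*a1*b1*y2 + 2*a1*b1*z + 2*a1*b1^2 + 2*a1^2*b1 + 2*a1^2*y2 + 2*b1*y2*z + 2*b1^2*y2 + 2*b1^2*z) := by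
    linarith only [(mul_nonneg (sub_nonneg.2 hX) hb1), (mul_nonneg (sub_nonneg.2 hX) hy2), (mul_nonneg hB1 hb1), (mul_nonneg hCv ha1), (mul_nonneg hCv hb1), (mul_nonneg hCv hy2), (mul_nonneg hCv hz), (mul_nonneg (mul_nonneg ha1 hb1) hy2), (mul_nonneg (mul_nonneg ha1 hb1) hz), (mul_nonneg (mul_nonneg ha1 hb1) hb1), (mul_nonneg (mul_nonneg ha1 ha1) hb1), (mul_nonneg (mul_nonneg hb1 hy2) hz), (mul_nonneg (mul_nonneg hb1 hb1) hy2), (mul_nonneg (mul_nonneg hb1 hb1) hz)]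
  have g6 : 0 ≤ (2*A1*B1 + 2*A1*b1*y1 - 2*A1*b1*y2 - 2*A1*b1^2 + 2*A1*y1*y2 - 2*A1*y2^2 - 2*B1*C1 + 2*B1*a1*b1 + 2*B1*a1*y1 - 2*B1*a1*z - 2*B1*a1^2 + 2*B1*b1*y2 + 2*B1*b1*z + 2*B1*y1*z - 2*B1*z^2 + B1^2 - 2*C1*a1*b1 - 2*C1*a1*y2 - 2*C1*b1*y2 - 2*C1*b1*z - 2*C1*y2*z + 2*a1*b1*y1*y2 + 2*a1*b1*y1*z + 2*a1*b1^2*y2 + 2*a1*b1^2*z + 2*a1*y1*y2*z + 2*a1^2*b1*y2 + 2*a1^2*b1^2 + a1^2*y2^2 + 2*b1*y1*y2*z + 2*b1^2*y2*z + b1^2*y2^2 + 2*b1^2*z^2) := by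
    linarith only [(mul_nonneg hA1 hB1), (mul_nonneg (mul_nonneg hA1 hb1) hy1), (sub_nonneg.2 hK2), (mul_nonneg (mul_nonneg hB1 ha1) hz), (mul_nonneg (mul_nonneg hA1 hy1) hy2), (mul_nonneg (sub_nonneg.2 hN) hB1), (mul_nonneg (mul_nonneg hB1 ha1) hy1), (mul_nonneg (mul_nonneg hA1 hb1) hy2), (mul_nonneg (mul_nonneg hB1 hb1) hy2), (mul_nonneg (mul_nonneg hB1 hb1) hz), (mul_nonneg (mul_nonneg hB1 hy1) hz), (mul_nonneg hB1 hB1), (mul_nonneg (mul_nonneg (sub_nonneg.2 hN) hb1) hy2), (mul_nonneg (mul_nonneg (mul_nonneg ha1 hb1) hy1) hy2), (mul_nonneg (mul_nonneg (mul_nonneg ha1 hb1) hy1) hz), (mul_nonneg (mul_nonneg (mul_nonneg ha1 hy1) hy2) hz), (mul_nonneg (mul_nonneg (mul_nonneg hb1 hy1) hy2) hz), (mul_nonneg (mul_nonneg (mul_nonneg hb1 hb1) hy2) hz), (mul_nonneg (mul_nonneg (mul_nonneg hb1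 hb1) hy2) hy2), (mul_nonneg (mul_nonneg (mul_nonneg hb1 hb1) hz) hz)]
  have g7 : 0 ≤ (2*B1*b1 + 2*B1*y2 - 2*C1*b1 - 2*C1*y2 + 2*a1*b1*y1 + 2*a1*b1*y2 + 2*a1*b1^2 + 2*a1*y1*y2 + 2*b1*y1*z + 2*b1*y2*z + 2*b1*y2^2 + 2*b1^2*y2 + 2*b1^2*z + 2*y1*y2*z) := by
    linarith only [(mul_nonneg hB1 hb1), (mul_nonneg hB1 hy2), (mul_nonneg (sub_nonneg.2 hN) hb1), (mul_nonneg (sub_nonneg.2 hN) hy2), (mul_nonneg (mul_nonneg ha1 hb1) hy1), (mul_nonneg (mul_nonneg ha1 hy1) hy2), (mul_nonneg (mul_nonneg hb1 hy1) hz), (mul_nonneg (mul_nonneg hb1 hy2) hz), (mul_nonneg (mul_nonneg hb1 hy2) hy2), (mul_nonneg (mul_nonneg hb1 hb1) hy2), (mul_nonneg (mul_nonneg hb1 hb1) hz), (mul_nonneg (mul_nonneg hy1 hy2) hz)]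
  have g8 : 0 ≤ (2*B1 - 2*C1 + 2*Cv + 2*a1*b1 + 2*a1*y1 + 2*b1*y1 + 4*b1*y2 + 4*b1*z + 2*b1^2 + 2*y1*y2 + 2*y1*z) := by
    linarith only [hB1, (sub_nonneg.2 hN), hCv, (mul_nonneg ha1 hy1), (mul_nonneg hb1 hy1), (mul_nonneg hb1 hy2), (mul_nonneg hb1 hz), (mul_nonneg hb1 hb1), (mul_nonneg hy1 hy2), (mul_nonneg hy1 hz)]
  have g9 : (0:ℤ) ≤ (2*a1 + 2*b1 + 2*z) := by positivity
  have g10 : (0:ℤ) ≤ (2*b1*y2 + b1^2 + y2^2) := by positivity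
  have g11 : (0:ℤ) ≤ (2) := by positivity
  have g12 : 0 ≤ (- 2*A1*b1 + 2*A1*y1 - 4*A1*y2 + 2*B1*b1 + 2*B1*y1 + 2*B1*z - 2*C1*a1 - 2*C1*b1 - 2*C1*z + 2*Cv*a1 + 2*Cv*b1 - 2*Cv*y1 + 2*Cv*y2 + 2*Cv*z + 2*a1*b1*y1 + 2*a1*b1*y2 + 2*a1*b1*z + 2*a1*b1^2 + 2*a1*y1*y2 + 2*a1*y1*z + 2*a1^2*b1 + 2*a1^2*y2 + 2*b1*y1*y2 + 2*b1*y1*z + 2*b1*y2*z + 2*b1*z^2 + 2*b1^2*y2 + 2*b1^2*z + 2*y1*y2*z) := by
    linarith only [(sub_nonneg.2 hL), (mul_nonneg hA1 hy1), (mul_nonneg (sub_nonneg.2 hX) hy2), (mul_nonneg hB1 ha1), (mul_nonneg hB1 hb1), (mul_nonneg hB1 hy1), (mul_nonneg hB1 hz), (mul_nonneg (sub_nonneg.2 hN) hz), (mul_nonneg hCv ha1), (mul_nonneg (sub_nonneg.2 ly) hCv), (mul_nonneg hCv hy2), (mul_nonneg hCv hz), (mul_nonneg (mul_nonneg ha1 hb1) hy1), (mul_nonneg (mul_nonneg ha1 hb1) hy2), (mul_nonneg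 (mul_nonneg ha1 hy1) hy2), (mul_nonneg (mul_nonneg ha1 hy1) hz), (mul_nonneg (mul_nonneg hb1 hy1) hy2), (mul_nonneg (mul_nonneg hb1 hy1) hz), (mul_nonneg (mul_nonneg hb1 hy2) hz), (mul_nonneg (mul_nonneg hb1 hz) hz), (mul_nonneg (mul_nonneg hb1 hb1) hy2), (mul_nonneg (mul_nonneg hb1 hb1) hz), (mul_nonneg (mul_nonneg hy1 hy2) hz)]
  have g13 : 0 ≤ (- 2*A1 - 2*B1 + 2*Cv + 2*a1*b1 + 2*a1*z + 2*a1^2 + 2*b1*z + 2*b1^2 + z^2) := by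
    linarith only [(sub_nonneg.2 hX), (sub_nonneg.2 hY), hCv, (mul_nonneg ha1 hb1), (mul_nonneg ha1 hz), (mul_nonneg ha1 ha1), (mul_nonneg hb1 hz), (mul_nonneg hb1 hb1), (mul_nonneg hz hz)]
  have g14 : (0:ℤ) ≤ (4*B1*b1 + 4*B1*y2 + 4*a1*b1*y2 + 2*a1*b1^2 + 2*a1*y2^2 + 4*b1*y2*z + 4*b1*y2^2 + 4*b1^2*y2 + 2*b1^2*z + 2*y2^2*z) := by positivity
  have g15 : 0 ≤ (2*A1*B1 - 2*A1*b1*y2 - 2*A1*b1^2 - 2*A1*y2^2 + 2*B1*a1*b1 + 2*B1*a1*y2 - 2*B1*a1*z - 2*B1*a1^2 + 4*B1*b1*y2 + 2*B1*b1*z + 2*B1*y2*z - 2*B1*z^2 + 2*B1^2 + 2*a1*b1*y2*z + 2*a1*b1*y2^2 + 2*a1*b1^2*y2 + 2*a1*b1^2*z + 2*a1*y2^2*z + 2*a1^2*b1*y2 + 2*a1^2*b1^2 + 2*a1^2*y2^2 + 2*b1*y2^2*z + 2*b1^2*y2*z + 2*b1^2*y2^2 + b1^2*z^2 + y2^2*z^2) := by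
    linarith only [(mul_nonneg hA1 hB1), (mul_nonneg (mul_nonneg (sub_nonneg.2 hX) hb1) hb1), (mul_nonneg (mul_nonneg (sub_nonneg.2 hX) hy2) hy2), (mul_nonneg (mul_nonneg hB1 ha1) hb1), (mul_nonneg (mul_nonneg hB1 ha1) hy2), (mul_nonneg (mul_nonneg (sub_nonneg.2 hY) ha1) hz), (mul_nonneg (mul_nonneg (sub_nonneg.2 hY) ha1) ha1), (mul_nonneg (mul_nonneg hB1 hb1) hy2), (mul_nonneg (mul_nonneg hB1 hb1) hz), (mul_nonneg (mul_nonneg hB1 hy2) hz), (mul_nonneg (mul_nonneg (sub_nonneg.2 hY) hz) hz), (mul_nonneg hB1 hB1), (mul_nonneg (mul_nonneg (sub_nonneg.2 hX) hb1) hy2), (mul_nonneg (mul_nonneg (mul_nonneg ha1 hb1) hy2) hz), (mul_nonneg (mul_nonneg (mul_nonneg ha1 hb1) hy2) hy2), (mul_nonneg (mul_nonneg (mul_nonneg ha1 hb1) hb1) hy2), (mul_nonneg (mul_nonneg (mul_nonneg ha1 hb1) hb1) hz), (mul_nonneg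 (mul_nonneg (mul_nonneg ha1 hy2) hy2) hz), (mul_nonneg (mul_nonneg (mul_nonneg ha1 ha1) hb1) hy2), (mul_nonneg (mul_nonneg (mul_nonneg ha1 ha1) hy2) hy2), (mul_nonneg (mul_nonneg (mul_nonneg hb1 hy2) hy2) hz), (mul_nonneg (mul_nonneg (mul_nonneg hb1 hb1) hy2) hz), (mul_nonneg (mul_nonneg (mul_nonneg hb1 hb1) hy2) hy2), (mul_nonneg (mul_nonneg (mul_nonneg hy2 hy2) hz) hz)]
  have pos := (Int.add_nonneg (Int.add_nonneg (Int.add_nonneg (Int.add_nonneg (Int.add_nonneg (Int.add_nonneg (Int.add_nonneg (Int.add_nonneg (Int.add_nonneg (Int.add_nonneg (Int.add_nonneg (Int.add_nonneg (Int.add_nonneg (Int.add_nonneg (Int.add_nonneg (Int.add_nonneg (Int.add_nonneg (Int.add_nonneg (Int.mul_nonneg (by norm_num : (0:ℤ) ≤ 1) (sq_nonneg (B1*e + a1*e*y2 + b1*e*t + b1*e*y2 - b1*v*z + e*t*y2 - e*v*z - v*y2*z)))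
      (Int.mul_nonneg (by positivity : (0:ℤ) ≤ (e*t*v)) g0))
      (Int.mul_nonneg (by positivity : (0:ℤ) ≤ (e*t*v^2)) g1))
      (Int.mul_nonneg (by positivity : (0:ℤ) ≤ (e*t^2*v)) g2))
      (Int.mul_nonneg (by positivity : (0:ℤ) ≤ (e*t^2*v^2)) g3))
      (Int.mul_nonneg (by positivity : (0:ℤ) ≤ (e*v)) g4))
      (Int.mul_nonneg (by positivity : (0:ℤ) ≤ (e*v^2)) g5))
      (Int.mul_nonneg (by positivity : (0:ℤ) ≤ (e^2)) g6))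
      (Int.mul_nonneg (by positivity : (0:ℤ) ≤ (e^2*t)) g7))
      (Int.mul_nonneg (by positivity : (0:ℤ) ≤ (e^2*t*v)) g8))
      (Int.mul_nonneg (by positivity : (0:ℤ) ≤ (e^2*t*v^2)) g9))
      (Int.mul_nonneg (by positivity : (0:ℤ) ≤ (e^2*t^2)) g10))
      (Int.mul_nonneg (by positivity : (0:ℤ) ≤ (e^2*t^2*v)) g3))
      (Int.mul_nonneg (by positivity : (0:ℤ) ≤ (e^2*t^2*v^2)) g11))
      (Int.mul_nonneg (by positivity : (0:ℤ) ≤ (e^2*v)) g12))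
      (Int.mul_nonneg (by positivity : (0:ℤ) ≤ (e^2*v^2)) g13))
      (Int.mul_nonneg (by positivity : (0:ℤ) ≤ (t*v^2)) g14))
      (Int.mul_nonneg (by positivity : (0:ℤ) ≤ (t^2*v^2)) g2))
      (Int.mul_nonneg (by positivity : (0:ℤ) ≤ (v^2)) g15))
  have key : (0:ℤ) ≤ 2 * ((A1*b1 + A1*e + A1*v + A1*y2 + B1*a1 + B1*e + B1*v + B1*z - C1*e + a1*b1*e + a1*b1*t + a1*b1*v + a1*b1*y2 + a1*b1*z + a1*e*t + a1*e*v + a1*e*y2 + a1*e*z + a1*t*v + a1*t*y2 + a1*v*y2 + a1*v*z + a1*y2*z + b1*e*t + b1*e*v + b1*e*y2 + b1*e*z + b1*t*v + b1*t*z + b1*v*y2 + b1*v*z + b1*y2*z + e*t*v + e*t*y2 + e*t*z + e*v*y2 + e*v*z + t*v*y2 + t*v*z + t*y2*z + v*y2*z) * (B1*e + B1*v + a1*b1*e + a1*b1*v + a1*e*v + a1*e*y2 + a1*v*y2 + b1*e*t + b1*e*v + b1*e*y2 + b1*e*z + b1*t*v + b1*v*y2 + b1*v*z + e*t*v + e*t*y2 + e*v*z + e*y2*z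 + t*v*y2 + v*y2*z) - (B1 + a1*b1 + a1*e + a1*v + a1*y2 + b1*e + b1*t + b1*v + b1*y2 + b1*z + e*t + e*v - e*y1 + e*y2 + e*z + t*v + t*y2 + v*y2 + v*z + y2*z) * (A1*b1*e + A1*b1*v + A1*e*v + A1*e*y2 + A1*v*y2 + B1*a1*e + B1*a1*v + B1*e*v + B1*e*z + B1*v*z - Cv*e*v + a1*b1*e*t + a1*b1*e*v + a1*b1*e*y2 + a1*b1*e*z + a1*b1*t*v + a1*b1*v*y2 + a1*b1*v*z + a1*e*t*v + a1*e*t*y2 + a1*e*v*y2 + a1*e*v*z + a1*e*y2*z + a1*t*v*y2 + a1*v*y2*z + b1*e*t*v + b1*e*t*z + b1*e*v*y2 + b1*e*v*z + b1*e*y2*z + b1*t*v*z + b1*v*y2*z + e*t*v*y2 + e*t*v*z + e*t*y2*z + e*v*y2*z + t*v*y2*z)) := pos.trans_eq (by ring)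
  exact RR.of_aff (fun i j => by unfold PP; ring) (by norm_num) key

end Pool.Agent.H.MP_b989b4_co
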