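import Pool.Agent.H.MP_b989b4_co.Base
set_option linter.unusedVariables false

namespace Pool.Agent.H.MP_b989b4_co

lemma r_xx (t e u v a b A B Cu Cv y1 y2 z1 z2 : ℤ)
    (ht : 0 ≤ t)    (he : 0 ≤ e)    (hu : 0 ≤ u)    (hv : 0 ≤ v)    (ha : 0 ≤ a)    (hb : 0 ≤ b)    (hA : 0 ≤ A)    (hB : 0 ≤ B)    (hCu : 0 ≤ Cu)    (hCv : 0 ≤ Cv)    (hy1 : 0 ≤ y1)    (hy2 : 0 ≤ y2)    (hz1 : 0 ≤ z1)    (hz2 : 0 ≤ z2)
    (hX : 2 * A ≤ a ^ 2)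
    (lp1 : y1 + z1 ≤ b)
    (lp2 : y1 * z1 ≤ B)
    (lp3 : y1 ^ 2 + z1 ^ 2 + 2 * B ≤ b ^ 2)
    (lq1 : y2 + z2 ≤ b)
    (lq2 : y2 * z2 ≤ B)
    (lq3 : y2 ^ 2 + z2 ^ 2 + 2 * B ≤ b ^ 2)
    (lr : y1 * y2 ≤ B)
    (ls : z1 * z2 ≤ B)
    : RR (fun i j => (PP (t) (e) (u) (v) (a + i + j) (b) (A + a*i + a*j + i*j) (B) (Cu + i*y1 + j*z1) (Cv + i*y2 + j*z2))) := by
  have g0 : (0:ℤ) ≤ (4*B*b + 2*a*b^2) := by positivity
  have g1 : 0 ≤ (6*B + 6*a*b - b*y1 - b*y2 - b*z1 - b*z2 + 3*b^2) := by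
    linarith only [(mul_nonneg hy2 hz2), (mul_nonneg ha hb), (sub_nonneg.2 lp3), (sub_nonneg.2 lq3), (mul_nonneg hy2 hy2), (sq_nonneg (b - y1 - z1)), (sub_nonneg.2 lp2), (sq_nonneg (b - y2 - z2)), (sub_nonneg.2 lq2), (mul_nonneg hz2 hz2)]
  have g2 : 0 ≤ (2*a + 3*b - y2 - z2) := by
    linarith only [ha, hz2, (sub_nonneg.2 lq1), hy2]
  have g3 : 0 ≤ (2*B + 2*a*b - b*y1 - b*z1 + b^2) := by
    linarith only [(mul_nonneg hy1 hz1), (mul_nonneg ha hb), (sub_nonneg.2 lp3), (sq_nonneg (b - y1 - z1)), (sub_nonneg.2 lp2)]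
  have g4 : 0 ≤ (2*a + 3*b - y1 - z1) := by
    linarith only [ha, hz1, (sub_nonneg.2 lp1), hy1]
  have g5 : (0:ℤ) ≤ (1) := by positivity
  have g6 : 0 ≤ (2*B + 2*a*b - b*y2 - b*z2 + b^2) := by
    linarith only [(mul_nonneg hy2 hz2), (mul_nonneg ha hb), (sub_nonneg.2 lq3), (sq_nonneg (b - y2 - z2)), (sub_nonneg.2 lq2)]
  have g7 : (0:ℤ) ≤ (2*b^2) := by positivity
  have g8 : (0:ℤ) ≤ (6*b) := by positivity
  have g9 : (0:ℤ) ≤ (2) := by positivity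
  have g10 : (0:ℤ) ≤ (2*b) := by positivity
  have g11 : 0 ≤ (- 2*A*b^2 + 2*B*a*b + 2*B^2 + 2*a^2*b^2) := by
    linarith only [(mul_nonneg (mul_nonneg (sub_nonneg.2 hX) hb) hb), (mul_nonneg (mul_nonneg hB ha) hb), (mul_nonneg hB hB), (mul_nonneg (mul_nonneg (mul_nonneg ha ha) hb) hb)]
  have g12 : 0 ≤ (- 6*A*b + 3*B*a + 3*B*b - B*y1 - B*y2 - B*z1 - B*z2 + Cu*b + Cv*b - a*b*y1 - a*b*y2 - a*b*z1 - a*b*z2 + 3*a*b^2 + 6*a^2*b) := by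
    linarith only [(mul_nonneg (sub_nonneg.2 hX) hb), (mul_nonneg (mul_nonneg ha hy2) hz2), (mul_nonneg hB hz2), (mul_nonneg (sub_nonneg.2 lp1) hB), (mul_nonneg (sub_nonneg.2 lq1) hB), (mul_nonneg hB hy2), (mul_nonneg hCu hb), (mul_nonneg hCv hb), (mul_nonneg (sub_nonneg.2 lp3) ha), (mul_nonneg (sub_nonneg.2 lq3) ha), (mul_nonneg (mul_nonneg ha hy2) hy2), (mul_nonneg (sq_nonneg (b - y1 - z1)) ha), (mul_nonneg (sub_nonneg.2 lp2) ha), (mul_nonneg (sq_nonneg (b - y2 - z2)) ha), (mul_nonneg (sub_nonneg.2 lq2) ha), (mul_nonneg (mul_nonneg ha hz2) hz2), (mul_nonneg (mul_nonneg ha ha) hb)]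
  have g13 : 0 ≤ (- 2*A + Cv + 3*a*b - a*y2 - a*z2 + 2*a^2 - b*y2 - b*z2 + b^2) := by
    linarith only [(sub_nonneg.2 hX), (sub_nonneg.2 lq2), hCv, (mul_nonneg ha hz2), (mul_nonneg (sub_nonneg.2 lq1) ha), (mul_nonneg ha hy2), (mul_nonneg ha ha), (sub_nonneg.2 lq3), (sq_nonneg (b - y2 - z2))]
  have g14 : 0 ≤ (- 2*A*b + B*a + B*b - B*y1 - B*z1 + Cu*b - a*b*y1 - a*b*z1 + a*b^2 + 2*a^2*b) := by
    linarith only [(mul_nonneg (sub_nonneg.2 hX) hb), (mul_nonneg (mul_nonneg ha hy1) hz1), (mul_nonneg (sub_nonneg.2 lp1) hB), (mul_nonneg hCu hb), (mul_nonneg (sub_nonneg.2 lp3) ha), (mul_nonneg (sq_nonneg (b - y1 - z1)) ha), (mul_nonneg (sub_nonneg.2 lp2) ha), (mul_nonneg (mul_nonneg ha ha) hb)]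
  have g15 : 0 ≤ (- 2*A + Cu + 3*a*b - a*y1 - a*z1 + 2*a^2 - b*y1 - b*z1 + b^2) := by
    linarith only [(sub_nonneg.2 hX), (sub_nonneg.2 lp2), hCu, (mul_nonneg ha hz1), (mul_nonneg (sub_nonneg.2 lp1) ha), (mul_nonneg ha hy1), (mul_nonneg ha ha), (sub_nonneg.2 lp3), (sq_nonneg (b - y1 - z1))]
  have g16 : (0:ℤ) ≤ (a + b) := by positivity
  have g17 : 0 ≤ (- 2*A*b + B*a + B*b - B*y2 - B*z2 + Cv*b - a*b*y2 - a*b*z2 + a*b^2 + 2*a^2*b) := by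
    linarith only [(mul_nonneg (sub_nonneg.2 hX) hb), (mul_nonneg (mul_nonneg ha hy2) hz2), (mul_nonneg (sub_nonneg.2 lq1) hB), (mul_nonneg hCv hb), (mul_nonneg (sub_nonneg.2 lq3) ha), (mul_nonneg (sq_nonneg (b - y2 - z2)) ha), (mul_nonneg (sub_nonneg.2 lq2) ha), (mul_nonneg (mul_nonneg ha ha) hb)]
  have g18 : 0 ≤ (- A*b^2 + B*a*b + a^2*b^2) := by
    linarith only [(mul_nonneg (mul_nonneg (sub_nonneg.2 hX) hb) hb), (mul_nonneg (mul_nonneg hB ha) hb), (mul_nonneg (mul_nonneg (mul_nonneg ha ha) hb) hb)]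
  have g19 : (0:ℤ) ≤ (2*B*b + a*b^2) := by positivity
  have g20 : 0 ≤ (2*a + 3*b - y1 - y2 - z1 - z2) := by
    linarith only [ha, hz2, (sub_nonneg.2 lp1), (sub_nonneg.2 lq1), hy2]
  have g21 : 0 ≤ (a + b - y1 - z1) := by
    linarith only [ha, (sub_nonneg.2 lp1)]
  have g22 : 0 ≤ (a + b - y2 - z2) := by
    linarith only [ha, (sub_nonneg.2 lq1)]
  have g23 : (0:ℤ) ≤ (b^2) := by positivity
  have g24 : 0 ≤ (- 2*A + 2*B + Cu + Cv + 3*a*b - a*y1 - a*y2 - a*z1 - a*z2 + 2*a^2 - b*y1 - b*y2 - b*z1 - b*z2 + b^2 + y1*z2 + y2*z1) := by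
    linarith only [(sub_nonneg.2 hX), (sub_nonneg.2 ls), hCu, hCv, (mul_nonneg ha hz2), (mul_nonneg (sub_nonneg.2 lp1) ha), (mul_nonneg (sub_nonneg.2 lq1) ha), (mul_nonneg ha hy2), (mul_nonneg ha ha), (mul_nonneg (sub_nonneg.2 lp1) (sub_nonneg.2 lq1)), (sub_nonneg.2 lr)]
  have g25 : 0 ≤ (- A - B + Cu + a*b - a*y1 - a*z1 + a^2 - b*y1 - b*z1 + b^2 + y1*z1) := by
    linarith only [(sub_nonneg.2 hX), (sub_nonneg.2 lp3), hCu, (mul_nonneg (sub_nonneg.2 lp1) ha), (mul_nonneg ha ha), (sq_nonneg (b - y1 - z1))]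
  have g26 : 0 ≤ (- A - B + Cv + a*b - a*y2 - a*z2 + a^2 - b*y2 - b*z2 + b^2 + y2*z2) := by
    linarith only [(sub_nonneg.2 hX), (sub_nonneg.2 lq3), hCv, (mul_nonneg (sub_nonneg.2 lq1) ha), (mul_nonneg ha ha), (sq_nonneg (b - y2 - z2))]
  have g27 : (0:ℤ) ≤ (2*B + 2*a*b + b^2) := by positivity
  have g28 : 0 ≤ (- 2*A*b + B*a + B*b + a*b^2 + 2*a^2*b) := by
    linarith only [(mul_nonneg (sub_nonneg.2 hX) hb), (mul_nonneg hB ha), (mul_nonneg hB hb), (mul_nonneg (mul_nonneg ha hb) hb), (mul_nonneg (mul_nonneg ha ha) hb)]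
  have g29 : 0 ≤ (- A*b^2 + B*a*b + B^2 + a^2*b^2) := by
    linarith only [(mul_nonneg (mul_nonneg (sub_nonneg.2 hX) hb) hb), (mul_nonneg (mul_nonneg hB ha) hb), (mul_nonneg hB hB), (mul_nonneg (mul_nonneg (mul_nonneg ha ha) hb) hb)]
  have g30 : 0 ≤ (- A - B + a*b + a^2 + b^2) := by
    linarith only [(sub_nonneg.2 hX), (sub_nonneg.2 lq3), (mul_nonneg ha hb), (mul_nonneg ha ha), (mul_nonneg hb hb), (mul_nonneg hy2 hy2), (mul_nonneg hz2 hz2)]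
  have pos := (Int.add_nonneg (Int.add_nonneg (Int.add_nonneg (Int.add_nonneg (Int.add_nonneg (Int.add_nonneg (Int.add_nonneg (Int.add_nonneg (Int.add_nonneg (Int.add_nonneg (Int.add_nonneg (Int.add_nonneg (Int.add_nonneg (Int.add_nonneg (Int.add_nonneg (Int.add_nonneg (Int.add_nonneg (Int.add_nonneg (Int.add_nonneg (Int.add_nonneg (Int.add_nonneg (Int.add_nonneg (Int.add_nonneg (Int.add_nonneg (Int.add_nonneg (Int.add_nonneg (Int.add_nonneg (Int.add_nonneg (Int.add_nonneg (Int.add_nonneg (Int.add_nonneg (Int.add_nonneg (Int.add_nonneg (Int.add_nonneg (Int.add_nonneg (Int.add_nonneg (Int.add_nonneg (Int.add_nonneg (Int.add_nonneg (Int.add_nonneg (Int.add_nonneg (Int.add_nonneg (Int.add_nonneg (Int.add_nonneg (Int.add_nonneg (Int.add_nonneg (Int.add_nonneg (Int.add_nonneg (Int.add_nonneg (Int.add_nonneg (Int.add_nonneg (Int.add_nonneg (Int.add_nonneg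 (Int.add_nonneg (Int.add_nonneg (Int.add_nonneg (Int.add_nonneg (Int.add_nonneg (Int.add_nonneg (Int.add_nonneg (Int.add_nonneg (Int.add_nonneg (Int.add_nonneg (Int.mul_nonneg (by norm_num : (0:ℤ) ≤ 1) (sq_nonneg (B*e - e*u*v)))
      (Int.mul_nonneg (by positivity : (0:ℤ) ≤ (e*t*u)) g0))
      (Int.mul_nonneg (by positivity : (0:ℤ) ≤ (e*t*u*v)) g1))
      (Int.mul_nonneg (by positivity : (0:ℤ) ≤ (e*t*u*v^2)) g2))
      (Int.mul_nonneg (by positivity : (0:ℤ) ≤ (e*t*u^2)) g3))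
      (Int.mul_nonneg (by positivity : (0:ℤ) ≤ (e*t*u^2*v)) g4))
      (Int.mul_nonneg (by positivity : (0:ℤ) ≤ (e*t*u^2*v^2)) g5))
      (Int.mul_nonneg (by positivity : (0:ℤ) ≤ (e*t*v)) g0))
      (Int.mul_nonneg (by positivity : (0:ℤ) ≤ (e*t*v^2)) g6))
      (Int.mul_nonneg (by positivity : (0:ℤ) ≤ (e*t^2*u)) g7))
      (Int.mul_nonneg (by positivity : (0:ℤ) ≤ (e*t^2*u*v)) g8))
      (Int.mul_nonneg (by positivity : (0:ℤ) ≤ (e*t^2*u*v^2)) g9))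
      (Int.mul_nonneg (by positivity : (0:ℤ) ≤ (e*t^2*u^2)) g10))
      (Int.mul_nonneg (by positivity : (0:ℤ) ≤ (e*t^2*u^2*v)) g9))
      (Int.mul_nonneg (by positivity : (0:ℤ) ≤ (e*t^2*v)) g7))
      (Int.mul_nonneg (by positivity : (0:ℤ) ≤ (e*t^2*v^2)) g10))
      (Int.mul_nonneg (by positivity : (0:ℤ) ≤ (e*u)) g11))
      (Int.mul_nonneg (by positivity : (0:ℤ) ≤ (e*u*v)) g12))
      (Int.mul_nonneg (by positivity : (0:ℤ) ≤ (e*u*v^2)) g13))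
      (Int.mul_nonneg (by positivity : (0:ℤ) ≤ (e*u^2)) g14))
      (Int.mul_nonneg (by positivity : (0:ℤ) ≤ (e*u^2*v)) g15))
      (Int.mul_nonneg (by positivity : (0:ℤ) ≤ (e*u^2*v^2)) g16))
      (Int.mul_nonneg (by positivity : (0:ℤ) ≤ (e*v)) g11))
      (Int.mul_nonneg (by positivity : (0:ℤ) ≤ (e*v^2)) g17))
      (Int.mul_nonneg (by positivity : (0:ℤ) ≤ (e^2)) g18))
      (Int.mul_nonneg (by positivity : (0:ℤ) ≤ (e^2*t)) g19))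
      (Int.mul_nonneg (by positivity : (0:ℤ) ≤ (e^2*t*u)) g3))
      (Int.mul_nonneg (by positivity : (0:ℤ) ≤ (e^2*t*u*v)) g20))
      (Int.mul_nonneg (by positivity : (0:ℤ) ≤ (e^2*t*u*v^2)) g5))
      (Int.mul_nonneg (by positivity : (0:ℤ) ≤ (e^2*t*u^2)) g21))
      (Int.mul_nonneg (by positivity : (0:ℤ) ≤ (e^2*t*u^2*v)) g5))
      (Int.mul_nonneg (by positivity : (0:ℤ) ≤ (e^2*t*v)) g6))
      (Int.mul_nonneg (by positivity : (0:ℤ) ≤ (e^2*t*v^2)) g22))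
      (Int.mul_nonneg (by positivity : (0:ℤ) ≤ (e^2*t^2)) g23))
      (Int.mul_nonneg (by positivity : (0:ℤ) ≤ (e^2*t^2*u)) g10))
      (Int.mul_nonneg (by positivity : (0:ℤ) ≤ (e^2*t^2*u*v)) g9))
      (Int.mul_nonneg (by positivity : (0:ℤ) ≤ (e^2*t^2*u^2)) g5))
      (Int.mul_nonneg (by positivity : (0:ℤ) ≤ (e^2*t^2*v)) g10))
      (Int.mul_nonneg (by positivity : (0:ℤ) ≤ (e^2*t^2*v^2)) g5))
      (Int.mul_nonneg (by positivity : (0:ℤ) ≤ (e^2*u)) g14))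
      (Int.mul_nonneg (by positivity : (0:ℤ) ≤ (e^2*u*v)) g24))
      (Int.mul_nonneg (by positivity : (0:ℤ) ≤ (e^2*u*v^2)) g22))
      (Int.mul_nonneg (by positivity : (0:ℤ) ≤ (e^2*u^2)) g25))
      (Int.mul_nonneg (by positivity : (0:ℤ) ≤ (e^2*u^2*v)) g21))
      (Int.mul_nonneg (by positivity : (0:ℤ) ≤ (e^2*v)) g17))
      (Int.mul_nonneg (by positivity : (0:ℤ) ≤ (e^2*v^2)) g26))
      (Int.mul_nonneg (by positivity : (0:ℤ) ≤ (t*u*v)) g0))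
      (Int.mul_nonneg (by positivity : (0:ℤ) ≤ (t*u*v^2)) g27))
      (Int.mul_nonneg (by positivity : (0:ℤ) ≤ (t*u^2)) g19))
      (Int.mul_nonneg (by positivity : (0:ℤ) ≤ (t*u^2*v)) g27))
      (Int.mul_nonneg (by positivity : (0:ℤ) ≤ (t*u^2*v^2)) g16))
      (Int.mul_nonneg (by positivity : (0:ℤ) ≤ (t*v^2)) g19))
      (Int.mul_nonneg (by positivity : (0:ℤ) ≤ (t^2*u*v)) g7))
      (Int.mul_nonneg (by positivity : (0:ℤ) ≤ (t^2*u*v^2)) g10))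
      (Int.mul_nonneg (by positivity : (0:ℤ) ≤ (t^2*u^2)) g23))
      (Int.mul_nonneg (by positivity : (0:ℤ) ≤ (t^2*u^2*v)) g10))
      (Int.mul_nonneg (by positivity : (0:ℤ) ≤ (t^2*u^2*v^2)) g5))
      (Int.mul_nonneg (by positivity : (0:ℤ) ≤ (t^2*v^2)) g23))
      (Int.mul_nonneg (by positivity : (0:ℤ) ≤ (u*v)) g11))
      (Int.mul_nonneg (by positivity : (0:ℤ) ≤ (u*v^2)) g28))
      (Int.mul_nonneg (by positivity : (0:ℤ) ≤ (u^2)) g29))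
      (Int.mul_nonneg (by positivity : (0:ℤ) ≤ (u^2*v)) g28))
      (Int.mul_nonneg (by positivity : (0:ℤ) ≤ (u^2*v^2)) g30))
      (Int.mul_nonneg (by positivity : (0:ℤ) ≤ (v^2)) g29))
  have key : (0:ℤ) ≤ 1 * ((B*e + B*u + B*v + a*b*e + a*b*u + a*b*v + a*e*u + a*e*v + a*u*v + b*e*t + b*e*u + b*e*v + b*t*u + b*t*v + b*u*v + e*t*u + e*t*v + e*u*v - e*u*y1 - e*v*y2 + t*u*v) * (B*e + B*u + B*v + a*b*e + a*b*u + a*b*v + a*e*u + a*e*v + a*u*v + b*e*t + b*e*u + b*e*v + b*t*u + b*t*v + b*u*v + e*t*u + e*t*v + e*u*v - e*u*z1 - e*v*z2 + t*u*v) - (b*e + b*u + b*v + e*u + e*v + u*v) * (A*b*e + A*b*u + A*b*v + A*e*u + A*e*v + A*u*v + B*a*e + B*a*u + B*a*v + B*e*u + B*e*v + B*u*v - Cu*e*u - Cv*e*v + a*b*e*t + a*b*e*u + a*b*e*v + a*b*t*u + a*b*t*v + a*b*u*v + a*e*t*u + a*e*t*v + a*e*u*v + a*t*u*v + b*e*t*u + b*e*t*v + b*e*u*v + b*t*u*v + e*t*u*v)) := pos.trans_eq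 (by ring)
  exact RR.of_aff (fun i j => by unfold PP; ring) (by norm_num) key

end Pool.Agent.H.MP_b989b4_co
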