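import Pool.Agent.H.MP_b989b4_co.Base
set_option linter.unusedVariables false

namespace Pool.Agent.H.MP_b989b4_co

lemma r_xy (t e u v a b A B Cu Cv y1 y2 z1 z2 du dv : ℤ)
    (ht : 0 ≤ t)    (he : 0 ≤ e)    (hu : 0 ≤ u)    (hv : 0 ≤ v)    (ha : 0 ≤ a)    (hb : 0 ≤ b)    (hA : 0 ≤ A)    (hB : 0 ≤ B)    (hCu : 0 ≤ Cu)    (hCv : 0 ≤ Cv)    (hy1 : 0 ≤ y1)    (hy2 : 0 ≤ y2)    (hz1 : 0 ≤ z1)    (hz2 : 0 ≤ z2)    (hdu : 0 ≤ du)    (hdv : 0 ≤ dv)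
    (hN : Cu + Cv ≤ a * b)
    (ly1 : y1 + y2 ≤ b)
    (ly2 : y1 * y2 ≤ B)
    (ly3 : y1 ^ 2 + y2 ^ 2 + 2 * B ≤ b ^ 2)
    (lz1 : z1 + z2 ≤ a)
    (lz2 : z1 * z2 ≤ A)
    (lz3 : z1 ^ 2 + z2 ^ 2 + 2 * A ≤ a ^ 2)
    : RR (fun i j => (PP (t) (e) (u) (v) (a + i) (b + j) (A + a*i) (B + b*j) (Cu + du*i*j + i*y1 + j*z1) (Cv + dv*i*j + i*y2 + j*z2))) := by
  have g0 : (0:ℤ) ≤ (4*a*b) := by positivity
  have g1 : (0:ℤ) ≤ (4*a + 4*b) := by positivity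
  have g2 : (0:ℤ) ≤ (4*A*b + 4*B*a) := by positivity
  have g3 : (0:ℤ) ≤ (4*A + 4*B + 4*a*b) := by positivity
  have g4 : (0:ℤ) ≤ (4) := by positivity
  have g5 : 0 ≤ (4*A + 4*B - 4*Cv + 4*a*b) := by
    linarith only [hA, hB, hCu, (sub_nonneg.2 hN)]
  have g6 : 0 ≤ (4*A + 4*B - 4*Cu + 4*a*b) := by
    linarith only [hA, hB, (sub_nonneg.2 hN), hCv]
  have g7 : (0:ℤ) ≤ (4*Cu + 4*Cv) := by positivity
  have g8 : 0 ≤ (4*a + 4*b - 4*y2 - 4*z2) := by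
    linarith only [(sub_nonneg.2 lz1), (sub_nonneg.2 ly1), hy1, hz1]
  have g9 : (0:ℤ) ≤ (4*Cu) := by positivity
  have g10 : 0 ≤ (4*a + 4*b - 4*y1 - 4*z1) := by
    linarith only [(sub_nonneg.2 lz1), (sub_nonneg.2 ly1), hy2, hz2]
  have g11 : (0:ℤ) ≤ (4*Cv) := by positivity
  have g12 : 0 ≤ (8*A*B - 8*A*b^2 - 8*B*a^2 - 4*a*b*y1*z1 - 4*a*b*y2*z2 + 8*a^2*b^2 - 2*a^2*y1^2 - 2*a^2*y2^2 - 2*b^2*z1^2 - 2*b^2*z2^2) := by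
    linarith only [mul_nonneg (sq_nonneg a) (sub_nonneg.2 ly3), mul_nonneg (sq_nonneg b) (sub_nonneg.2 lz3), sq_nonneg (a*b - y1*z1 - y2*z2), sq_nonneg (y1*z2 - y2*z1), mul_nonneg (sub_nonneg.2 lz3) (sub_nonneg.2 ly3), mul_nonneg (sub_nonneg.2 lz3) (sq_nonneg y1), mul_nonneg (sub_nonneg.2 lz3) (sq_nonneg y2), mul_nonneg (sub_nonneg.2 ly3) (sq_nonneg z1), mul_nonneg (sub_nonneg.2 ly3) (sq_nonneg z2)]
  have g13 : 0 ≤ (- 12*A*b - 4*A*y1 - 4*A*y2 - 12*B*a - 4*B*z1 - 4*B*z2 + 4*Cu*a + 4*Cu*b + 4*Cv*a + 4*Cv*b - 2*a*b*y1 - 2*a*b*y2 - 2*a*b*z1 - 2*a*b*z2 + 12*a*b^2 - 2*a*y1*z1 - 2*a*y1^2 - 2*a*y2*z2 - 2*a*y2^2 + 12*a^2*b + 2*a^2*y1 + 2*a^2*y2 - 2*b*y1*z1 - 2*b*y2*z2 - 2*b*z1^2 - 2*b*z2^2 + 2*b^2*z1 + 2*b^2*z2) := by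
    linarith only [(mul_nonneg (mul_nonneg (sub_nonneg.2 lz1) hb) hb), (mul_nonneg (mul_nonneg hb hz1) hz1), (mul_nonneg (mul_nonneg hy1 hz1) hz1), (mul_nonneg (mul_nonneg (sub_nonneg.2 lz1) hy2) hy2), (mul_nonneg (mul_nonneg hy1 hy1) hz1), (mul_nonneg (mul_nonneg hb hb) hz1), (mul_nonneg hCu ha), (mul_nonneg hCu hb), (mul_nonneg hCv ha), (mul_nonneg hCv hb), (mul_nonneg (sq_nonneg (b - y1)) ha), (mul_nonneg (sq_nonneg (a - z2)) hy2), (mul_nonneg (sq_nonneg (a - z2)) hb), (mul_nonneg (mul_nonneg hb hb) hz2), (mul_nonneg (mul_nonneg hy1 hz2) hz2), (mul_nonneg (sub_nonneg.2 ly3) ha), (mul_nonneg (mul_nonneg hy2 hy2) hz2), (mul_nonneg (mul_nonneg ha ha) hb), (mul_nonneg (sub_nonneg.2 lz3) hy1), (mul_nonneg (sub_nonneg.2 lz3) hy2), (mul_nonneg (sq_nonneg (b - y2)) hz2), (mul_nonneg (mul_nonneg (sub_nonneg.2 ly1) hz2)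 hz2), (mul_nonneg (sq_nonneg (b - y1)) hz1), (mul_nonneg (sq_nonneg (b - y2)) ha), (mul_nonneg (mul_nonneg hy1 hy1) hz2), (mul_nonneg (sq_nonneg (a - z1)) hy1), (mul_nonneg (sub_nonneg.2 lz3) hb), (mul_nonneg (sq_nonneg (a - z1)) hb), (mul_nonneg (mul_nonneg hy2 hz1) hz1), (mul_nonneg (mul_nonneg ha hy1) hy1), (mul_nonneg (mul_nonneg hy2 hz2) hz2), (mul_nonneg (sub_nonneg.2 ly3) hz2), (mul_nonneg (mul_nonneg (sub_nonneg.2 ly1) ha) ha), (mul_nonneg (sub_nonneg.2 ly3) hz1), (mul_nonneg (mul_nonneg hy2 hy2) hz1)]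
  have g14 : 0 ≤ (- 4*A - 4*B + 4*Cv + 8*a*b - 4*a*y2 - 4*a*z2 + 4*a^2 - 4*b*y2 - 4*b*z2 + 4*b^2) := by
    linarith only [(sub_nonneg.2 lz3), hCv, (mul_nonneg (sub_nonneg.2 ly1) ha), (mul_nonneg (sub_nonneg.2 lz1) hy1), (mul_nonneg (sub_nonneg.2 lz1) hy2), (sq_nonneg (y1 + z1)), (mul_nonneg hy1 hz2), (mul_nonneg hy2 hz1), (sq_nonneg (a + b - y2 - z2)), (sub_nonneg.2 ly3)]
  have g15 : 0 ≤ (- 4*A*b - 4*A*y1 - 4*B*a - 4*B*z1 + 4*Cu*a + 4*Cu*b - 2*a*b*y1 - 2*a*b*z1 + 4*a*b^2 - 2*a*y1*z1 - 2*a*y1^2 + 4*a^2*b + 2*a^2*y1 - 2*b*y1*z1 - 2*b*z1^2 + 2*b^2*z1) := by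
    linarith only [(mul_nonneg (mul_nonneg hb hz2) hz2), (mul_nonneg (mul_nonneg ha hy2) hy2), (mul_nonneg (sq_nonneg (b - y1)) ha), (mul_nonneg hCu ha), (mul_nonneg hCu hb), (mul_nonneg (sub_nonneg.2 ly1) hA), (mul_nonneg (sq_nonneg (a - z1)) hb), (mul_nonneg (sub_nonneg.2 lz3) hy1), (mul_nonneg (sub_nonneg.2 lz1) hB), (mul_nonneg hB hz2), (mul_nonneg (sub_nonneg.2 ly3) hz1), (mul_nonneg hA hy2), (mul_nonneg (sub_nonneg.2 ly3) ha), (mul_nonneg (sub_nonneg.2 lz3) hb), (mul_nonneg (sq_nonneg (a - z1)) hy1), (mul_nonneg (mul_nonneg hy1 hz2) hz2), (mul_nonneg (sq_nonneg (b - y1)) hz1), (mul_nonneg (mul_nonneg hy2 hy2) hz1)]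
  have g16 : 0 ≤ (- 4*A - 4*B + 4*Cu + 8*a*b - 4*a*y1 - 4*a*z1 + 4*a^2 - 4*b*y1 - 4*b*z1 + 4*b^2) := by
    linarith only [(sub_nonneg.2 lz3), hCu, (mul_nonneg (sub_nonneg.2 ly1) ha), (mul_nonneg (sub_nonneg.2 lz1) hy2), (mul_nonneg (sub_nonneg.2 lz1) hy1), (sq_nonneg (a + b - y1 - z1)), (mul_nonneg hy1 hz2), (mul_nonneg hy2 hz1), (sq_nonneg (y2 + z2)), (sub_nonneg.2 ly3)]
  have g17 : 0 ≤ (- 4*A*b - 4*A*y2 - 4*B*a - 4*B*z2 + 4*Cv*a + 4*Cv*b - 2*a*b*y2 - 2*a*b*z2 + 4*a*b^2 - 2*a*y2*z2 - 2*a*y2^2 + 4*a^2*b + 2*a^2*y2 - 2*b*y2*z2 - 2*b*z2^2 + 2*b^2*z2) := by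
    linarith only [(mul_nonneg (mul_nonneg hb hz1) hz1), (mul_nonneg (sq_nonneg (a - z2)) hb), (mul_nonneg (mul_nonneg ha hy1) hy1), (mul_nonneg hB hz1), (mul_nonneg hCv ha), (mul_nonneg hCv hb), (mul_nonneg (sub_nonneg.2 lz3) hy2), (mul_nonneg (sq_nonneg (b - y2)) ha), (mul_nonneg (sub_nonneg.2 ly3) hz2), (mul_nonneg (sub_nonneg.2 ly3) ha), (mul_nonneg (sub_nonneg.2 lz3) hb), (mul_nonneg hA hy1), (mul_nonneg (mul_nonneg hy1 hy1) hz2), (mul_nonneg (mul_nonneg hy2 hz1) hz1), (mul_nonneg (sq_nonneg (a - z2)) hy2), (mul_nonneg (sub_nonneg.2 lz1) hB), (mul_nonneg (sq_nonneg (b - y2)) hz2), (mul_nonneg (sub_nonneg.2 ly1) hA)]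
  have g18 : 0 ≤ (4*A*B - 4*A*b^2 - 4*B*a^2 - 2*a*b*y1*z1 - 2*a*b*y2*z2 + 4*a^2*b^2 - a^2*y1^2 - a^2*y2^2 - b^2*z1^2 - b^2*z2^2) := by
    linarith only [mul_nonneg (sq_nonneg a) (sub_nonneg.2 ly3), mul_nonneg (sq_nonneg b) (sub_nonneg.2 lz3), sq_nonneg (a*b - y1*z1 - y2*z2), sq_nonneg (y1*z2 - y2*z1), mul_nonneg (sub_nonneg.2 lz3) (sub_nonneg.2 ly3), mul_nonneg (sub_nonneg.2 lz3) (sq_nonneg y1), mul_nonneg (sub_nonneg.2 lz3) (sq_nonneg y2), mul_nonneg (sub_nonneg.2 ly3) (sq_nonneg z1), mul_nonneg (sub_nonneg.2 ly3) (sq_nonneg z2)]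
  have g19 : 0 ≤ (4*a + 4*b - 4*y1 - 4*y2 - 4*z1 - 4*z2) := by
    linarith only [(sub_nonneg.2 lz1), (sub_nonneg.2 ly1)]
  have g20 : 0 ≤ (- 4*A - 4*B + 4*Cu + 4*Cv + 8*a*b - 4*a*y1 - 4*a*y2 - 4*a*z1 - 4*a*z2 + 4*a^2 - 4*b*y1 - 4*b*y2 - 4*b*z1 - 4*b*z2 + 4*b^2 + 4*y1*y2 + 4*z1*z2) := by
    linarith only [(sub_nonneg.2 lz3), (sub_nonneg.2 ly3), hCu, hCv, (mul_nonneg (sub_nonneg.2 lz1) hb), (mul_nonneg (sub_nonneg.2 ly1) ha), (sq_nonneg (b - y1 - y2)), (sq_nonneg (a - z1 - z2))]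
  have g21 : 0 ≤ (- 4*A - 4*B + 4*Cu + 2*a*b - 2*a*y1 - 2*a*z1 + 3*a^2 - 2*b*y1 - 2*b*z1 + 3*b^2 + 2*y1*z1 - y1^2 + 4*y2*z2 - 2*y2^2 - z1^2 - 2*z2^2) := by
    linarith only [(sub_nonneg.2 lz3), (sub_nonneg.2 ly3), hCu, (sq_nonneg (a + b - y1 - z1)), (mul_nonneg hy2 hz2)]
  have g22 : 0 ≤ (- 4*A - 4*B + 4*Cv + 2*a*b - 2*a*y2 - 2*a*z2 + 3*a^2 - 2*b*y2 - 2*b*z2 + 3*b^2 + 4*y1*z1 - 2*y1^2 + 2*y2*z2 - y2^2 - 2*z1^2 - z2^2) := by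
    linarith only [(sub_nonneg.2 lz3), (sub_nonneg.2 ly3), hCv, (sq_nonneg (a + b - y2 - z2)), (mul_nonneg hy1 hz1)]
  have g23 : 0 ≤ (- 4*A*b - 4*B*a + 4*a*b^2 + 4*a^2*b) := by
    linarith only [(mul_nonneg (mul_nonneg ha ha) hy1), (mul_nonneg (mul_nonneg ha hy2) hy2), (mul_nonneg (mul_nonneg ha hb) hb), (mul_nonneg (mul_nonneg ha hy2) hz2), (mul_nonneg (mul_nonneg (sub_nonneg.2 ly1) hz2) hz2), (mul_nonneg (sub_nonneg.2 ly3) ha), (mul_nonneg (sub_nonneg.2 lz3) hb), (mul_nonneg (mul_nonneg hb hz1) hz1), (mul_nonneg (mul_nonneg ha hy1) hy1), (mul_nonneg (sq_nonneg (a - z2)) hy2), (mul_nonneg (mul_nonneg hy1 hz2) hz2), (mul_nonneg (mul_nonneg (sub_nonneg.2 ly1) ha) ha)]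
  have g24 : 0 ≤ (- 4*A - 4*B + 4*a*b + 4*a^2 + 4*b^2) := by
    linarith only [(sub_nonneg.2 lz3), (sub_nonneg.2 ly3), (sq_nonneg (a + b - y2 - z2)), (mul_nonneg (sub_nonneg.2 lz1) hy2), (mul_nonneg hy1 hy1), (mul_nonneg ha hz2), (mul_nonneg hb hy2), (mul_nonneg hb hz2), (mul_nonneg hy2 hz1), (mul_nonneg hz1 hz1)]
  have pos := (Int.add_nonneg (Int.add_nonneg (Int.add_nonneg (Int.add_nonneg (Int.add_nonneg (Int.add_nonneg (Int.add_nonneg (Int.add_nonneg (Int.add_nonneg (Int.add_nonneg (Int.add_nonneg (Int.add_nonneg (Int.add_nonneg (Int.add_nonneg (Int.add_nonneg (Int.add_nonneg (Int.add_nonneg (Int.add_nonneg (Int.add_nonneg (Int.add_nonneg (Int.add_nonneg (Int.add_nonneg (Int.add_nonneg (Int.add_nonneg (Int.add_nonneg (Int.add_nonneg (Int.add_nonneg (Int.add_nonneg (Int.add_nonneg (Int.add_nonneg (Int.add_nonneg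 (Int.add_nonneg (Int.add_nonneg (Int.add_nonneg (Int.add_nonneg (Int.add_nonneg (Int.add_nonneg (Int.add_nonneg (Int.add_nonneg (Int.add_nonneg (Int.add_nonneg (Int.add_nonneg (Int.add_nonneg (Int.add_nonneg (Int.add_nonneg (Int.add_nonneg (Int.add_nonneg (Int.add_nonneg (Int.add_nonneg (Int.add_nonneg (Int.add_nonneg (Int.add_nonneg (Int.add_nonneg (Int.add_nonneg (Int.add_nonneg (Int.add_nonneg (Int.add_nonneg (Int.add_nonneg (Int.add_nonneg (Int.add_nonneg (Int.add_nonneg (Int.add_nonneg (Int.add_nonneg (Int.add_nonneg (Int.add_nonneg (Int.add_nonneg (Int.add_nonneg (Int.add_nonneg (Int.add_nonneg (Int.mul_nonneg (by norm_num : (0:ℤ) ≤ 1) (sq_nonneg (a*e*u - a*e*y1 - a*u*y1 - a*v*y1 + b*e*u - b*e*z1 - b*u*z1 - b*v*z1 + 2*e*t*u - e*u*y1 - e*u*z1)))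
      (Int.mul_nonneg (by norm_num : (0:ℤ) ≤ 1) (sq_nonneg (a*e*v - a*e*y2 - a*u*y2 - a*v*y2 + b*e*v - b*e*z2 - b*u*z2 - b*v*z2 + 2*e*t*v - e*v*y2 - e*v*z2))))
      (Int.mul_nonneg (by norm_num : (0:ℤ) ≤ 2) (sq_nonneg (- e*u*y2 + e*u*z2 + e*v*y1 - e*v*z1))))
      (Int.mul_nonneg (by positivity : (0:ℤ) ≤ (du*e*t*u*v)) g0))
      (Int.mul_nonneg (by positivity : (0:ℤ) ≤ (du*e*t*u^2)) g0))
      (Int.mul_nonneg (by positivity : (0:ℤ) ≤ (du*e*t*u^2*v)) g1))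
      (Int.mul_nonneg (by positivity : (0:ℤ) ≤ (du*e*u*v)) g2))
      (Int.mul_nonneg (by positivity : (0:ℤ) ≤ (du*e*u^2)) g2))
      (Int.mul_nonneg (by positivity : (0:ℤ) ≤ (du*e*u^2*v)) g3))
      (Int.mul_nonneg (by positivity : (0:ℤ) ≤ (du*e^2*t*u)) g0))
      (Int.mul_nonneg (by positivity : (0:ℤ) ≤ (du*e^2*t*u*v)) g1))
      (Int.mul_nonneg (by positivity : (0:ℤ) ≤ (du*e^2*t*u^2)) g1))
      (Int.mul_nonneg (by positivity : (0:ℤ) ≤ (du*e^2*t*u^2*v)) g4))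
      (Int.mul_nonneg (by positivity : (0:ℤ) ≤ (du*e^2*u)) g2))
      (Int.mul_nonneg (by positivity : (0:ℤ) ≤ (du*e^2*u*v)) g5))
      (Int.mul_nonneg (by positivity : (0:ℤ) ≤ (du*e^2*u^2)) g6))
      (Int.mul_nonneg (by positivity : (0:ℤ) ≤ (du*e^2*u^2*v)) g1))
      (Int.mul_nonneg (by positivity : (0:ℤ) ≤ (dv*e*t*u*v)) g0))
      (Int.mul_nonneg (by positivity : (0:ℤ) ≤ (dv*e*t*u*v^2)) g1))
      (Int.mul_nonneg (by positivity : (0:ℤ) ≤ (dv*e*t*v^2)) g0))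
      (Int.mul_nonneg (by positivity : (0:ℤ) ≤ (dv*e*u*v)) g2))
      (Int.mul_nonneg (by positivity : (0:ℤ) ≤ (dv*e*u*v^2)) g3))
      (Int.mul_nonneg (by positivity : (0:ℤ) ≤ (dv*e*v^2)) g2))
      (Int.mul_nonneg (by positivity : (0:ℤ) ≤ (dv*e^2*t*u*v)) g1))
      (Int.mul_nonneg (by positivity : (0:ℤ) ≤ (dv*e^2*t*u*v^2)) g4))
      (Int.mul_nonneg (by positivity : (0:ℤ) ≤ (dv*e^2*t*v)) g0))
      (Int.mul_nonneg (by positivity : (0:ℤ) ≤ (dv*e^2*t*v^2)) g1))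
      (Int.mul_nonneg (by positivity : (0:ℤ) ≤ (dv*e^2*u*v)) g6))
      (Int.mul_nonneg (by positivity : (0:ℤ) ≤ (dv*e^2*u*v^2)) g1))
      (Int.mul_nonneg (by positivity : (0:ℤ) ≤ (dv*e^2*v)) g2))
      (Int.mul_nonneg (by positivity : (0:ℤ) ≤ (dv*e^2*v^2)) g5))
      (Int.mul_nonneg (by positivity : (0:ℤ) ≤ (e*t*u*v)) g7))
      (Int.mul_nonneg (by positivity : (0:ℤ) ≤ (e*t*u*v^2)) g8))
      (Int.mul_nonneg (by positivity : (0:ℤ) ≤ (e*t*u^2)) g9))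
      (Int.mul_nonneg (by positivity : (0:ℤ) ≤ (e*t*u^2*v)) g10))
      (Int.mul_nonneg (by positivity : (0:ℤ) ≤ (e*t*u^2*v^2)) g4))
      (Int.mul_nonneg (by positivity : (0:ℤ) ≤ (e*t*v^2)) g11))
      (Int.mul_nonneg (by positivity : (0:ℤ) ≤ (e*t^2*u*v^2)) g4))
      (Int.mul_nonneg (by positivity : (0:ℤ) ≤ (e*t^2*u^2*v)) g4))
      (Int.mul_nonneg (by positivity : (0:ℤ) ≤ (e*u)) g12))
      (Int.mul_nonneg (by positivity : (0:ℤ) ≤ (e*u*v)) g13))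
      (Int.mul_nonneg (by positivity : (0:ℤ) ≤ (e*u*v^2)) g14))
      (Int.mul_nonneg (by positivity : (0:ℤ) ≤ (e*u^2)) g15))
      (Int.mul_nonneg (by positivity : (0:ℤ) ≤ (e*u^2*v)) g16))
      (Int.mul_nonneg (by positivity : (0:ℤ) ≤ (e*u^2*v^2)) g1))
      (Int.mul_nonneg (by positivity : (0:ℤ) ≤ (e*v)) g12))
      (Int.mul_nonneg (by positivity : (0:ℤ) ≤ (e*v^2)) g17))
      (Int.mul_nonneg (by positivity : (0:ℤ) ≤ (e^2)) g18))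
      (Int.mul_nonneg (by positivity : (0:ℤ) ≤ (e^2*t*u)) g9))
      (Int.mul_nonneg (by positivity : (0:ℤ) ≤ (e^2*t*u*v)) g19))
      (Int.mul_nonneg (by positivity : (0:ℤ) ≤ (e^2*t*u*v^2)) g4))
      (Int.mul_nonneg (by positivity : (0:ℤ) ≤ (e^2*t*u^2*v)) g4))
      (Int.mul_nonneg (by positivity : (0:ℤ) ≤ (e^2*t*v)) g11))
      (Int.mul_nonneg (by positivity : (0:ℤ) ≤ (e^2*t^2*u*v)) g4))
      (Int.mul_nonneg (by positivity : (0:ℤ) ≤ (e^2*u)) g15))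
      (Int.mul_nonneg (by positivity : (0:ℤ) ≤ (e^2*u*v)) g20))
      (Int.mul_nonneg (by positivity : (0:ℤ) ≤ (e^2*u*v^2)) g8))
      (Int.mul_nonneg (by positivity : (0:ℤ) ≤ (e^2*u^2)) g21))
      (Int.mul_nonneg (by positivity : (0:ℤ) ≤ (e^2*u^2*v)) g10))
      (Int.mul_nonneg (by positivity : (0:ℤ) ≤ (e^2*u^2*v^2)) g4))
      (Int.mul_nonneg (by positivity : (0:ℤ) ≤ (e^2*v)) g17))
      (Int.mul_nonneg (by positivity : (0:ℤ) ≤ (e^2*v^2)) g22))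
      (Int.mul_nonneg (by positivity : (0:ℤ) ≤ (t*u^2*v^2)) g1))
      (Int.mul_nonneg (by positivity : (0:ℤ) ≤ (t^2*u^2*v^2)) g4))
      (Int.mul_nonneg (by positivity : (0:ℤ) ≤ (u*v)) g12))
      (Int.mul_nonneg (by positivity : (0:ℤ) ≤ (u*v^2)) g23))
      (Int.mul_nonneg (by positivity : (0:ℤ) ≤ (u^2)) g18))
      (Int.mul_nonneg (by positivity : (0:ℤ) ≤ (u^2*v)) g23))
      (Int.mul_nonneg (by positivity : (0:ℤ) ≤ (u^2*v^2)) g24))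
      (Int.mul_nonneg (by positivity : (0:ℤ) ≤ (v^2)) g18))
  have key : (0:ℤ) ≤ 4 * ((B*e + B*u + B*v + a*b*e + a*b*u + a*b*v + a*e*u + a*e*v + a*u*v + b*e*t + b*e*u + b*e*v + b*t*u + b*t*v + b*u*v + e*t*u + e*t*v + e*u*v - e*u*y1 - e*v*y2 + t*u*v) * (A*e + A*u + A*v + a*b*e + a*b*u + a*b*v + a*e*t + a*e*u + a*e*v + a*t*u + a*t*v + a*u*v + b*e*u + b*e*v + b*u*v + e*t*u + e*t*v + e*u*v - e*u*z1 - e*v*z2 + t*u*v) - (a*e + a*u + a*v + b*e + b*u + b*v - du*e*u - dv*e*v + e*t + e*u + e*v + t*u + t*v + u*v) * (A*b*e + A*b*u + A*b*v + A*e*u + A*e*v + A*u*v + B*a*e + B*a*u + B*a*v + B*e*u + B*e*v + B*u*v - Cu*e*u - Cv*e*v + a*b*e*t + a*b*e*u + a*b*e*v + a*b*t*u + a*b*t*v + a*b*u*v + a*e*t*u + a*e*t*v + a*e*u*v + a*t*u*v + b*e*t*u + b*e*t*v + b*e*u*v + b*t*u*v + e*t*u*v)) := pos.trans_eq (by ring)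
  exact RR.of_aff (fun i j => by unfold PP; ring) (by norm_num) key

end Pool.Agent.H.MP_b989b4_co
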