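import Pool.Agent.H.MP_b989b4_co.Agg
import Pool.Agent.H.MP_b989b4_co.P1
import Pool.Agent.H.MP_b989b4_co.P2
import Pool.Agent.H.MP_b989b4_co.P3
import Pool.Agent.H.MP_b989b4_co.P4
import Pool.Agent.H.MP_b989b4_co.Box
set_option linter.unusedSectionVars false

namespace Pool.Agent.H.MP_b989b4_co
open Finset Function
variable {ι : Type*} [Fintype ι] [DecidableEq ι] {σ τ : ι ≃ ι} {x y : ι → ℤ} {t e u v : ℤ}

lemma hst_symm (hst : ∀ i, σ i ≠ τ i) : ∀ j, σ.symm j ≠ τ.symm j := by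
  intro j h
  apply hst (σ.symm j)
  rw [σ.apply_symm_apply, h, τ.apply_symm_apply]

lemma wlog1 (hx : ∀ j, 0 ≤ x j) (k : ι) : ∃ x0 : ι → ℤ, (∀ j, 0 ≤ x0 j) ∧ x0 k = 0 ∧
    (∀ c, update x k c = update x0 k c) ∧ ∀ j, x0 j ≤ x j := by
  refine ⟨update x k 0, upd_nonneg hx k le_rfl, by simp, by simp, fun j => ?_⟩
  by_cases hj : j = k
  · subst hj; simpa using hx j
  · rw [update_of_ne hj]

lemma wlog2 (hx : ∀ j, 0 ≤ x j) {k l : ι} (hkl : k ≠ l) : ∃ x0 : ι → ℤ, (∀ j, 0 ≤ x0 j) ∧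
    x0 k = 0 ∧ x0 l = 0 ∧ (∀ c d, update (update x l d) k c = update (update x0 l d) k c) := by
  refine ⟨update (update x l 0) k 0, upd_nonneg (upd_nonneg hx l le_rfl) k le_rfl, by simp,
    by simp [update_of_ne hkl.symm], fun c d => ?_⟩
  funext j
  simp only [update_apply]
  split_ifs <;> rfl

lemma q_tu (he : 0 ≤ e) (hv : 0 ≤ v) (hx : ∀ j, 0 ≤ x j) (hy : ∀ j, 0 ≤ y j) :
    RR (fun i j => Q σ τ i e j v x y) :=
  r_tu _ _ _ _ _ _ _ _ he hv (S_nn hx) (S_nn hy) (A_nn hx) (A_nn hy) (C_nn σ hx hy) (C_nn τ hx hy)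
    (hX x) (hX y) (hK σ x y) (hL σ hx hy)

lemma q_eu (hst : ∀ i, σ i ≠ τ i) (ht : 0 ≤ t) (hv : 0 ≤ v) (hx : ∀ j, 0 ≤ x j)
    (hy : ∀ j, 0 ≤ y j) : RR (fun i j => Q σ τ t i j v x y) :=
  r_eu _ _ _ _ _ _ _ _ ht hv (S_nn hx) (S_nn hy) (A_nn hx) (A_nn hy) (C_nn σ hx hy) (C_nn τ hx hy)
    (hN hst hx hy) (hK τ x y)

lemma q_uv (hst : ∀ i, σ i ≠ τ i) (ht : 0 ≤ t) (he : 0 ≤ e) (hx : ∀ j, 0 ≤ x j)
    (hy : ∀ j, 0 ≤ y j) : RR (fun i j => Q σ τ t e i j x y) :=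
  r_uv _ _ _ _ _ _ _ _ ht he (S_nn hx) (S_nn hy) (A_nn hx) (A_nn hy) (C_nn σ hx hy) (C_nn τ hx hy)
    (hN hst hx hy) (hJ hst hx hy)

lemma q_tx (hst : ∀ i, σ i ≠ τ i) (he : 0 ≤ e) (hu : 0 ≤ u) (hv : 0 ≤ v) (hx : ∀ j, 0 ≤ x j)
    (hy : ∀ j, 0 ≤ y j) (k : ι) : RR (fun i j => Q σ τ i e u v (update x k j) y) := by
  obtain ⟨x, hx, hk, hE, -⟩ := wlog1 hx k
  refine (r_tx _ _ _ _ _ _ _ _ _ _ _ he hu hv (S_nn hx) (S_nn hy) (A_nn hx) (A_nn hy)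
    (C_nn σ hx hy) (C_nn τ hx hy) (hy (σ k)) (hy (τ k)) (hX x) (loc1 hy (hst k)) (loc2 hy (hst k))
    (loc3 y (hst k))).congr fun i j => ?_
  rw [hE]; unfold Q
  rw [S_upd hk, A_upd hk, C_upd σ hk, C_upd τ hk]; unfold PP; ring

lemma q_xx (hst : ∀ i, σ i ≠ τ i) (ht : 0 ≤ t) (he : 0 ≤ e) (hu : 0 ≤ u) (hv : 0 ≤ v)
    (hx : ∀ j, 0 ≤ x j) (hy : ∀ j, 0 ≤ y j) {k l : ι} (hkl : k ≠ l) :
    RR (fun i j => Q σ τ t e u v (update (update x l j) k i) y) := by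
  obtain ⟨x, hx, hk, hl, hE⟩ := wlog2 hx hkl
  have s1 := σ.injective.ne hkl
  have s2 := τ.injective.ne hkl
  refine (r_xx _ _ _ _ _ _ _ _ _ _ _ _ _ _ ht he hu hv (S_nn hx) (S_nn hy) (A_nn hx) (A_nn hy)
    (C_nn σ hx hy) (C_nn τ hx hy) (hy (σ k)) (hy (τ k)) (hy (σ l)) (hy (τ l)) (hX x)
    (loc1 hy s1) (loc2 hy s1) (loc3 y s1) (loc1 hy s2) (loc2 hy s2) (loc3 y s2)
    (loc2 hy (hst k)) (loc2 hy (hst l))).congr fun i j => ?_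
  have hk' : update x l j k = 0 := by rw [update_of_ne hkl, hk]
  rw [hE]; unfold Q
  rw [S_upd hk', A_upd hk', C_upd σ hk', C_upd τ hk', S_upd hl, A_upd hl, C_upd σ hl, C_upd τ hl]
  unfold PP; ring

lemma ite_nn (p : Prop) [Decidable p] : (0:ℤ) ≤ if p then 1 else 0 := by split_ifs <;> norm_num

lemma q_xy (hst : ∀ i, σ i ≠ τ i) (ht : 0 ≤ t) (he : 0 ≤ e) (hu : 0 ≤ u) (hv : 0 ≤ v)
    (hx : ∀ j, 0 ≤ x j) (hy : ∀ j, 0 ≤ y j) (k l : ι) :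
    RR (fun i j => Q σ τ t e u v (update x k i) (update y l j)) := by
  obtain ⟨x, hx, hk, hE, -⟩ := wlog1 hx k
  obtain ⟨y, hy, hl, hF, -⟩ := wlog1 hy l
  have s := hst_symm hst l
  refine (r_xy _ _ _ _ _ _ _ _ _ _ _ _ _ _ _ _ ht he hu hv (S_nn hx) (S_nn hy) (A_nn hx) (A_nn hy)
    (C_nn σ hx hy) (C_nn τ hx hy) (hy (σ k)) (hy (τ k)) (hx (σ.symm l)) (hx (τ.symm l))
    (ite_nn (σ k = l)) (ite_nn (τ k = l)) (hN hst hx hy)
    (loc1 hy (hst k)) (loc2 hy (hst k)) (loc3 y (hst k)) (loc1 hx s) (loc2 hx s)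
    (loc3 x s)).congr fun i j => ?_
  rw [hE, hF]; unfold Q
  rw [S_upd hk, A_upd hk, C_upd σ hk, C_upd τ hk, S_upd hl, A_upd hl, C_upd' σ hl, C_upd' τ hl,
    upd_ite hl, upd_ite hl]
  unfold PP; ring

lemma q_ux (hst : ∀ i, σ i ≠ τ i) (ht : 0 ≤ t) (he : 0 ≤ e) (hv : 0 ≤ v)
    (hx : ∀ j, 0 ≤ x j) (hy : ∀ j, 0 ≤ y j) (k : ι) :
    RR (fun i j => Q σ τ t e i v (update x k j) y) := by
  obtain ⟨x, hx, hk, hE, -⟩ := wlog1 hx k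
  obtain ⟨x1, hx1, hk1, hE1, -⟩ := wlog1 hx (σ.symm (τ k))
  obtain ⟨y1, hy1, hl1, hF1, -⟩ := wlog1 hy (τ k)
  have ex := hE1 (x (σ.symm (τ k)))
  have ey := hF1 (y (τ k))
  rw [update_eq_self] at ex ey
  have a1 : ∑ j, x j = x (σ.symm (τ k)) + ∑ j, x1 j := by
    conv_lhs => rw [ex]
    rw [S_upd hk1, add_comm]
  have a2 : ∑ j, y j = y (τ k) + ∑ j, y1 j := by
    conv_lhs => rw [ey]
    rw [S_upd hl1, add_comm]
  have a3 : SA x = x (σ.symm (τ k)) * (∑ j, x1 j) + SA x1 := by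
    conv_lhs => rw [ex]
    rw [A_upd hk1, add_comm]
  have a4 : SA y = y (τ k) * (∑ j, y1 j) + SA y1 := by
    conv_lhs => rw [ey]
    rw [A_upd hl1, add_comm]
  have a5 : CC σ x y = x (σ.symm (τ k)) * y (τ k) + CC σ x1 y1 := by
    conv_lhs => rw [ex, ey]
    rw [C_upd σ hk1, C_upd' σ hl1, hk1, σ.apply_symm_apply, update_self]; ring
  have a6 : y (σ k) ≤ ∑ j, y1 j := by
    have := loc1 hy (hst k); linarith
  have a7 := hK2 σ x y (σ.symm (τ k))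
  rw [σ.apply_symm_apply, a5, a1, a2, a3, a4] at a7
  refine (r_ux _ _ _ _ _ _ _ _ _ _ _ _ ht he hv (hx (σ.symm (τ k))) (S_nn hx1) (hy (τ k)) (S_nn hy1)
    (A_nn hx1) (A_nn hy1) (C_nn σ hx1 hy1) (C_nn τ hx hy) (hy (σ k)) (hX x1) (hX y1)
    (hN1 σ hx1 hy1) (hK σ x1 y1) (hL σ hx1 hy1) a6 a7).congr fun i j => ?_
  rw [hE]; unfold Q
  rw [S_upd hk, A_upd hk, C_upd σ hk, C_upd τ hk, a5, a1, a2, a3, a4]; unfold PP; ring

lemma q_te0 (hv : 0 ≤ v) (hx : ∀ j, 0 ≤ x j) (hy : ∀ j, 0 ≤ y j) :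
    RR (fun i j => Q σ τ i j 0 v x y) :=
  r_te0 _ _ _ _ _ _ _ hv (S_nn hx) (S_nn hy) (A_nn hx) (A_nn hy) (C_nn σ hx hy) (C_nn τ hx hy)
    (hK τ x y)

lemma q_te_u (hv : 0 ≤ v) (hx : ∀ j, 0 ≤ x j) (hy : ∀ j, 0 ≤ y j) :
    RR (fun i j => Q σ τ i j 1 v x y - Q σ τ i j 0 v x y) :=
  r_te_u _ _ _ _ _ _ _ hv (S_nn hx) (S_nn hy) (A_nn hx) (A_nn hy) (C_nn σ hx hy) (C_nn τ hx hy)
    (hX x) (hX y) (hK σ x y) (hL σ hx hy)

lemma q_te_x (hst : ∀ i, σ i ≠ τ i) (hu : 0 ≤ u) (hv : 0 ≤ v) (hx : ∀ j, 0 ≤ x j)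
    (hy : ∀ j, 0 ≤ y j) (k : ι) :
    RR (fun i j => Q σ τ i j u v (update x k 1) y - Q σ τ i j u v (update x k 0) y) := by
  obtain ⟨x, hx, hk, hE, -⟩ := wlog1 hx k
  refine (r_te_x _ _ _ _ _ _ _ _ _ _ hu hv (S_nn hx) (S_nn hy) (A_nn hx) (A_nn hy)
    (C_nn σ hx hy) (C_nn τ hx hy) (hy (σ k)) (hy (τ k)) (loc1 hy (hst k)) (loc2 hy (hst k))
    (loc3 y (hst k))).congr fun i j => ?_
  rw [hE, hE]; unfold Q
  simp only [S_upd hk, A_upd hk, C_upd σ hk, C_upd τ hk]; unfold PP; ring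

lemma q_ex_t (hu : 0 ≤ u) (hv : 0 ≤ v) (hx : ∀ j, 0 ≤ x j) (hy : ∀ j, 0 ≤ y j) (k : ι) :
    RR (fun i j => Q σ τ 1 i u v (update x k j) y - Q σ τ 0 i u v (update x k j) y) := by
  obtain ⟨x, hx, hk, hE, -⟩ := wlog1 hx k
  refine (r_ex_t _ _ _ _ _ _ _ _ _ _ hu hv (S_nn hx) (S_nn hy) (A_nn hx) (A_nn hy)
    (C_nn σ hx hy) (C_nn τ hx hy) (hy (σ k)) (hy (τ k))).congr fun i j => ?_
  rw [hE]; unfold Q
  simp only [S_upd hk, A_upd hk, C_upd σ hk, C_upd τ hk]; unfold PP; ring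

lemma q_ex_u (hst : ∀ i, σ i ≠ τ i) (ht : 0 ≤ t) (hv : 0 ≤ v) (hx : ∀ j, 0 ≤ x j)
    (hy : ∀ j, 0 ≤ y j) (k : ι) :
    RR (fun i j => Q σ τ t i 1 v (update x k j) y - Q σ τ t i 0 v (update x k j) y) := by
  obtain ⟨x, hx, hk, hE, -⟩ := wlog1 hx k
  refine (r_ex_u _ _ _ _ _ _ _ _ _ _ ht hv (S_nn hx) (S_nn hy) (A_nn hx) (A_nn hy)
    (C_nn σ hx hy) (C_nn τ hx hy) (hy (σ k)) (hy (τ k)) (hX x) (hX y) (hN hst hx hy) (hK σ x y)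
    (hL σ hx hy)).congr fun i j => ?_
  rw [hE]; unfold Q
  simp only [S_upd hk, A_upd hk, C_upd σ hk, C_upd τ hk]; unfold PP; ring

lemma q_ex0 (hst : ∀ i, σ i ≠ τ i) (ht : 0 ≤ t) (hv : 0 ≤ v) (hx : ∀ j, 0 ≤ x j)
    (hy : ∀ j, 0 ≤ y j) (k : ι) : RR (fun i j => Q σ τ t i 0 v (update x k j) y) := by
  obtain ⟨x, hx, hk, hE, -⟩ := wlog1 hx k
  refine (r_ex0 _ _ _ _ _ _ _ _ _ _ ht hv (S_nn hx) (S_nn hy) (A_nn hx) (A_nn hy)
    (C_nn σ hx hy) (C_nn τ hx hy) (hy (σ k)) (hy (τ k)) (hN hst hx hy)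
    (hK τ x y)).congr fun i j => ?_
  rw [hE]; unfold Q
  simp only [S_upd hk, A_upd hk, C_upd σ hk, C_upd τ hk]; unfold PP; ring

lemma q_ex_x (hst : ∀ i, σ i ≠ τ i) (ht : 0 ≤ t) (hu : 0 ≤ u) (hv : 0 ≤ v)
    (hx : ∀ j, 0 ≤ x j) (hy : ∀ j, 0 ≤ y j) {g l : ι} (hkl : g ≠ l) :
    RR (fun i j => Q σ τ t i u v (update (update x l j) g 1) y -
      Q σ τ t i u v (update (update x l j) g 0) y) := by
  obtain ⟨x, hx, hk, hl, hE⟩ := wlog2 hx hkl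
  refine (r_ex_x _ _ _ _ _ _ _ _ _ _ _ _ _ ht hu hv (S_nn hx) (S_nn hy) (A_nn hx) (A_nn hy)
    (C_nn σ hx hy) (C_nn τ hx hy) (hy (σ l)) (hy (τ l)) (hy (σ g)) (hy (τ g))
    (loc1 hy (hst g)) (loc2 hy (hst g)) (loc3 y (hst g))).congr fun i j => ?_
  have hk' : update x l j g = 0 := by rw [update_of_ne hkl, hk]
  rw [hE, hE]; unfold Q
  simp only [S_upd hk', A_upd hk', C_upd σ hk', C_upd τ hk', S_upd hl, A_upd hl, C_upd σ hl,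
    C_upd τ hl]
  unfold PP; ring

lemma q_ex_y (hst : ∀ i, σ i ≠ τ i) (ht : 0 ≤ t) (hu : 0 ≤ u) (hv : 0 ≤ v)
    (hx : ∀ j, 0 ≤ x j) (hy : ∀ j, 0 ≤ y j) (k l : ι) :
    RR (fun i j => Q σ τ t i u v (update x k j) (update y l 1) -
      Q σ τ t i u v (update x k j) (update y l 0)) := by
  obtain ⟨x, hx, hk, hE, -⟩ := wlog1 hx k
  obtain ⟨y, hy, hl, hF, -⟩ := wlog1 hy l
  have s := hst_symm hst l
  refine (r_ex_y _ _ _ _ _ _ _ _ _ _ _ _ _ _ _ ht hu hv (S_nn hx) (S_nn hy) (A_nn hx) (A_nn hy)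
    (C_nn σ hx hy) (C_nn τ hx hy) (hy (σ k)) (hy (τ k)) (hx (σ.symm l)) (hx (τ.symm l))
    (ite_nn (σ k = l)) (ite_nn (τ k = l)) (loc1 hx s) (loc2 hx s)
    (loc3 x s)).congr fun i j => ?_
  rw [hE, hF, hF]; unfold Q
  simp only [S_upd hk, A_upd hk, C_upd σ hk, C_upd τ hk, S_upd hl, A_upd hl, C_upd' σ hl,
    C_upd' τ hl]
  simp only [upd_ite hl]
  unfold PP; ring

lemma C_le2 (σ : ι ≃ ι) (hx : ∀ j, 0 ≤ x j) (hy2 : ∀ j, y j ≤ 2) : CC σ x y ≤ 2 * ∑ j, x j := by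
  unfold CC
  rw [mul_sum]
  exact sum_le_sum fun i _ => by nlinarith [hx i, hy2 (σ i)]

lemma A_le (hx : ∀ j, 0 ≤ x j) : 2 * SA x ≤ (∑ j, x j) * (∑ j, x j) - ∑ j, x j := by
  have h1 := two_SA x
  have h2 : ∑ j, x j ≤ ∑ j, x j ^ 2 := sum_le_sum fun i _ => Int.le_self_sq _
  nlinarith

lemma q_ex_box (hst : ∀ i, σ i ≠ τ i) (ht : 0 ≤ t) (hx : ∀ j, 0 ≤ x j)
    (hy : ∀ j, 0 ≤ y j) (hx2 : ∀ j, x j ≤ 2) (hy2 : ∀ j, y j ≤ 2) (k : ι) :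
    RR (fun i j => Q σ τ t i 1 1 (update x k j) y) := by
  obtain ⟨x, hx, hk, hE, hle⟩ := wlog1 hx k
  have hx2' : ∀ j, x j ≤ 2 := fun j => (hle j).trans (hx2 j)
  have c1 := C_le2 σ hx hy2
  have c2 := C_le2 τ hx hy2
  have c3 := C_le2 σ.symm hy hx2'
  have c4 := C_le2 τ.symm hy hx2'
  rw [CC_symm] at c3 c4
  refine (box_ex _ _ _ _ _ _ _ _ _ ht (S_nn hx) (S_nn hy) (A_nn hx) (A_nn hy)
    (C_nn σ hx hy) (C_nn τ hx hy) (hy (σ k)) (hy (τ k)) (hN hst hx hy) (by linarith) (by linarith)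
    (A_le hx) (A_le hy)).congr fun i j => ?_
  rw [hE]; unfold Q
  simp only [S_upd hk, A_upd hk, C_upd σ hk, C_upd τ hk]; unfold PP; ring

lemma edge_sum (ρ : ι ≃ ι) (x y : ι → ℤ) (α β γ α' β' γ' : ℤ) :
    ∑ i, (α * x i + β * y (ρ i) + γ * (x i * y (ρ i)) + α' * (x i * (2 - x i)) +
      β' * (y (ρ i) * (2 - y (ρ i))) + γ' * (x i * (2 - x i) * (y (ρ i) * (2 - y (ρ i))))) =
    α * ∑ i, x i + β * ∑ i, y i + γ * CC ρ x y + α' * ∑ i, x i * (2 - x i) +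
      β' * ∑ i, y i * (2 - y i) +
      γ' * CC ρ (fun i => x i * (2 - x i)) (fun i => y i * (2 - y i)) := by
  unfold CC
  rw [← ρ.sum_comp y, ← ρ.sum_comp (fun i => y i * (2 - y i))]
  simp only [sum_add_distrib, mul_sum]

lemma edge_facts (ρ : ι ≃ ι) (hx : ∀ j, 0 ≤ x j) (hy : ∀ j, 0 ≤ y j) (hx2 : ∀ j, x j ≤ 2)
    (hy2 : ∀ j, y j ≤ 2) :
    CC ρ x y ≤ 2 * ∑ i, x i ∧ CC ρ x y ≤ 2 * ∑ i, y i ∧
    2 * CC ρ x y + ∑ i, x i * (2 - x i) + ∑ i, y i * (2 - y i) ≤ ∑ i, x i + 3 * ∑ i, y i ∧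
    2 * CC ρ x y + ∑ i, x i * (2 - x i) + ∑ i, y i * (2 - y i) ≤ 3 * ∑ i, x i + ∑ i, y i ∧
    CC ρ x y + ∑ i, x i * (2 - x i) + ∑ i, y i * (2 - y i) ≤ ∑ i, x i + ∑ i, y i +
      CC ρ (fun i => x i * (2 - x i)) (fun i => y i * (2 - y i)) ∧
    (CC ρ x y + 1 ≤ ∑ i, x i + ∑ i, y i ∨ ∀ i, x i = y (ρ i) ∧ (x i = 0 ∨ x i = 2)) ∧
    CC ρ x y ≤ ∑ i, x i + ∑ i, y i := by
  have key : ∀ α β γ α' β' γ' : ℤ, (∀ p q : ℤ, 0 ≤ p → p ≤ 2 → 0 ≤ q → q ≤ 2 →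
      0 ≤ α * p + β * q + γ * (p * q) + α' * (p * (2 - p)) + β' * (q * (2 - q)) +
        γ' * (p * (2 - p) * (q * (2 - q)))) →
      0 ≤ α * ∑ i, x i + β * ∑ i, y i + γ * CC ρ x y + α' * ∑ i, x i * (2 - x i) +
      β' * ∑ i, y i * (2 - y i) +
      γ' * CC ρ (fun i => x i * (2 - x i)) (fun i => y i * (2 - y i)) := by
    intro α β γ α' β' γ' h
    rw [← edge_sum]
    exact sum_nonneg fun i _ => h _ _ (hx i) (hx2 i) (hy _) (hy2 _)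
  have k1 := key 2 0 (-1) 0 0 0 (by
    intro p q h1 h2 h3 h4; interval_cases p <;> interval_cases q <;> norm_num)
  have k2 := key 0 2 (-1) 0 0 0 (by
    intro p q h1 h2 h3 h4; interval_cases p <;> interval_cases q <;> norm_num)
  have k3 := key 1 3 (-2) (-1) (-1) 0 (by
    intro p q h1 h2 h3 h4; interval_cases p <;> interval_cases q <;> norm_num)
  have k4 := key 3 1 (-2) (-1) (-1) 0 (by
    intro p q h1 h2 h3 h4; interval_cases p <;> interval_cases q <;> norm_num)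
  have k5 := key 1 1 (-1) (-1) (-1) 1 (by
    intro p q h1 h2 h3 h4; interval_cases p <;> interval_cases q <;> norm_num)
  have k6 := key 1 1 (-1) 0 0 0 (by
    intro p q h1 h2 h3 h4; interval_cases p <;> interval_cases q <;> norm_num)
  refine ⟨by linarith, by linarith, by linarith, by linarith, by linarith, ?_, by linarith⟩
  rcases k6.eq_or_lt with h | h
  · right
    rw [← edge_sum] at h
    have h0 := (sum_eq_zero_iff_of_nonneg (fun i _ => by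
      have h1 := hx i; have h2 := hx2 i; have h3 := hy (ρ i); have h4 := hy2 (ρ i)
      generalize x i = p at *; generalize y (ρ i) = q at *
      interval_cases p <;> interval_cases q <;> norm_num)).1 h.symm
    intro i
    have h5 := h0 i (mem_univ i)
    have h1 := hx i; have h2 := hx2 i; have h3 := hy (ρ i); have h4 := hy2 (ρ i)
    generalize x i = p at *; generalize y (ρ i) = q at *
    interval_cases p <;> interval_cases q <;> first | (norm_num; done) | (exfalso; norm_num at h5)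
  · left; linarith

lemma q_te_box (hst : ∀ i, σ i ≠ τ i)
    (hconn : ∀ z : ι → ℤ, (∀ i, z (σ.symm (τ i)) = z i) → ∀ i j, z i = z j)
    (hx : ∀ j, 0 ≤ x j) (hy : ∀ j, 0 ≤ y j) (hx2 : ∀ j, x j ≤ 2) (hy2 : ∀ j, y j ≤ 2)
    (hne : ¬ ((∀ j, x j = 2) ∧ ∀ j, y j = 2)) : RR (fun i j => Q σ τ i j 1 1 x y) := by
  obtain ⟨a1, a2, a3, a4, a5, a6, a7⟩ := edge_facts σ hx hy hx2 hy2
  obtain ⟨b1, b2, b3, b4, b5, b6, b7⟩ := edge_facts τ hx hy hx2 hy2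
  have hp : ∀ j, 0 ≤ x j * (2 - x j) := fun j => mul_nonneg (hx j) (sub_nonneg.2 (hx2 j))
  have hq : ∀ j, 0 ≤ y j * (2 - y j) := fun j => mul_nonneg (hy j) (sub_nonneg.2 (hy2 j))
  have c := hN hst hp hq
  have hsq : ∀ z : ι → ℤ, ∑ j, z j * (2 - z j) = 2 * ∑ j, z j - ∑ j, z j ^ 2 := by
    intro z
    rw [mul_sum, ← sum_sub_distrib]
    exact sum_congr rfl fun j _ => by ring
  have hle : ∀ z : ι → ℤ, ∑ j, z j ≤ ∑ j, z j ^ 2 := fun z =>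
    sum_le_sum fun i _ => Int.le_self_sq _
  by_cases h6 : 1 ≤ 2 * (∑ j, x j + ∑ j, y j) - CC σ x y - CC τ x y
  · refine box_te _ _ _ _ _ _ (∑ j, x j * (2 - x j)) (∑ j, y j * (2 - y j))
      (2 * (∑ j, x j + ∑ j, y j) - CC σ x y - CC τ x y) ?_ ?_ (by ring) (S_nn hp) (S_nn hq) ?_ ?_
      (by linarith) (by linarith) (by linarith) (by linarith) h6 (by linarith)
    · rw [hsq, two_SA]; ring
    · rw [hsq, two_SA]; ring
    · have := hle x; rw [hsq]; linarith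
    · have := hle y; rw [hsq]; linarith
  · have a6' := a6.resolve_left (by intro h; apply h6; linarith)
    have b6' := b6.resolve_left (by intro h; apply h6; linarith)
    have hc := hconn x (fun i => by rw [(a6' _).1, σ.apply_symm_apply, (b6' i).1])
    have hx0 : x = fun _ => 0 := by
      funext i
      by_contra hi
      have h2 := (a6' i).2.resolve_left hi
      refine hne ⟨fun j => by rw [hc j i, h2], fun j => ?_⟩
      have := (a6' (σ.symm j)).1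
      rw [σ.apply_symm_apply] at this
      rw [← this, hc _ i, h2]
    have hy0 : y = fun _ => 0 := by
      funext j
      have := (a6' (σ.symm j)).1
      rw [σ.apply_symm_apply] at this
      rw [← this, hx0]
    have hA : SA (fun _ : ι => (0:ℤ)) = 0 := by
      have := two_SA (fun _ : ι => (0:ℤ))
      simpa using this
    subst hx0 hy0
    simp [RR, Q, PP, hA, CC]

end Pool.Agent.H.MP_b989b4_co
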