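import Pool.Agent.H.MP_b989b4_co.ZQ
import Pool.Agent.H.MP_b989b4_co.QL
set_option linter.unusedSectionVars false

namespace Pool.Agent.H.MP_b989b4_co
open Finset Function Sum
variable {ι : Type} [Fintype ι] [DecidableEq ι] {σ τ : ι ≃ ι}

section upd
variable (t e u v c : ℤ) (x y : ι → ℤ)
lemma u0 : update (mk t e u v x y) (inl 0) c = mk c e u v x y := by
  funext k; rcases k with g | j
  · fin_cases g <;> simp [mk]
  · simp [mk]
lemma u1 : update (mk t e u v x y) (inl 1) c = mk t c u v x y := by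
  funext k; rcases k with g | j
  · fin_cases g <;> simp [mk]
  · simp [mk]
lemma u2 : update (mk t e u v x y) (inl 2) c = mk t e c v x y := by
  funext k; rcases k with g | j
  · fin_cases g <;> simp [mk]
  · simp [mk]
lemma u3 : update (mk t e u v x y) (inl 3) c = mk t e u c x y := by
  funext k; rcases k with g | j
  · fin_cases g <;> simp [mk]
  · simp [mk]
lemma ux (i : ι) : update (mk t e u v x y) (inr (inl i)) c = mk t e u v (update x i c) y := by
  funext k; rcases k with g | j | j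
  · rw [update_of_ne (by simp)]; rfl
  · by_cases h : j = i
    · subst h; rw [update_self]; exact (update_self j c x).symm
    · rw [update_of_ne (by simpa using h)]; exact (update_of_ne h c x).symm
  · rw [update_of_ne (by simp)]; rfl
lemma uy (i : ι) : update (mk t e u v x y) (inr (inr i)) c = mk t e u v x (update y i c) := by
  funext k; rcases k with g | j | j
  · rw [update_of_ne (by simp)]; rfl
  · rw [update_of_ne (by simp)]; rfl
  · by_cases h : j = i
    · subst h; rw [update_self]; exact (update_self j c y).symm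
    · rw [update_of_ne (by simpa using h)]; exact (update_of_ne h c y).symm
end upd

lemma mk_surj (w : K ι → ℤ) : ∃ t e u v x y, w = mk t e u v x y := by
  refine ⟨w (inl 0), w (inl 1), w (inl 2), w (inl 3), fun i => w (inr (inl i)),
    fun i => w (inr (inr i)), ?_⟩
  funext k; rcases k with g | j | j
  · fin_cases g <;> rfl
  · rfl
  · rfl

lemma ray0 {b : Finset (K ι) → Prop} {k l : K ι} (hkl : k ≠ l) (w : K ι → ℤ) :
    Ray b ∅ k l w ↔ RR (fun i j => ZC b ∅ (update (update w l j) k i)) :=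
  ray_iff hkl (notMem_empty _) (notMem_empty _) w

lemma ray1 {b : Finset (K ι) → Prop} {g k l : K ι} (hkl : k ≠ l) (hk : k ≠ g) (hl : l ≠ g)
    (w : K ι → ℤ) : Ray b {g} k l w ↔
      RR (fun i j => ZC b ∅ (update (update (update w l j) k i) g 1) -
        ZC b ∅ (update (update (update w l j) k i) g 0)) := by
  rw [ray_iff hkl (notMem_singleton.2 hk) (notMem_singleton.2 hl)]
  simp only [ZC_single]

lemma fin4 (g : Fin 4) : g = 0 ∨ g = 1 ∨ g = 2 ∨ g = 3 := by omega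

lemma thmA0 (hst : ∀ i, σ i ≠ τ i) (w : K ι → ℤ) (hw : ∀ k, 0 ≤ w k) (g : Fin 4) (l : K ι)
    (hl : ∀ h, l = inl h → g < h) (hs : g = 1 → ∃ h, l = inl h) (hs' : ¬ (g = 0 ∧ l = inl 1)) :
    Ray (b0 σ τ) ∅ (inl g) l w := by
  obtain ⟨t, e, u, v, x, y, rfl⟩ := mk_surj w
  have ht : 0 ≤ t := hw (inl 0)
  have he : 0 ≤ e := hw (inl 1)
  have hu : 0 ≤ u := hw (inl 2)
  have hv : 0 ≤ v := hw (inl 3)
  have hx : ∀ i, 0 ≤ x i := fun i => hw (inr (inl i))
  have hy : ∀ i, 0 ≤ y i := fun i => hw (inr (inr i))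
  have hst' := hst_symm hst
  have hts : ∀ i, τ i ≠ σ i := fun i => (hst i).symm
  have hts' := hst_symm hts
  rw [ray0 (fun h => lt_irrefl _ (hl g h.symm))]
  rcases l with h | j | j
  · have := hl h rfl
    rcases fin4 g with rfl | rfl | rfl | rfl <;> rcases fin4 h with rfl | rfl | rfl | rfl <;>
      first | exact absurd this (by decide) | simp only [u0, u1, u2, u3, ZC_mk]
    · exact absurd ⟨rfl, rfl⟩ hs'
    · exact q_tu he hv hx hy
    · exact (q_tu (σ := τ) (τ := σ) he hu hx hy).congr fun i j => Q_uv ..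
    · exact q_eu hst ht hv hx hy
    · exact (q_eu hts ht hu hx hy).congr fun i j => Q_uv ..
    · exact q_uv hst ht he hx hy
  · rcases fin4 g with rfl | rfl | rfl | rfl <;> simp only [u0, u1, u2, u3, ux, ZC_mk]
    · exact q_tx hst he hu hv hx hy j
    · obtain ⟨h, hh⟩ := hs rfl; cases hh
    · exact q_ux hst ht he hv hx hy j
    · exact (q_ux hts ht he hu hx hy j).congr fun i j => Q_uv ..
  · rcases fin4 g with rfl | rfl | rfl | rfl <;> simp only [u0, u1, u2, u3, uy, ZC_mk]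
    · exact (q_tx hst' he hu hv hy hx j).congr fun i j => Q_xy ..
    · obtain ⟨h, hh⟩ := hs rfl; cases hh
    · exact (q_ux hst' ht he hv hy hx j).congr fun i j => Q_xy ..
    · exact (q_ux hts' ht he hu hy hx j).congr fun i j => (Q_uv ..).trans (Q_xy ..)

lemma thmA1 (hst : ∀ i, σ i ≠ τ i) (w : K ι → ℤ) (hw : ∀ k, 0 ≤ w k) (a b : ι ⊕ ι) (hab : a ≠ b) :
    Ray (b0 σ τ) ∅ (inr a) (inr b) w := by
  obtain ⟨t, e, u, v, x, y, rfl⟩ := mk_surj w
  have ht : 0 ≤ t := hw (inl 0)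
  have he : 0 ≤ e := hw (inl 1)
  have hu : 0 ≤ u := hw (inl 2)
  have hv : 0 ≤ v := hw (inl 3)
  have hx : ∀ i, 0 ≤ x i := fun i => hw (inr (inl i))
  have hy : ∀ i, 0 ≤ y i := fun i => hw (inr (inr i))
  have hst' := hst_symm hst
  rw [ray0 (inr_injective.ne hab)]
  rcases a with k | k <;> rcases b with l | l <;> simp only [ux, uy, ZC_mk]
  · exact q_xx hst ht he hu hv hx hy fun h => hab (by rw [h])
  · exact q_xy hst ht he hu hv hx hy k l
  · exact (q_xy hst ht he hu hv hx hy l k).symm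
  · exact (q_xx hst' ht he hu hv hy hx fun h => hab (by rw [h])).congr fun i j => Q_xy ..

def Sp (l : K ι) : Prop := l = inl 0 ∨ ∃ j, l = inr j

lemma thmA (hst : ∀ i, σ i ≠ τ i) (w : K ι → ℤ) (hw : ∀ k, 0 ≤ w k) {k l : K ι} (hkl : k ≠ l)
    (h1 : ¬ (k = inl 1 ∧ Sp l)) (h2 : ¬ (l = inl 1 ∧ Sp k)) : Ray (b0 σ τ) ∅ k l w := by
  rcases k with g | a <;> rcases l with h | b
  · rcases lt_trichotomy g h with hl | rfl | hl
    · refine thmA0 hst w hw g _ (fun h' e => by cases e; exact hl) (fun _ => ⟨h, rfl⟩) ?_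
      rintro ⟨rfl, e⟩; exact h2 ⟨e, Or.inl rfl⟩
    · exact absurd rfl hkl
    · refine (thmA0 hst w hw h _ (fun h' e => by cases e; exact hl) (fun _ => ⟨g, rfl⟩) ?_).symm
      rintro ⟨rfl, e⟩; exact h1 ⟨e, Or.inl rfl⟩
  · refine thmA0 hst w hw g _ (fun h' e => by cases e) ?_ (fun h => by cases h.2)
    rintro rfl; exact absurd ⟨rfl, Or.inr ⟨b, rfl⟩⟩ h1
  · refine (thmA0 hst w hw h _ (fun h' e => by cases e) ?_ (fun h => by cases h.2)).symm
    rintro rfl; exact absurd ⟨rfl, Or.inr ⟨a, rfl⟩⟩ h2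
  · exact thmA1 hst w hw a b fun e => hkl (by rw [e])

lemma Sp.ne {l : K ι} (h : Sp l) : inl 1 ≠ l := by
  rcases h with rfl | ⟨j, rfl⟩ <;> simp

lemma thmB (hst : ∀ i, σ i ≠ τ i) (w : K ι → ℤ) (hw : ∀ k, 0 ≤ w k) {g l : K ι} (hl : Sp l)
    (h1 : inl 1 ≠ g) (h2 : l ≠ g) : Ray (b0 σ τ) {g} (inl 1) l w := by
  obtain ⟨t, e, u, v, x, y, rfl⟩ := mk_surj w
  have ht : 0 ≤ t := hw (inl 0)
  have hu : 0 ≤ u := hw (inl 2)
  have hv : 0 ≤ v := hw (inl 3)
  have hx : ∀ i, 0 ≤ x i := fun i => hw (inr (inl i))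
  have hy : ∀ i, 0 ≤ y i := fun i => hw (inr (inr i))
  have hst' := hst_symm hst
  have hts : ∀ i, τ i ≠ σ i := fun i => (hst i).symm
  have hts' := hst_symm hts
  rw [ray1 hl.ne h1 h2]
  rcases hl with rfl | ⟨j | j, rfl⟩ <;> rcases g with g | k | k
  · rcases fin4 g with rfl | rfl | rfl | rfl <;> simp only [u0, u1, u2, u3, ZC_mk]
    · exact absurd rfl h2
    · exact absurd rfl h1
    · exact (q_te_u hv hx hy).symm
    · exact (q_te_u (σ := τ) (τ := σ) hu hx hy).symm.congr fun i j => by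
        rw [Q_uv σ τ, Q_uv σ τ]
  · simp only [u0, u1, ux, ZC_mk]
    exact (q_te_x hst hu hv hx hy k).symm
  · simp only [u0, u1, uy, ZC_mk]
    exact (q_te_x hst' hu hv hy hx k).symm.congr fun i j => by rw [Q_xy σ τ, Q_xy σ τ]
  · rcases fin4 g with rfl | rfl | rfl | rfl <;> simp only [u0, u1, u2, u3, ux, ZC_mk]
    · exact q_ex_t hu hv hx hy j
    · exact absurd rfl h1
    · exact q_ex_u hst ht hv hx hy j
    · exact (q_ex_u hts ht hu hx hy j).congr fun i j => by rw [Q_uv σ τ, Q_uv σ τ]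
  · simp only [u1, ux, ZC_mk]
    exact q_ex_x hst ht hu hv hx hy fun h => h2 (by rw [h])
  · simp only [u1, ux, uy, ZC_mk]
    exact q_ex_y hst ht hu hv hx hy j k
  · rcases fin4 g with rfl | rfl | rfl | rfl <;> simp only [u0, u1, u2, u3, uy, ZC_mk]
    · exact (q_ex_t (σ := σ.symm) (τ := τ.symm) hu hv hy hx j).congr fun i j => by
        rw [Q_xy σ τ, Q_xy σ τ]
    · exact absurd rfl h1
    · exact (q_ex_u hst' ht hv hy hx j).congr fun i j => by rw [Q_xy σ τ, Q_xy σ τ]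
    · exact (q_ex_u hts' ht hu hy hx j).congr fun i j => by
        rw [Q_uv σ τ, Q_uv σ τ, Q_xy τ σ, Q_xy τ σ]
  · simp only [u1, ux, uy, ZC_mk]
    exact (q_ex_y hst' ht hu hv hy hx j k).congr fun i j => by rw [Q_xy σ τ, Q_xy σ τ]
  · simp only [u1, uy, ZC_mk]
    exact (q_ex_x hst' ht hu hv hy hx (g := k) (l := j) fun h => h2 (by rw [h])).congr fun i j => by
      rw [Q_xy σ τ, Q_xy σ τ]

def cap : K ι → ℤ := mk 1 1 1 1 (fun _ => 2) (fun _ => 2)

lemma thmC (hst : ∀ i, σ i ≠ τ i)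
    (hconn : ∀ z : ι → ℤ, (∀ i, z (σ.symm (τ i)) = z i) → ∀ i j, z i = z j)
    (w : K ι → ℤ) (hw : ∀ k, 0 ≤ w k) (hc : ∀ k, w k ≤ cap k) (hne : ¬ ∀ k, w k = cap k)
    {l : K ι} (hl : Sp l) (h1 : 1 ≤ w (inl 1)) (h2 : 1 ≤ w l) : Ray (b0 σ τ) ∅ (inl 1) l w := by
  obtain ⟨t, e, u, v, x, y, rfl⟩ := mk_surj w
  have ht : 0 ≤ t := hw (inl 0)
  have hu : 0 ≤ u := hw (inl 2)
  have hv : 0 ≤ v := hw (inl 3)
  have hx : ∀ i, 0 ≤ x i := fun i => hw (inr (inl i))
  have hy : ∀ i, 0 ≤ y i := fun i => hw (inr (inr i))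
  have ht1 : t ≤ 1 := hc (inl 0)
  have he1 : e ≤ 1 := hc (inl 1)
  have hu1 : u ≤ 1 := hc (inl 2)
  have hv1 : v ≤ 1 := hc (inl 3)
  have hx2 : ∀ i, x i ≤ 2 := fun i => hc (inr (inl i))
  have hy2 : ∀ i, y i ≤ 2 := fun i => hc (inr (inr i))
  have hst' := hst_symm hst
  have hts : ∀ i, τ i ≠ σ i := fun i => (hst i).symm
  have hts' := hst_symm hts
  have huv : u = 0 ∨ v = 0 ∨ (u = 1 ∧ v = 1) := by omega
  rw [ray0 hl.ne]
  rcases hl with rfl | ⟨j | j, rfl⟩ <;> simp only [u0, u1, ux, uy, ZC_mk] <;>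
    rcases huv with rfl | rfl | ⟨rfl, rfl⟩
  · exact (q_te0 hv hx hy).symm
  · exact (q_te0 (σ := τ) (τ := σ) hu hx hy).symm.congr fun i j => Q_uv ..
  · refine (q_te_box hst hconn hx hy hx2 hy2 fun h => hne ?_).symm
    have e1 : t = 1 := le_antisymm ht1 h2
    have e2 : e = 1 := le_antisymm he1 h1
    rw [e1, e2, funext h.1, funext h.2]
    exact fun _ => rfl
  · exact q_ex0 hst ht hv hx hy j
  · exact (q_ex0 hts ht hu hx hy j).congr fun i j => Q_uv ..
  · exact q_ex_box hst ht hx hy hx2 hy2 j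
  · exact (q_ex0 hst' ht hv hy hx j).congr fun i j => Q_xy ..
  · exact (q_ex0 hts' ht hu hy hx j).congr fun i j => (Q_uv ..).trans (Q_xy ..)
  · exact (q_ex_box hst' ht hy hx hy2 hx2 j).congr fun i j => Q_xy ..

lemma thmD (hst : ∀ i, σ i ≠ τ i)
    (hconn : ∀ z : ι → ℤ, (∀ i, z (σ.symm (τ i)) = z i) → ∀ i j, z i = z j)
    (w : K ι → ℤ) (hw : ∀ k, 0 ≤ w k) (hc : ∀ k, w k ≤ cap k) (hne : ¬ ∀ k, w k = cap k)
    (D : Finset (K ι)) {k l : K ι} (hkl : k ≠ l) (hk : k ∉ D) (hl : l ∉ D)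
    (h1 : 1 ≤ w k) (h2 : 1 ≤ w l) : Ray (b0 σ τ) D k l w := by
  have sp : ∀ l : K ι, Sp l → inl 1 ∉ D → l ∉ D → 1 ≤ w (inl 1) → 1 ≤ w l →
      Ray (b0 σ τ) D (inl 1) l w := by
    intro l hs hk hl h1 h2
    rcases D.eq_empty_or_nonempty with rfl | ⟨g, hg⟩
    · exact thmC hst hconn w hw hc hne hs h1 h2
    · exact ray_all (D0 := {g}) (fun w hw => thmB hst w hw hs (fun e => hk (e ▸ hg))
        (fun e => hl (e ▸ hg))) D (singleton_subset_iff.2 hg) hk hl w hw
  by_cases a : k = inl 1 ∧ Sp l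
  · obtain ⟨rfl, hs⟩ := a
    exact sp l hs hk hl h1 h2
  by_cases b : l = inl 1 ∧ Sp k
  · obtain ⟨rfl, hs⟩ := b
    exact (sp k hs hl hk h2 h1).symm
  exact ray_all (D0 := ∅) (fun w hw => thmA hst w hw hkl a b) D (empty_subset _) hk hl w hw

lemma not_ray [Nonempty ι] : ¬ Ray (b0 σ τ) ∅ (inl 0) (inl 1) cap := by
  rw [ray0 (by simp), cap]
  simp only [u0, u1, ZC_mk]
  have hm : (1:ℤ) ≤ Fintype.card ι := by exact_mod_cast Fintype.card_pos
  have h1 : ∑ _i : ι, (2:ℤ) = 2 * Fintype.card ι := by simp [mul_comm]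
  have h2 : SA (fun _ : ι => (2:ℤ)) = 2 * (Fintype.card ι : ℤ) ^ 2 - 2 * Fintype.card ι := by
    have := two_SA (fun _ : ι => (2:ℤ))
    rw [h1] at this
    simp at this
    linarith
  have h3 : ∀ ρ : ι ≃ ι, CC ρ (fun _ : ι => (2:ℤ)) (fun _ => 2) = 4 * Fintype.card ι := by
    intro ρ; simp [CC, mul_comm]
  unfold RR Q
  rw [h1, h2, h3, h3]
  unfold PP
  nlinarith

open Classical in
theorem main (hst : ∀ i, σ i ≠ τ i) [Nonempty ι]
    (hconn : ∀ z : ι → ℤ, (∀ i, z (σ.symm (τ i)) = z i) → ∀ i j, z i = z j)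
    {γ : Type} [Fintype γ] [DecidableEq γ] (cl : γ → K ι)
    (hfib : ∀ k, ((univ.filter (fun g => cl g = k)).card : ℤ) = cap k) :
    ∃ M : Matroid γ, M.E = Set.univ ∧
      (¬ ∀ e ∈ M.E, ∀ f ∈ M.E, e ≠ f →
          Set.ncard {B : Set γ | M.IsBase B ∧ e ∈ B ∧ f ∈ B} * Set.ncard {B : Set γ | M.IsBase B} ≤
          Set.ncard {B : Set γ | M.IsBase B ∧ e ∈ B} *
            Set.ncard {B : Set γ | M.IsBase B ∧ f ∈ B}) ∧
      ∀ N : Matroid γ, N.IsStrictMinor M → ∀ e ∈ N.E, ∀ f ∈ N.E, e ≠ f →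
          Set.ncard {B : Set γ | N.IsBase B ∧ e ∈ B ∧ f ∈ B} * Set.ncard {B : Set γ | N.IsBase B} ≤
          Set.ncard {B : Set γ | N.IsBase B ∧ e ∈ B} *
            Set.ncard {B : Set γ | N.IsBase B ∧ f ∈ B} := by
  have hcap : ∀ k : K ι, 1 ≤ cap k := by
    rintro (g | j | j)
    · fin_cases g <;> simp [cap, mk]
    · simp [cap, mk]
    · simp [cap, mk]
  have hcl : Surjective cl := by
    intro k
    have h1 := hcap k
    rw [← hfib] at h1
    obtain ⟨g, hg⟩ := card_pos.1 (by exact_mod_cast h1 : 0 < (univ.filter (fun g => cl g = k)).card)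
    exact ⟨g, (mem_filter.1 hg).2⟩
  have hb := comap_base hst cl hcl
  refine ⟨(M0 hst).comap cl, rfl, ?_, ?_⟩
  · intro H
    obtain ⟨e, he⟩ := hcl (inl 0)
    obtain ⟨f, hf⟩ := hcl (inl 1)
    have hef : cl e ≠ cl f := by rw [he, hf]; simp
    refine not_nc_of cl (b0 σ τ) _ hb e f hef ?_
      (H e trivial f trivial fun h => hef (by rw [h]))
    rw [he, hf, funext hfib]
    exact not_ray
  · intro N hN e he f hf hef
    obtain ⟨C, hC, hB⟩ := minor_nf hN.isMinor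
    lift C to Finset γ using C.toFinite
    obtain ⟨R, hR⟩ : ∃ R : Finset γ, N.E = ↑R := ⟨N.E.toFinite.toFinset, (Set.Finite.coe_toFinset _).symm⟩
    rw [hR] at hC hB he hf
    have hle : ∀ k, R.filter (fun g => cl g = k) ⊆ univ.filter (fun g => cl g = k) := fun k =>
      filter_subset_filter _ (subset_univ _)
    refine nc_of_ray cl (b0 σ τ) N C R (fun B => ?_) (disjoint_coe.1 hC) e f he hf hef
      fun h1 h2 h3 => thmD hst hconn _ (fun k => Nat.cast_nonneg _) (fun k => ?_) (fun H => ?_) _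
        h1 h2 h3 ?_ ?_
    · rw [hB, ← coe_union, hb, coe_subset]
    · rw [← hfib]; exact_mod_cast card_le_card (hle k)
    · refine hN.ssubset.2 fun g _ => ?_
      have h4 := H (cl g)
      rw [← hfib] at h4
      have h5 := eq_of_subset_of_card_le (hle (cl g)) (by exact_mod_cast h4.ge)
      have : g ∈ R.filter (fun g' => cl g' = cl g) := by rw [h5]; simp
      rw [hR]; exact (mem_filter.1 this).1
    · have : 0 < (R.filter (fun g => cl g = cl e)).card := card_pos.2 ⟨e, mem_filter.2 ⟨he, rfl⟩⟩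
      exact_mod_cast this
    · have : 0 < (R.filter (fun g => cl g = cl f)).card := card_pos.2 ⟨f, mem_filter.2 ⟨hf, rfl⟩⟩
      exact_mod_cast this

lemma fib0 (k : K ι) : ((univ.filter (fun g : Fin 4 ⊕ ((ι ⊕ ι) × Bool) =>
    Sum.map id Prod.fst g = k)).card : ℤ) = cap k := by
  rcases k with g | j
  · have : univ.filter (fun g' : Fin 4 ⊕ ((ι ⊕ ι) × Bool) =>
        Sum.map id Prod.fst g' = (inl g : K ι)) = {inl g} := by
      ext a; rcases a with a | a <;> simp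
    rw [this]
    fin_cases g <;> simp [cap, mk]
  · have : univ.filter (fun g' : Fin 4 ⊕ ((ι ⊕ ι) × Bool) =>
        Sum.map id Prod.fst g' = (inr j : K ι)) = {inr (j, false), inr (j, true)} := by
      ext a; rcases a with a | ⟨a, _ | _⟩ <;> simp
    rw [this, card_pair (by simp)]
    rcases j with j | j <;> simp [cap, mk]

lemma zmod_conn (m : ℕ) [NeZero m] (z : ZMod m → ℤ) (h : ∀ i, z (i + 1) = z i) (i j : ZMod m) :
    z i = z j := by
  have key : ∀ n : ℕ, z n = z 0 := by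
    intro n
    induction n with
    | zero => simp
    | succ n ih => rw [Nat.cast_succ, h, ih]
  rw [← ZMod.natCast_zmod_val i, ← ZMod.natCast_zmod_val j, key, key]

end Pool.Agent.H.MP_b989b4_co
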