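import Mathlib
set_option linter.unusedSectionVars false

namespace Pool.Agent.H.MP_b989b4_co
open Matroid

lemma minor_nf {α : Type*} [Finite α] {M N : Matroid α} (h : N ≤m M) :
    ∃ C : Set α, Disjoint C N.E ∧ ∀ B, N.IsBase B ↔ M.IsBase (B ∪ C) ∧ B ⊆ N.E := by
  obtain ⟨C, D, hC, hD, hCD, rfl⟩ := h.exists_eq_contract_delete_disjoint
  obtain ⟨I, hI⟩ := M.exists_isBasis C
  rw [hI.contract_eq_contract_delete, delete_delete]
  set M' := M ／ I with hM'
  set D' := (C \ I) ∪ D with hD'
  set R := M'.E \ D' with hR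
  have hRE : R ⊆ M'.E := Set.sdiff_subset
  obtain ⟨B0, hB0⟩ := M'.exists_isBasis R
  obtain ⟨B1, hB1, h01⟩ := hB0.indep.exists_isBase_superset
  set J := B1 \ B0 with hJ
  have hJR : Disjoint J R := by
    rw [Set.disjoint_left]
    intro x hx hxR
    have : B0 = B1 ∩ R := hB0.eq_of_subset_indep (hB1.indep.inter_right R)
      (Set.subset_inter h01 hB0.subset) Set.inter_subset_right
    exact hx.2 (this ▸ ⟨hx.1, hxR⟩)
  have hJE : J ⊆ M'.E := Set.sdiff_subset.trans hB1.subset_ground
  have fwd : ∀ B, M'.IsBasis B R → M'.IsBase (B ∪ J) := by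
    intro B hB
    obtain ⟨K, hK, hBK⟩ := hB.indep.subset_isBasis_of_subset
      (X := R ∪ J) (hB.subset.trans Set.subset_union_left) (Set.union_subset hRE hJE)
    have hKb : M'.IsBase K := by
      refine hB1.isBase_of_isBasis_superset ?_ hK
      intro x hx
      by_cases h0 : x ∈ B0
      · exact Or.inl (hB0.subset h0)
      · exact Or.inr ⟨hx, h0⟩
    have hKR : B = K ∩ R := hB.eq_of_subset_indep (hK.indep.inter_right R)
      (Set.subset_inter hBK hB.subset) Set.inter_subset_right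
    have hsub : K ⊆ B ∪ J := by
      intro x hx
      rcases hK.subset hx with h1 | h1
      · exact Or.inl (hKR ▸ ⟨hx, h1⟩)
      · exact Or.inr h1
    have hcard : (B ∪ J).encard ≤ K.encard := by
      rw [hKb.encard_eq_encard_of_isBase hB1, ← Set.encard_sdiff_add_encard_of_subset h01,
        hB0.encard_eq_encard hB, add_comm]
      exact Set.encard_union_le _ _
    rw [← (Set.toFinite K).eq_of_subset_of_encard_le hsub hcard]
    exact hKb
  have hRI : Disjoint R I := by
    rw [Set.disjoint_left]; intro x hx hxI; exact hx.1.2 hxI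
  have hJI : Disjoint J I := by
    rw [Set.disjoint_left]; intro x hx hxI; exact (hJE hx).2 hxI
  refine ⟨J ∪ I, ?_, fun B => ?_⟩
  · rw [delete_ground]
    exact Set.disjoint_union_left.2 ⟨hJR, hRI.symm⟩
  rw [delete_isBase_iff, delete_ground, ← Set.union_assoc]
  constructor
  · intro hB
    exact ⟨(hI.indep.contract_isBase_iff.1 (fwd B hB)).1, hB.subset⟩
  · rintro ⟨hb, hBR⟩
    have hb' : M'.IsBase (B ∪ J) := hI.indep.contract_isBase_iff.2
      ⟨hb, Set.disjoint_union_left.2 ⟨hRI.mono_left hBR, hJI⟩⟩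
    obtain ⟨B', hB', hBB'⟩ := (hb'.indep.subset Set.subset_union_left).subset_isBasis_of_subset
      hBR hRE
    have he := hb'.eq_of_subset_isBase (fwd B' hB') (Set.union_subset_union_left _ hBB')
    have : B = B' := by
      refine Set.Subset.antisymm hBB' fun x hx => ?_
      have : x ∈ B ∪ J := he ▸ Or.inl hx
      rcases this with h1 | h1
      · exact h1
      · exact absurd (hB'.subset hx) (Set.disjoint_left.1 hJR h1)
    rw [this]; exact hB'

open Finset
variable {γ κ : Type*} [Fintype γ] [DecidableEq γ] [Fintype κ] [DecidableEq κ]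

open Classical in
lemma sec_card (cl : γ → κ) (R : Finset γ) (T : Finset κ) :
    (univ.filter (fun B : Finset γ => B ⊆ R ∧ Set.InjOn cl B ∧ B.image cl = T)).card =
      ∏ k ∈ T, (R.filter (fun g => cl g = k)).card := by
  rw [← Finset.card_pi]
  symm
  refine Finset.card_bij (fun f _ => T.attach.image (fun k => f k.1 k.2)) ?_ ?_ ?_
  · intro f hf
    rw [Finset.mem_pi] at hf
    have h1 : ∀ k (hk : k ∈ T), f k hk ∈ R := fun k hk => (mem_filter.1 (hf k hk)).1
    have h2 : ∀ k (hk : k ∈ T), cl (f k hk) = k := fun k hk => (mem_filter.1 (hf k hk)).2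
    refine mem_filter.2 ⟨mem_univ _, ?_, ?_, ?_⟩
    · intro g hg
      obtain ⟨k, -, rfl⟩ := mem_image.1 hg
      exact h1 _ _
    · intro g hg g' hg' he
      obtain ⟨k, -, rfl⟩ := mem_image.1 (mem_coe.1 hg)
      obtain ⟨k', -, rfl⟩ := mem_image.1 (mem_coe.1 hg')
      rw [h2, h2] at he
      have : k = k' := Subtype.ext he
      rw [this]
    · ext k
      simp only [mem_image, mem_attach, true_and]
      constructor
      · rintro ⟨g, ⟨k', rfl⟩, rfl⟩
        rw [h2]; exact k'.2
      · intro hk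
        exact ⟨f k hk, ⟨⟨k, hk⟩, rfl⟩, h2 _ _⟩
  · intro f hf f' hf' he
    rw [Finset.mem_pi] at hf hf'
    funext k hk
    have : f k hk ∈ T.attach.image (fun k => f' k.1 k.2) := by
      rw [← he]; exact mem_image.2 ⟨⟨k, hk⟩, mem_attach _ _, rfl⟩
    obtain ⟨k', -, h⟩ := mem_image.1 this
    have h1 := (mem_filter.1 (hf k hk)).2
    have h2 := (mem_filter.1 (hf' k'.1 k'.2)).2
    have : k'.1 = k := by rw [← h2, h, h1]
    obtain ⟨k', hk'⟩ := k'
    subst this
    exact h.symm
  · intro B hB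
    obtain ⟨-, hBR, hinj, him⟩ := mem_filter.1 hB
    have : ∀ k ∈ T, ∃ g ∈ B, cl g = k := fun k hk => mem_image.1 (him ▸ hk)
    choose f hf1 hf2 using this
    refine ⟨f, Finset.mem_pi.2 fun k hk => mem_filter.2 ⟨hBR (hf1 k hk), hf2 k hk⟩, ?_⟩
    ext g
    simp only [mem_image, mem_attach, true_and]
    constructor
    · rintro ⟨k, rfl⟩; exact hf1 _ _
    · intro hg
      have hk : cl g ∈ T := him ▸ mem_image_of_mem cl hg
      exact ⟨⟨cl g, hk⟩, hinj (hf1 _ hk) hg (hf2 _ hk)⟩

open Classical in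
noncomputable def ZC (b0 : Finset κ → Prop) (D : Finset κ) (w : κ → ℤ) : ℤ :=
  ∑ S ∈ univ.filter (fun S : Finset κ => b0 S ∧ D ⊆ S), ∏ k ∈ S \ D, w k

open Classical in
lemma count_eq (cl : γ → κ) (b0 : Finset κ → Prop) (C R D : Finset γ) (hCR : Disjoint C R)
    (hDR : D ⊆ R) (hinj : Set.InjOn cl ((C ∪ D : Finset γ) : Set γ)) :
    ((univ.filter (fun B : Finset γ => b0 ((B ∪ C).image cl) ∧ Set.InjOn cl ((B ∪ C : Finset γ) : Set γ) ∧ B ⊆ R ∧
      D ⊆ B)).card : ℤ) =
      ZC b0 ((C ∪ D).image cl) (fun k => ((R.filter (fun g => cl g = k)).card : ℤ)) := by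
  unfold ZC
  rw [Finset.card_eq_sum_card_fiberwise (f := fun B => (B ∪ C).image cl)
    (t := univ.filter (fun S : Finset κ => b0 S ∧ (C ∪ D).image cl ⊆ S))]
  · push_cast
    refine Finset.sum_congr rfl fun S hS => ?_
    obtain ⟨-, hb, hDS⟩ := mem_filter.1 hS
    rw [← Nat.cast_prod, ← sec_card cl R]
    congr 1
    refine Finset.card_bij' (fun B _ => B \ D) (fun B _ => B ∪ D) ?_ ?_ ?_ ?_
    · intro B hB
      simp only [mem_filter, mem_univ, true_and] at hB ⊢
      obtain ⟨⟨-, hi, hBR, hDB⟩, hS⟩ := hB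
      refine ⟨sdiff_subset.trans hBR, hi.mono (by intro x hx; simp at hx ⊢; exact Or.inl hx.1), ?_⟩
      rw [← hS]
      ext k
      simp only [mem_image, mem_sdiff, mem_union]
      constructor
      · rintro ⟨g, ⟨hg, hgD⟩, rfl⟩
        refine ⟨⟨g, Or.inl hg, rfl⟩, ?_⟩
        rintro ⟨g', hg', he⟩
        have h1 : g' = g := hi (by rcases hg' with h | h; simp [h]; simp [hDB h]) (by simp [hg]) he
        subst h1
        rcases hg' with h | h
        · exact disjoint_left.1 hCR h (hBR hg)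
        · exact hgD h
      · rintro ⟨⟨g, hg, rfl⟩, hn⟩
        rcases hg with hg | hg
        · exact ⟨g, ⟨hg, fun h => hn ⟨g, Or.inr h, rfl⟩⟩, rfl⟩
        · exact absurd ⟨g, Or.inl hg, rfl⟩ hn
    · intro B hB
      simp only [mem_filter, mem_univ, true_and] at hB ⊢
      obtain ⟨hBR, hi, hS⟩ := hB
      have him : (B ∪ D ∪ C).image cl = S := by
        rw [union_assoc, union_comm D C, image_union, hS, sdiff_union_of_subset hDS]
      refine ⟨⟨him ▸ hb, ?_, union_subset hBR hDR, subset_union_right⟩, him⟩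
      have hn : ∀ g ∈ B, ∀ g' ∈ C ∪ D, cl g ≠ cl g' := by
        intro g hg g' hg' he
        have : cl g ∈ S \ (C ∪ D).image cl := hS ▸ mem_image_of_mem cl hg
        exact (mem_sdiff.1 this).2 (he ▸ mem_image_of_mem cl hg')
      intro g hg0 g' hg0' he
      have hg : g ∈ B ∨ g ∈ C ∪ D := by simp at hg0 ⊢; tauto
      have hg' : g' ∈ B ∨ g' ∈ C ∪ D := by simp at hg0' ⊢; tauto
      rcases hg with hg | hg <;> rcases hg' with hg' | hg'
      · exact hi hg hg' he
      · exact absurd he (hn _ hg _ hg')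
      · exact absurd he.symm (hn _ hg' _ hg)
      · exact hinj hg hg' he
    · intro B hB
      simp only [mem_filter, mem_univ, true_and] at hB
      exact sdiff_union_of_subset hB.1.2.2.2
    · intro B hB
      simp only [mem_filter, mem_univ, true_and] at hB
      obtain ⟨hBR, hi, hS⟩ := hB
      refine union_sdiff_cancel_right (disjoint_left.2 fun g hg hgD => ?_)
      have : cl g ∈ S \ (C ∪ D).image cl := hS ▸ mem_image_of_mem cl hg
      exact (mem_sdiff.1 this).2 (mem_image_of_mem cl (mem_union_right _ hgD))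
  · intro B hB
    simp only [coe_filter, mem_univ, true_and, Set.mem_ofPred_eq] at hB ⊢
    refine ⟨hB.1, image_subset_image ?_⟩
    exact union_subset subset_union_right (hB.2.2.2.trans subset_union_left)

open Classical in
lemma ncard_eq (cl : γ → κ) (b0 : Finset κ → Prop) (N : Matroid γ) (C R D : Finset γ)
    (hN : ∀ B : Finset γ, N.IsBase ↑B ↔ (b0 ((B ∪ C).image cl) ∧
      Set.InjOn cl ((B ∪ C : Finset γ) : Set γ)) ∧ B ⊆ R)
    (hCR : Disjoint C R) (hDR : D ⊆ R) (p : Set γ → Prop)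
    (hp : ∀ B : Finset γ, p ↑B ↔ N.IsBase ↑B ∧ D ⊆ B) :
    (({B : Set γ | p B}.ncard : ℕ) : ℤ) =
      if Set.InjOn cl ((C ∪ D : Finset γ) : Set γ) then
        ZC b0 ((C ∪ D).image cl) (fun k => ((R.filter (fun g => cl g = k)).card : ℤ)) else 0 := by
  have h1 : {B : Set γ | p B} = (fun B : Finset γ => (B : Set γ)) ''
      ↑(univ.filter (fun B : Finset γ => b0 ((B ∪ C).image cl) ∧
        Set.InjOn cl ((B ∪ C : Finset γ) : Set γ) ∧ B ⊆ R ∧ D ⊆ B)) := by
    ext B
    lift B to Finset γ using B.toFinite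
    simp only [Set.mem_ofPred_eq, Set.mem_image, coe_filter, mem_univ, true_and, coe_inj,
      exists_eq_right, hp, hN]
    tauto
  rw [h1, Set.ncard_image_of_injective _ Finset.coe_injective, Set.ncard_coe_finset]
  split_ifs with h
  · exact count_eq cl b0 C R D hCR hDR h
  · rw [Nat.cast_eq_zero, card_eq_zero, filter_eq_empty_iff]
    rintro B - ⟨-, hi, -, hDB⟩
    refine h (hi.mono ?_)
    exact coe_subset.2 (union_subset subset_union_right (hDB.trans subset_union_left))

def Ray (b0 : Finset κ → Prop) (D : Finset κ) (k l : κ) (w : κ → ℤ) : Prop :=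
  ZC b0 (insert k (insert l D)) w * ZC b0 D w ≤ ZC b0 (insert k D) w * ZC b0 (insert l D) w

lemma ZC_nonneg (b0 : Finset κ → Prop) (D : Finset κ) (w : κ → ℤ) (hw : ∀ k, 0 ≤ w k) :
    0 ≤ ZC b0 D w :=
  sum_nonneg fun _ _ => prod_nonneg fun k _ => hw k

open Classical in
lemma nc_of_ray (cl : γ → κ) (b0 : Finset κ → Prop) (N : Matroid γ) (C R : Finset γ)
    (hN : ∀ B : Finset γ, N.IsBase ↑B ↔ (b0 ((B ∪ C).image cl) ∧
      Set.InjOn cl ((B ∪ C : Finset γ) : Set γ)) ∧ B ⊆ R)
    (hCR : Disjoint C R) (e f : γ) (he : e ∈ R) (hf : f ∈ R) (hef : e ≠ f)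
    (H : cl e ≠ cl f → cl e ∉ C.image cl → cl f ∉ C.image cl →
      Ray b0 (C.image cl) (cl e) (cl f) (fun k => ((R.filter (fun g => cl g = k)).card : ℤ))) :
    Set.ncard {B : Set γ | N.IsBase B ∧ e ∈ B ∧ f ∈ B} * Set.ncard {B : Set γ | N.IsBase B} ≤
      Set.ncard {B : Set γ | N.IsBase B ∧ e ∈ B} * Set.ncard {B : Set γ | N.IsBase B ∧ f ∈ B} := by
  have h11 := ncard_eq cl b0 N C R {e, f} hN hCR (by simp [insert_subset_iff, he, hf])
    (fun B => N.IsBase B ∧ e ∈ B ∧ f ∈ B) (by simp [insert_subset_iff])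
  have h00 := ncard_eq cl b0 N C R ∅ hN hCR (by simp) (fun B => N.IsBase B) (by simp)
  have h10 := ncard_eq cl b0 N C R {e} hN hCR (by simp [he])
    (fun B => N.IsBase B ∧ e ∈ B) (by simp)
  have h01 := ncard_eq cl b0 N C R {f} hN hCR (by simp [hf])
    (fun B => N.IsBase B ∧ f ∈ B) (by simp)
  by_cases hi : Set.InjOn cl ((C ∪ {e, f} : Finset γ) : Set γ)
  · have i00 : Set.InjOn cl ((C ∪ ∅ : Finset γ) : Set γ) :=
      hi.mono (coe_subset.2 (union_subset_union_right (by simp)))
    have i10 : Set.InjOn cl ((C ∪ {e} : Finset γ) : Set γ) :=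
      hi.mono (coe_subset.2 (union_subset_union_right (by simp)))
    have i01 : Set.InjOn cl ((C ∪ {f} : Finset γ) : Set γ) :=
      hi.mono (coe_subset.2 (union_subset_union_right (by simp)))
    rw [if_pos hi] at h11; rw [if_pos i00] at h00; rw [if_pos i10] at h10; rw [if_pos i01] at h01
    have n1 : cl e ≠ cl f := fun h => hef (hi (by simp) (by simp) h)
    have n2 : cl e ∉ C.image cl := by
      intro h
      obtain ⟨g, hg, hge⟩ := mem_image.1 h
      have : g = e := hi (by simp [hg]) (by simp) hge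
      exact disjoint_left.1 hCR hg (this ▸ he)
    have n3 : cl f ∉ C.image cl := by
      intro h
      obtain ⟨g, hg, hge⟩ := mem_image.1 h
      have : g = f := hi (by simp [hg]) (by simp) hge
      exact disjoint_left.1 hCR hg (this ▸ hf)
    have H' := H n1 n2 n3
    unfold Ray at H'
    have e11 : (C ∪ {e, f}).image cl = insert (cl e) (insert (cl f) (C.image cl)) := by
      rw [union_comm, insert_union, ← insert_eq, image_insert, image_insert]
    have e10 : (C ∪ {e}).image cl = insert (cl e) (C.image cl) := by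
      rw [union_comm, ← insert_eq, image_insert]
    have e01 : (C ∪ {f}).image cl = insert (cl f) (C.image cl) := by
      rw [union_comm, ← insert_eq, image_insert]
    rw [e11] at h11; rw [union_empty] at h00; rw [e10] at h10; rw [e01] at h01
    rw [← h11, ← h00, ← h10, ← h01] at H'
    exact_mod_cast H'
  · rw [if_neg hi, Nat.cast_eq_zero] at h11
    rw [h11, zero_mul]
    exact Nat.zero_le _

open Classical in
lemma not_nc_of (cl : γ → κ) (b0 : Finset κ → Prop) (N : Matroid γ)
    (hN : ∀ B : Finset γ, N.IsBase ↑B ↔ b0 (B.image cl) ∧ Set.InjOn cl (B : Set γ))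
    (e f : γ) (hef : cl e ≠ cl f)
    (H : ¬ Ray b0 ∅ (cl e) (cl f) (fun k => ((univ.filter (fun g => cl g = k)).card : ℤ))) :
    ¬ Set.ncard {B : Set γ | N.IsBase B ∧ e ∈ B ∧ f ∈ B} * Set.ncard {B : Set γ | N.IsBase B} ≤
      Set.ncard {B : Set γ | N.IsBase B ∧ e ∈ B} * Set.ncard {B : Set γ | N.IsBase B ∧ f ∈ B} := by
  have hN' : ∀ B : Finset γ, N.IsBase ↑B ↔ (b0 ((B ∪ ∅).image cl) ∧
      Set.InjOn cl ((B ∪ ∅ : Finset γ) : Set γ)) ∧ B ⊆ univ := by simpa using hN
  have h11 := ncard_eq cl b0 N ∅ univ {e, f} hN' (by simp) (by simp)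
    (fun B => N.IsBase B ∧ e ∈ B ∧ f ∈ B) (by simp [insert_subset_iff])
  have h00 := ncard_eq cl b0 N ∅ univ ∅ hN' (by simp) (by simp) (fun B => N.IsBase B) (by simp)
  have h10 := ncard_eq cl b0 N ∅ univ {e} hN' (by simp) (by simp)
    (fun B => N.IsBase B ∧ e ∈ B) (by simp)
  have h01 := ncard_eq cl b0 N ∅ univ {f} hN' (by simp) (by simp)
    (fun B => N.IsBase B ∧ f ∈ B) (by simp)
  have hi : Set.InjOn cl ((∅ ∪ {e, f} : Finset γ) : Set γ) := by
    intro g hg g' hg' h
    simp at hg hg'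
    rcases hg with rfl | rfl <;> rcases hg' with rfl | rfl <;> simp_all
  rw [if_pos hi] at h11; rw [if_pos (by simp)] at h00 h10 h01
  intro h
  apply H
  unfold Ray
  simp only [empty_union, image_insert, image_singleton, image_empty] at h11 h00 h10 h01
  simp only [insert_empty_eq]
  rw [← h11, ← h00, ← h10, ← h01]
  exact_mod_cast h

end Pool.Agent.H.MP_b989b4_co
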