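import Pool.Agent.H.MP_b989b4_co.Base
import Pool.Agent.H.MP_b989b4_co.Minor
set_option linter.unusedSectionVars false

namespace Pool.Agent.H.MP_b989b4_co
open Finset Function
variable {κ : Type*} [Fintype κ] [DecidableEq κ] {b0 : Finset κ → Prop}

lemma ZC_update {D : Finset κ} {g : κ} (hg : g ∉ D) (w : κ → ℤ) (c : ℤ) :
    ZC b0 D (update w g c) = ZC b0 D (update w g 0) + c * ZC b0 (insert g D) w := by
  classical
  unfold ZC
  rw [sum_filter, sum_filter, sum_filter, mul_sum, ← sum_add_distrib]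
  refine sum_congr rfl fun S _ => ?_
  by_cases hb : b0 S ∧ D ⊆ S
  · by_cases hS : g ∈ S
    · have hm : g ∈ S \ D := mem_sdiff.2 ⟨hS, hg⟩
      rw [if_pos hb, if_pos hb, if_pos ⟨hb.1, insert_subset hS hb.2⟩, prod_update_of_mem hm,
        prod_update_of_mem hm, zero_mul, zero_add, sdiff_insert, sdiff_singleton_eq_erase]
    · have hm : g ∉ S \ D := fun h => hS (mem_sdiff.1 h).1
      rw [if_pos hb, if_pos hb, if_neg (fun h => hS (h.2 (mem_insert_self _ _))),
        prod_update_of_notMem hm, prod_update_of_notMem hm, mul_zero, add_zero]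
  · rw [if_neg hb, if_neg hb, if_neg (fun h => hb ⟨h.1, (subset_insert _ _).trans h.2⟩)]
    simp

lemma ZC_split {D : Finset κ} {g : κ} (hg : g ∉ D) (w : κ → ℤ) :
    ZC b0 D w = ZC b0 D (update w g 0) + w g * ZC b0 (insert g D) w := by
  rw [← ZC_update hg, update_eq_self]

lemma ray_iff {D : Finset κ} {k l : κ} (hkl : k ≠ l) (hk : k ∉ D) (hl : l ∉ D) (w : κ → ℤ) :
    Ray b0 D k l w ↔ RR (fun i j => ZC b0 D (update (update w l j) k i)) := by
  have hl' : l ∉ insert k D := by simp [hl, hkl.symm]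
  have hk' : k ∉ insert l D := by simp [hk, hkl]
  have h : ∀ i j, ZC b0 D (update (update w l j) k i) =
      ZC b0 D (update (update w k 0) l 0) + i * ZC b0 (insert k D) (update w l 0) +
      j * ZC b0 (insert l D) (update w k 0) + i * j * ZC b0 (insert k (insert l D)) w := by
    intro i j
    rw [ZC_update hk, ZC_update hl', update_comm hkl.symm, ZC_update hl, insert_comm l k]
    ring
  rw [RR.iff_aff h]
  have h0 := h (w k) (w l)
  rw [update_eq_self, update_eq_self] at h0
  unfold Ray
  rw [h0, ZC_split hl' w, ZC_split hk' w, insert_comm l k]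
  constructor <;> intro H <;> nlinarith

lemma quad_lead {a b c : ℤ} (h : ∀ x : ℤ, 0 ≤ x → 0 ≤ a * x ^ 2 + b * x + c) : 0 ≤ a := by
  by_contra hn
  have ha : a ≤ -1 := by omega
  have h1 := le_abs_self b
  have h2 := le_abs_self c
  have h3 := abs_nonneg b
  have h4 := abs_nonneg c
  have := h (|b| + |c| + 1) (by positivity)
  set x := |b| + |c| + 1 with hx
  have hx1 : 1 ≤ x := by omega
  nlinarith [mul_le_mul_of_nonneg_right ha (sq_nonneg x), mul_le_mul_of_nonneg_right h1 (by omega : 0 ≤ x),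
    mul_le_mul_of_nonneg_left hx1 h4]

lemma ray_up {D : Finset κ} {g k l : κ} (hg : g ∉ D) (hk : g ≠ k) (hl : g ≠ l) (w : κ → ℤ)
    (H : ∀ c : ℤ, 0 ≤ c → Ray b0 D k l (update w g c)) : Ray b0 (insert g D) k l w := by
  have g1 : g ∉ insert k D := by simp [hg, hk]
  have g2 : g ∉ insert l D := by simp [hg, hl]
  have g3 : g ∉ insert k (insert l D) := by simp [hg, hk, hl]
  unfold Ray at *
  rw [insert_comm l g, insert_comm k g, insert_comm k g]
  refine le_of_sub_nonneg (quad_lead
    (b := ZC b0 (insert k D) (update w g 0) * ZC b0 (insert g (insert l D)) w +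
      ZC b0 (insert l D) (update w g 0) * ZC b0 (insert g (insert k D)) w -
      ZC b0 (insert k (insert l D)) (update w g 0) * ZC b0 (insert g D) w -
      ZC b0 D (update w g 0) * ZC b0 (insert g (insert k (insert l D))) w)
    (c := ZC b0 (insert k D) (update w g 0) * ZC b0 (insert l D) (update w g 0) -
      ZC b0 (insert k (insert l D)) (update w g 0) * ZC b0 D (update w g 0)) fun x hx => ?_)
  have := H x hx
  rw [ZC_update g3, ZC_update hg, ZC_update g1, ZC_update g2] at this
  nlinarith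

lemma ray_all {D0 : Finset κ} {k l : κ} (H : ∀ w : κ → ℤ, (∀ i, 0 ≤ w i) → Ray b0 D0 k l w)
    (D : Finset κ) (hD : D0 ⊆ D) (hk : k ∉ D) (hl : l ∉ D) (w : κ → ℤ) (hw : ∀ i, 0 ≤ w i) :
    Ray b0 D k l w := by
  have key : ∀ E : Finset κ, k ∉ E → l ∉ E → ∀ w : κ → ℤ, (∀ i, 0 ≤ w i) →
      Ray b0 (E ∪ D0) k l w := by
    intro E
    induction E using Finset.induction_on with
    | empty => intro _ _ w hw; rw [empty_union]; exact H w hw
    | insert g E hg ih =>
      intro hk hl w hw
      rw [mem_insert, not_or] at hk hl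
      rw [insert_union]
      by_cases hm : g ∈ E ∪ D0
      · rw [insert_eq_of_mem hm]; exact ih hk.2 hl.2 w hw
      · refine ray_up hm (Ne.symm hk.1) (Ne.symm hl.1) w fun c hc => ih hk.2 hl.2 _ fun i => ?_
        by_cases hi : i = g
        · subst hi; simpa
        · rw [update_of_ne hi]; exact hw i
  have := key D hk hl w hw
  rwa [union_eq_left.2 hD] at this

lemma ZC_single (g : κ) (w : κ → ℤ) :
    ZC b0 {g} w = ZC b0 ∅ (update w g 1) - ZC b0 ∅ (update w g 0) := by
  rw [ZC_update (notMem_empty g) w 1]; simp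

lemma Ray.symm {D : Finset κ} {k l : κ} {w : κ → ℤ} (h : Ray b0 D k l w) : Ray b0 D l k w := by
  unfold Ray at *
  rw [insert_comm l k, mul_comm (ZC b0 (insert l D) w)]; exact h

end Pool.Agent.H.MP_b989b4_co
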