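import Pool.Agent.H.MP_b989b4_co.Agg
import Pool.Agent.H.MP_b989b4_co.Ray
set_option linter.unusedSectionVars false

namespace Pool.Agent.H.MP_b989b4_co
open Finset Function Sum
variable {ι : Type} [Fintype ι] [DecidableEq ι] {σ τ : ι ≃ ι}

inductive Pl (ι : Type) : Type
  | p0 : Pl ι
  | px : Fin 4 → Pl ι
  | py : Fin 4 → Pl ι
  | hu : ι → Pl ι
  | hv : ι → Pl ι

abbrev K (ι : Type) : Type := Fin 4 ⊕ (ι ⊕ ι)

def inP (σ τ : ι ≃ ι) : Pl ι → K ι → Prop
  | .p0, inl g => g = 0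
  | .p0, inr _ => True
  | .px g, inl h => h = 0 ∨ h = g
  | .px _, inr (inl _) => True
  | .px _, inr (inr _) => False
  | .py g, inl h => h = 0 ∨ h = g
  | .py _, inr (inl _) => False
  | .py _, inr (inr _) => True
  | .hu _, inl h => h = 1 ∨ h = 2
  | .hu i, inr (inl j) => j = i
  | .hu i, inr (inr j) => j = σ i
  | .hv _, inl h => h = 1 ∨ h = 3
  | .hv i, inr (inl j) => j = i
  | .hv i, inr (inr j) => j = τ i

def b0 (σ τ : ι ≃ ι) (S : Finset (K ι)) : Prop :=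
  S.card = 4 ∧ ∀ p : Pl ι, ¬ ∀ d ∈ S, inP σ τ p d

def Small (σ τ : ι ≃ ι) (p q : Pl ι) : Prop :=
  (∀ d, inP σ τ p d → inP σ τ q d → inP σ τ (.px 0) d) ∨
  (∀ d, inP σ τ p d → inP σ τ q d → inP σ τ (.py 0) d) ∨
  ∃ r s, ∀ d, inP σ τ p d → inP σ τ q d → d = r ∨ d = s

lemma Small.symm {p q : Pl ι} (h : Small σ τ p q) : Small σ τ q p := by
  rcases h with h | h | ⟨r, s, h⟩
  · exact Or.inl fun d a b => h d b a
  · exact Or.inr (Or.inl fun d a b => h d b a)
  · exact Or.inr (Or.inr ⟨r, s, fun d a b => h d b a⟩)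

lemma s_0x (g : Fin 4) : Small σ τ .p0 (.px g) :=
  Or.inl (by rintro (h | j | j) <;> simp +contextual [inP])
lemma s_0y (g : Fin 4) : Small σ τ .p0 (.py g) :=
  Or.inr (Or.inl (by rintro (h | j | j) <;> simp +contextual [inP]))
lemma s_0u (i : ι) : Small σ τ .p0 (.hu i) :=
  Or.inr (Or.inr ⟨inr (inl i), inr (inr (σ i)), by
    rintro (h | j | j) <;> simp +contextual [inP]⟩)
lemma s_0v (i : ι) : Small σ τ .p0 (.hv i) :=
  Or.inr (Or.inr ⟨inr (inl i), inr (inr (τ i)), by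
    rintro (h | j | j) <;> simp +contextual [inP]⟩)
lemma s_xx {g g' : Fin 4} (hg : g ≠ g') : Small σ τ (.px g) (.px g') :=
  Or.inl (by rintro (h | j | j) <;> simp [inP]; omega)
lemma s_yy {g g' : Fin 4} (hg : g ≠ g') : Small σ τ (.py g) (.py g') :=
  Or.inr (Or.inl (by rintro (h | j | j) <;> simp [inP]; omega))
lemma s_xy (g g' : Fin 4) : Small σ τ (.px g) (.py g') :=
  Or.inr (Or.inr ⟨inl 0, inl g, by rintro (h | j | j) <;> simp +contextual [inP]⟩)
lemma s_xu (g : Fin 4) (i : ι) : Small σ τ (.px g) (.hu i) :=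
  Or.inr (Or.inr ⟨inr (inl i), inl g, by rintro (h | j | j) <;> simp [inP]; omega⟩)
lemma s_xv (g : Fin 4) (i : ι) : Small σ τ (.px g) (.hv i) :=
  Or.inr (Or.inr ⟨inr (inl i), inl g, by rintro (h | j | j) <;> simp [inP]; omega⟩)
lemma s_yu (g : Fin 4) (i : ι) : Small σ τ (.py g) (.hu i) :=
  Or.inr (Or.inr ⟨inr (inr (σ i)), inl g, by rintro (h | j | j) <;> simp [inP]; omega⟩)
lemma s_yv (g : Fin 4) (i : ι) : Small σ τ (.py g) (.hv i) :=
  Or.inr (Or.inr ⟨inr (inr (τ i)), inl g, by rintro (h | j | j) <;> simp [inP]; omega⟩)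
lemma s_uu {i i' : ι} (hi : i ≠ i') : Small σ τ (.hu i) (.hu i') :=
  Or.inr (Or.inr ⟨inl 1, inl 2, by
    rintro (h | j | j) <;> simp +contextual [inP, hi]⟩)
lemma s_vv {i i' : ι} (hi : i ≠ i') : Small σ τ (.hv i) (.hv i') :=
  Or.inr (Or.inr ⟨inl 1, inl 3, by
    rintro (h | j | j) <;> simp +contextual [inP, hi]⟩)
lemma s_uv (hst : ∀ i, σ i ≠ τ i) (i i' : ι) : Small σ τ (.hu i) (.hv i') := by
  by_cases hi : i = i'
  · subst hi
    exact Or.inr (Or.inr ⟨inl 1, inr (inl i), by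
      rintro (h | j | j) <;> simp +contextual [inP, hst]; omega⟩)
  · exact Or.inr (Or.inr ⟨inl 1, inr (inr (σ i)), by
      rintro (h | j | j) <;> simp +contextual [inP, hi]; omega⟩)

lemma small (hst : ∀ i, σ i ≠ τ i) {p q : Pl ι} (h : p ≠ q) : Small σ τ p q := by
  cases p <;> cases q
  · exact absurd rfl h
  · exact s_0x _
  · exact s_0y _
  · exact s_0u _
  · exact s_0v _
  · exact (s_0x _).symm
  · exact s_xx fun e => h (by rw [e])
  · exact s_xy _ _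
  · exact s_xu _ _
  · exact s_xv _ _
  · exact (s_0y _).symm
  · exact (s_xy _ _).symm
  · exact s_yy fun e => h (by rw [e])
  · exact s_yu _ _
  · exact s_yv _ _
  · exact (s_0u _).symm
  · exact (s_xu _ _).symm
  · exact (s_yu _ _).symm
  · exact s_uu fun e => h (by rw [e])
  · exact s_uv hst _ _
  · exact (s_0v _).symm
  · exact (s_xv _ _).symm
  · exact (s_yv _ _).symm
  · exact (s_uv hst _ _).symm
  · exact s_vv fun e => h (by rw [e])

lemma key_plane (hst : ∀ i, σ i ≠ τ i) {p q : Pl ι} (h : p ≠ q) {I : Finset (K ι)}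
    (hI : I.card = 3) (hp : ∀ d ∈ I, inP σ τ p d) (hq : ∀ d ∈ I, inP σ τ q d) (a : K ι) :
    ∃ r, ∀ d ∈ insert a I, inP σ τ r d := by
  rcases small hst h with H | H | ⟨r, s, H⟩
  · rcases a with g | j
    · refine ⟨.px g, forall_mem_insert _ _ _ |>.2 ⟨Or.inr rfl, fun d hd => ?_⟩⟩
      have := H d (hp d hd) (hq d hd)
      rcases d with h | j | j <;> simp_all [inP]
    · refine ⟨.p0, forall_mem_insert _ _ _ |>.2 ⟨trivial, fun d hd => ?_⟩⟩
      have := H d (hp d hd) (hq d hd)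
      rcases d with h | j | j <;> simp_all [inP]
  · rcases a with g | j
    · refine ⟨.py g, forall_mem_insert _ _ _ |>.2 ⟨Or.inr rfl, fun d hd => ?_⟩⟩
      have := H d (hp d hd) (hq d hd)
      rcases d with h | j | j <;> simp_all [inP]
    · refine ⟨.p0, forall_mem_insert _ _ _ |>.2 ⟨trivial, fun d hd => ?_⟩⟩
      have := H d (hp d hd) (hq d hd)
      rcases d with h | j | j <;> simp_all [inP]
  · exfalso
    have h1 : I ⊆ {r, s} := fun d hd => by simpa using H d (hp d hd) (hq d hd)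
    have h2 := (card_le_card h1).trans card_le_two
    omega

lemma exch (hst : ∀ i, σ i ≠ τ i) {B1 B2 : Finset (K ι)} (h1 : b0 σ τ B1) (h2 : b0 σ τ B2)
    {a : K ι} (ha1 : a ∈ B1) (ha2 : a ∉ B2) :
    ∃ b ∈ B2, b ∉ B1 ∧ b0 σ τ (insert b (B1.erase a)) := by
  have hI : (B1.erase a).card = 3 := by rw [card_erase_of_mem ha1, h1.1]
  have hc : ∀ b, b ∉ B1 → (insert b (B1.erase a)).card = 4 := fun b hb => by
    rw [card_insert_of_notMem (fun h => hb (mem_of_mem_erase h)), hI]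
  by_cases hp : ∃ p, ∀ d ∈ B1.erase a, inP σ τ p d
  · obtain ⟨p, hp⟩ := hp
    have := h2.2 p
    push Not at this
    obtain ⟨b, hb, hbp⟩ := this
    have hb1 : b ∉ B1 := fun h => hbp (hp b (mem_erase.2 ⟨fun e => ha2 (e ▸ hb), h⟩))
    refine ⟨b, hb, hb1, hc b hb1, fun q hq => ?_⟩
    have hpq : p ≠ q := fun e => hbp (e ▸ hq b (mem_insert_self _ _))
    obtain ⟨r, hr⟩ := key_plane hst hpq hI hp (fun d hd => hq d (mem_insert_of_mem hd)) a
    rw [insert_erase ha1] at hr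
    exact h1.2 r hr
  · have : ¬ B2 ⊆ B1 := fun h => ha2 (by
      rw [eq_of_subset_of_card_le h (by rw [h1.1, h2.1])]; exact ha1)
    obtain ⟨b, hb, hb1⟩ := not_subset.1 this
    exact ⟨b, hb, hb1, hc b hb1, fun q hq => hp ⟨q, fun d hd => hq d (mem_insert_of_mem hd)⟩⟩

lemma b0_ex : b0 σ τ {inl 0, inl 1, inl 2, inl 3} := by
  refine ⟨by simp, fun p => ?_⟩
  cases p <;> simp [inP] <;> omega

noncomputable def M0 (hst : ∀ i, σ i ≠ τ i) : Matroid (K ι) :=
  Matroid.ofIsBaseOfFinite (E := Set.univ) Set.finite_univ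
    (fun B => ∃ S : Finset (K ι), B = ↑S ∧ b0 σ τ S) ⟨_, _, rfl, b0_ex⟩
    (by
      rintro _ _ ⟨B1, rfl, h1⟩ ⟨B2, rfl, h2⟩ a ⟨ha1, ha2⟩
      obtain ⟨b, hb, hb1, h⟩ := exch hst h1 h2 ha1 ha2
      exact ⟨b, ⟨hb, hb1⟩, _, by simp, h⟩)
    (fun _ _ => Set.subset_univ _)

lemma comap_base (hst : ∀ i, σ i ≠ τ i) {γ : Type} [DecidableEq γ] (cl : γ → K ι)
    (hcl : Surjective cl) (B : Finset γ) :
    ((M0 hst).comap cl).IsBase ↑B ↔ b0 σ τ (B.image cl) ∧ Set.InjOn cl (B : Set γ) := by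
  have hE : (M0 hst).E = Set.univ := rfl
  rw [Matroid.comap_isBase_iff, hE, Set.preimage_univ, Set.image_univ, hcl.range_eq, ← hE,
    Matroid.isBasis_ground_iff]
  simp only [Set.subset_univ, and_true]
  refine and_congr_left fun _ => ?_
  show (∃ S : Finset (K ι), cl '' ↑B = ↑S ∧ b0 σ τ S) ↔ _
  rw [← coe_image]
  simp only [coe_inj, exists_eq_left']

end Pool.Agent.H.MP_b989b4_co
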