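import Pool.Agent.H.MP_b989b4_co.Mat
set_option linter.unusedSectionVars false

namespace Pool.Agent.H.MP_b989b4_co
open Finset Function Sum
variable {ι : Type} [Fintype ι] [DecidableEq ι] {σ τ : ι ≃ ι}

lemma sum_disj {α β : Type} [Fintype α] [Fintype β] [DecidableEq α] [DecidableEq β]
    (f : Finset (α ⊕ β) → ℤ) :
    ∑ S, f S = ∑ A : Finset α, ∑ B : Finset β, f (A.disjSum B) := by
  rw [← Fintype.sum_prod_type', ← (Finset.sumEquiv (α := α) (β := β)).toEquiv.symm.sum_comp]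
  rfl

def cond4 (G : Finset (Fin 4)) (p q : ℕ) : Prop :=
  G.card + p + q = 4 ∧ ¬ (∀ h ∈ G, h = 0) ∧ ¬ (q = 0 ∧ ∃ g, ∀ h ∈ G, h = 0 ∨ h = g) ∧
    ¬ (p = 0 ∧ ∃ g, ∀ h ∈ G, h = 0 ∨ h = g)

instance (G : Finset (Fin 4)) (p q : ℕ) : Decidable (cond4 G p q) := by
  unfold cond4; infer_instance

lemma cond4_le {G : Finset (Fin 4)} {p q : ℕ} (h : cond4 G p q) : p ≤ 2 ∧ q ≤ 2 := by
  have key : ∀ G : Finset (Fin 4), ∀ p < 5, ∀ q < 5, cond4 G p q → p ≤ 2 ∧ q ≤ 2 := by decide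
  have := h.1
  exact key G p (by omega) q (by omega) h

lemma forall_disj {G : Finset (Fin 4)} {X Y : Finset ι} (P : K ι → Prop) :
    (∀ d ∈ G.disjSum (X.disjSum Y), P d) ↔
      (∀ h ∈ G, P (inl h)) ∧ (∀ i ∈ X, P (inr (inl i))) ∧ ∀ i ∈ Y, P (inr (inr i)) := by
  simp [Sum.forall]

lemma H_iff {G : Finset (Fin 4)} {X Y : Finset ι} (hc : G.card + X.card + Y.card = 4)
    (g1 g2 : Fin 4) (i j : ι) :
    ((∀ h ∈ G, h = g1 ∨ h = g2) ∧ (∀ k ∈ X, k = i) ∧ ∀ k ∈ Y, k = j) ↔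
      G = {g1, g2} ∧ X = {i} ∧ Y = {j} := by
  constructor
  · rintro ⟨h1, h2, h3⟩
    have s1 : G ⊆ {g1, g2} := fun h hh => by simpa using h1 h hh
    have s2 : X ⊆ {i} := fun h hh => by simpa using h2 h hh
    have s3 : Y ⊆ {j} := fun h hh => by simpa using h3 h hh
    have c1 := card_le_card s1
    have c1' : ({g1, g2} : Finset (Fin 4)).card ≤ 2 := card_le_two
    have c2 := card_le_card s2
    have c3 := card_le_card s3
    rw [card_singleton] at c2 c3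
    exact ⟨eq_of_subset_of_card_le s1 (by omega),
      eq_of_subset_of_card_le s2 (by rw [card_singleton]; omega),
      eq_of_subset_of_card_le s3 (by rw [card_singleton]; omega)⟩
  · rintro ⟨rfl, rfl, rfl⟩
    simp

lemma b0_iff (G : Finset (Fin 4)) (X Y : Finset ι) :
    b0 σ τ (G.disjSum (X.disjSum Y)) ↔ cond4 G X.card Y.card ∧
      ¬ (G = {1, 2} ∧ ∃ i, X = {i} ∧ Y = {σ i}) ∧ ¬ (G = {1, 3} ∧ ∃ i, X = {i} ∧ Y = {τ i}) := by
  unfold b0 cond4
  rw [card_disjSum, card_disjSum, ← add_assoc, and_assoc]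
  refine and_congr_right fun hc => ?_
  constructor
  · intro H
    refine ⟨⟨fun h => H .p0 ?_, fun ⟨h0, g, h⟩ => H (.px g) ?_, fun ⟨h0, g, h⟩ => H (.py g) ?_⟩,
      fun ⟨h0, i, h⟩ => H (.hu i) ?_, fun ⟨h0, i, h⟩ => H (.hv i) ?_⟩
    · exact (forall_disj _).2 ⟨h, fun _ _ => trivial, fun _ _ => trivial⟩
    · rw [card_eq_zero] at h0; subst h0
      exact (forall_disj _).2 ⟨h, fun _ _ => trivial, by simp⟩
    · rw [card_eq_zero] at h0; subst h0
      exact (forall_disj _).2 ⟨h, by simp, fun _ _ => trivial⟩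
    · exact (forall_disj _).2 ((H_iff hc 1 2 i (σ i)).2 ⟨h0, h⟩)
    · exact (forall_disj _).2 ((H_iff hc 1 3 i (τ i)).2 ⟨h0, h⟩)
  · rintro ⟨⟨h1, h2, h3⟩, h4, h5⟩ p hp
    rw [forall_disj] at hp
    cases p with
    | p0 => exact h1 hp.1
    | px g => exact h2 ⟨card_eq_zero.2 (eq_empty_of_forall_notMem hp.2.2), g, hp.1⟩
    | py g => exact h3 ⟨card_eq_zero.2 (eq_empty_of_forall_notMem hp.2.1), g, hp.1⟩
    | hu i =>
      have := (H_iff hc 1 2 i (σ i)).1 hp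
      exact h4 ⟨this.1, i, this.2⟩
    | hv i =>
      have := (H_iff hc 1 3 i (τ i)).1 hp
      exact h5 ⟨this.1, i, this.2⟩

def ph (G : Finset (Fin 4)) (p q : ℕ) : ℤ := if cond4 G p q then 1 else 0

open Classical in
lemma b0_ind (G : Finset (Fin 4)) (X Y : Finset ι) (z : ℤ) :
    (if b0 σ τ (G.disjSum (X.disjSum Y)) then z else 0) = (ph G X.card Y.card -
      (if G = {1, 2} then 1 else 0) * (if ∃ i, X = {i} ∧ Y = {σ i} then 1 else 0) -
      (if G = {1, 3} then 1 else 0) * (if ∃ i, X = {i} ∧ Y = {τ i} then 1 else 0)) * z := by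
  rw [b0_iff]
  unfold ph
  by_cases h1 : G = {1, 2} ∧ ∃ i, X = {i} ∧ Y = {σ i}
  · have h2 : ¬ G = {1, 3} := by rw [h1.1]; decide
    have h3 : cond4 G X.card Y.card := by
      obtain ⟨rfl, i, rfl, rfl⟩ := h1
      rw [card_singleton, card_singleton]; decide
    rw [if_neg (fun h => h.2.1 h1), if_pos h3, if_pos h1.1, if_pos h1.2, if_neg h2]; ring
  by_cases h2 : G = {1, 3} ∧ ∃ i, X = {i} ∧ Y = {τ i}
  · have h1' : ¬ G = {1, 2} := by rw [h2.1]; decide
    have h3 : cond4 G X.card Y.card := by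
      obtain ⟨rfl, i, rfl, rfl⟩ := h2
      rw [card_singleton, card_singleton]; decide
    rw [if_neg (fun h => h.2.2 h2), if_pos h3, if_pos h2.1, if_pos h2.2, if_neg h1']; ring
  have e1 : ((if G = {1, 2} then 1 else 0) * (if ∃ i, X = {i} ∧ Y = {σ i} then 1 else 0) : ℤ) = 0 := by
    split_ifs with a b
    · exact absurd ⟨a, b⟩ h1
    all_goals simp
  have e2 : ((if G = {1, 3} then 1 else 0) * (if ∃ i, X = {i} ∧ Y = {τ i} then 1 else 0) : ℤ) = 0 := by
    split_ifs with a b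
    · exact absurd ⟨a, b⟩ h2
    all_goals simp
  rw [e1, e2]
  by_cases h3 : cond4 G X.card Y.card
  · rw [if_pos ⟨h3, h1, h2⟩, if_pos h3]; ring
  · rw [if_neg (fun h => h3 h.1), if_neg h3]; ring

open Classical in
lemma sum_H (ρ : ι ≃ ι) (x y : ι → ℤ) :
    ∑ X : Finset ι, ∑ Y : Finset ι, (if ∃ i, X = {i} ∧ Y = {ρ i} then 1 else 0) *
      ((∏ i ∈ X, x i) * ∏ i ∈ Y, y i) = CC ρ x y := by
  have h : ∀ X Y : Finset ι, (if ∃ i, X = {i} ∧ Y = {ρ i} then (1:ℤ) else 0) *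
      ((∏ i ∈ X, x i) * ∏ i ∈ Y, y i) =
      ∑ i, if X = {i} then (if Y = {ρ i} then x i * y (ρ i) else 0) else 0 := by
    intro X Y
    split_ifs with h
    · obtain ⟨i, rfl, rfl⟩ := h
      rw [sum_eq_single i]
      · simp
      · intro j _ hj; simp [hj.symm]
      · simp
    · rw [zero_mul]
      symm
      refine sum_eq_zero fun i _ => ?_
      split_ifs with a b
      · exact absurd ⟨i, a, b⟩ h
      all_goals rfl
  simp only [h]
  unfold CC
  rw [sum_congr rfl fun X _ => sum_comm, sum_comm]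
  refine sum_congr rfl fun i _ => ?_
  rw [sum_comm]
  simp

lemma sum_ph (G : Finset (Fin 4)) (x y : ι → ℤ) :
    ∑ X : Finset ι, ∑ Y : Finset ι, ph G X.card Y.card * ((∏ i ∈ X, x i) * ∏ i ∈ Y, y i) =
      (ph G 0 0 + ph G 0 1 * (∑ i, y i) + ph G 0 2 * SA y) +
      (ph G 1 0 + ph G 1 1 * (∑ i, y i) + ph G 1 2 * SA y) * (∑ i, x i) +
      (ph G 2 0 + ph G 2 1 * (∑ i, y i) + ph G 2 2 * SA y) * SA x := by
  rw [← sum_card (fun p => ph G p 0 + ph G p 1 * (∑ i, y i) + ph G p 2 * SA y)]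
  · refine sum_congr rfl fun X _ => ?_
    rw [← sum_card (fun q => ph G X.card q), sum_mul]
    · exact sum_congr rfl fun Y _ => by ring
    · intro n hn
      exact if_neg fun h => by have := cond4_le h; omega
  · intro n hn
    have : ∀ q, ph G n q = 0 := fun q => if_neg fun h => by have := cond4_le h; omega
    simp [this]

def mk (t e u v : ℤ) (x y : ι → ℤ) : K ι → ℤ := Sum.elim ![t, e, u, v] (Sum.elim x y)

lemma sum16 (f : Finset (Fin 4) → ℤ) : ∑ G, f G =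
    f ∅ + f {0} + f {1} + f {2} + f {3} + f {0, 1} + f {0, 2} + f {0, 3} + f {1, 2} + f {1, 3} +
    f {2, 3} + f {0, 1, 2} + f {0, 1, 3} + f {0, 2, 3} + f {1, 2, 3} + f {0, 1, 2, 3} := by
  have : (univ : Finset (Finset (Fin 4))) = {∅, {0}, {1}, {2}, {3}, {0, 1}, {0, 2}, {0, 3}, {1, 2},
      {1, 3}, {2, 3}, {0, 1, 2}, {0, 1, 3}, {0, 2, 3}, {1, 2, 3}, {0, 1, 2, 3}} := by decide
  rw [this]
  repeat rw [sum_insert (by decide)]
  rw [sum_singleton]; ring

lemma ZC_mk (t e u v : ℤ) (x y : ι → ℤ) :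
    ZC (b0 σ τ) ∅ (mk t e u v x y) = Q σ τ t e u v x y := by
  classical
  unfold ZC
  rw [sum_filter, sum_disj]
  have h : ∀ G : Finset (Fin 4), ∑ B : Finset (ι ⊕ ι),
      (if b0 σ τ (G.disjSum B) ∧ ∅ ⊆ G.disjSum B then
        ∏ k ∈ G.disjSum B \ ∅, mk t e u v x y k else 0) =
      (∏ g ∈ G, ![t, e, u, v] g) * (((ph G 0 0 + ph G 0 1 * (∑ i, y i) + ph G 0 2 * SA y) +
      (ph G 1 0 + ph G 1 1 * (∑ i, y i) + ph G 1 2 * SA y) * (∑ i, x i) +
      (ph G 2 0 + ph G 2 1 * (∑ i, y i) + ph G 2 2 * SA y) * SA x) -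
      (if G = {1, 2} then 1 else 0) * CC σ x y - (if G = {1, 3} then 1 else 0) * CC τ x y) := by
    intro G
    rw [sum_disj, ← sum_ph, ← sum_H, ← sum_H]
    simp only [mul_sum, ← sum_sub_distrib]
    refine sum_congr rfl fun X _ => sum_congr rfl fun Y _ => ?_
    simp only [empty_subset, and_true, sdiff_empty]
    rw [b0_ind, prod_disjSum, prod_disjSum]
    simp only [mk, Sum.elim_inl, Sum.elim_inr]
    ring
  rw [sum_congr rfl fun G _ => h G, sum16]
  unfold Q PP ph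
  simp (decide := true) only [if_true, if_false]
  simp
  ring

end Pool.Agent.H.MP_b989b4_co
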